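import Pool.Agent.H313.SL.Cont1

set_option autoImplicit false

/-! The argument against the sum over the primes and the squares of the primes, relative to every Dirichlet polynomial. -/

namespace Pool.Agent.H313.SX

open Filter Topology MeasureTheory Complex Finset
open H370 (zset mult NN Zf zz mem_Zf good_zeta zz_im NN_eq NN_add NN_mono zcount nn_asymp)
open Pool.Agent.Y745.SW (VF Wf P_KER P_MVB Py Px)
open Pool.Agent.Y746.OJ (KerOK VH S_LI S_RV S0 pt ZR)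
open Pool.Agent.Y923.OJ (GG GG_im GG_int cc)
open Pool.Agent.K4H8.JG
open Pool.Agent.Q97.UM (SS ZD mz dp N2 cv pc b_TAIL b_STM b_PMM)
open Pool.Agent.H313.SL

noncomputable section

/-- the decomposition, signed -/
lemma DDp_split2 {B : ℝ → ℝ} {K : ℝ} (h : KD B K) {a : ℝ} (ha : 4 ≤ a) {X : ℕ} (hXa : Real.log X ≤ 8 * a) (t : ℝ) :
    ‖DDp B a X t - dp X (gs B a X) t‖ ≤ ‖dp X (gp B a X) t‖ + 48 * (K * Real.pi) * Z32 := by
  classical
  have hK := h.K1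
  have hpi := Real.pi_pos
  have e1 : DDp B a X t - dp X (gs B a X) t = dp X (gp B a X) t +
      ∑ n ∈ (Icc 1 X).filter (fun n => ¬ n.Prime ∧ ¬ ∃ p : ℕ, p.Prime ∧ n = p ^ 2), dd B a n * (n : ℂ) ^ (-(t : ℂ) * I) := by
    unfold DDp dp
    rw [sum_filter, ← sum_sub_distrib, ← sum_add_distrib]
    refine sum_congr rfl fun n hn => ?_
    have hn1 := (mem_Icc.1 hn).1
    have hn2 := (mem_Icc.1 hn).2
    have e2 := gn_pow B a t hn1
    by_cases c1 : n.Prime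
    · have a1 : gp B a X n = gn B a n := if_pos ⟨c1, hn2⟩
      have a2 : gs B a X n = 0 := if_neg (by tauto)
      rw [a1, a2, if_neg (by tauto), e2]
      ring
    · have a1 : gp B a X n = 0 := if_neg (fun hh => c1 hh.1)
      by_cases c2 : ∃ p : ℕ, p.Prime ∧ n = p ^ 2
      · have a2 : gs B a X n = gn B a n := if_pos ⟨c1, c2, hn2⟩
        rw [a1, a2, if_neg (fun hh => hh.2 c2), e2]
        ring
      · have a2 : gs B a X n = 0 := if_neg (fun hh => c2 hh.2.1)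
        rw [a1, a2, if_pos ⟨c1, c2⟩]
        ring
  rw [e1]
  refine (norm_add_le _ _).trans (add_le_add le_rfl ?_)
  refine (norm_sum_le _ _).trans ?_
  have h2 : ∑ n ∈ (Icc 1 X).filter (fun n => ¬ n.Prime ∧ ¬ ∃ p : ℕ, p.Prime ∧ n = p ^ 2),
      ‖dd B a n * (n : ℂ) ^ (-(t : ℂ) * I)‖ ≤
      ∑ n ∈ (Icc 1 X).filter (fun n => ∃ p k : ℕ, p.Prime ∧ 3 ≤ k ∧ n = p ^ k), 12 * (K * Real.pi) * (Real.sqrt n)⁻¹ := by
    rw [sum_filter, sum_filter]
    refine sum_le_sum fun n hn => ?_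
    have hn1 := (mem_Icc.1 hn).1
    have hn2 := (mem_Icc.1 hn).2
    have hn0 : (0 : ℝ) < n := by exact_mod_cast hn1
    have hna : Real.log n ≤ 8 * a := (Real.log_le_log hn0 (by exact_mod_cast hn2)).trans hXa
    have hr : 0 ≤ (if ∃ p k : ℕ, p.Prime ∧ 3 ≤ k ∧ n = p ^ k then 12 * (K * Real.pi) * (Real.sqrt n)⁻¹ else 0) := by
      split_ifs
      · positivity
      · exact le_rfl
    by_cases c : ¬ n.Prime ∧ ¬ ∃ p : ℕ, p.Prime ∧ n = p ^ 2
    · rw [if_pos c]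
      obtain ⟨h3, h4⟩ := dd_np h ha hn1 c.1 hna
      by_cases c3 : dd B a n = 0
      · rw [c3, zero_mul, norm_zero]
        exact hr
      · have h5 := h4 c3
        rw [isPrimePow_nat_iff] at h5
        obtain ⟨p, k, hp, hk, hpk⟩ := h5
        have hk3 : 3 ≤ k := by
          by_contra hc
          have : k = 1 ∨ k = 2 := by omega
          rcases this with rfl | rfl
          · rw [pow_one] at hpk
            exact c.1 (hpk ▸ hp)
          · exact c.2 ⟨p, hp, hpk.symm⟩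
        rw [if_pos ⟨p, k, hp, hk3, hpk.symm⟩, norm_mul]
        have h6 : ‖(n : ℂ) ^ (-(t : ℂ) * I)‖ = 1 := by
          rw [Complex.norm_natCast_cpow_of_pos (by omega)]
          simp
        rw [h6, mul_one]
        exact h3
    · rw [if_neg c]
      exact hr
  refine h2.trans ?_
  rw [← mul_sum]
  calc 12 * (K * Real.pi) * ∑ n ∈ (Icc 1 X).filter (fun n => ∃ p k : ℕ, p.Prime ∧ 3 ≤ k ∧ n = p ^ k), (Real.sqrt (n : ℝ))⁻¹ ≤
      12 * (K * Real.pi) * (4 * Z32) := mul_le_mul_of_nonneg_left (cub_sum X) (by positivity)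
    _ = _ := by ring

lemma PS_py1s {B : ℝ → ℝ} {K : ℝ} (h : KD B K) {a : ℝ} (ha4 : 4 ≤ a) {y : ℝ} (hXa : Real.log (⌊y⌋₊ : ℕ) ≤ 8 * a) (t : ℝ)
    (hy : Real.exp (8 * a) ≤ y) :
    |PS (KV B a) t - I0 B a * (Py y t).im - (dp ⌊y⌋₊ (gs B a ⌊y⌋₊) t).im| ≤ 8 * K * Z54 + 1 + 48 * (K * Real.pi) * Z32 +
      ‖dp ⌊y⌋₊ (gp B a ⌊y⌋₊) t‖ := by
  have ha : 1 ≤ a := by linarith
  have h1 := PS_tail h ha t (X := ⌊y⌋₊) (hy.trans (Nat.lt_floor_add_one y).le)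
  have h2 : (DDp B a ⌊y⌋₊ t).im = (∑ n ∈ Icc 1 ⌊y⌋₊, c0 n * (cc (KV B a) t n).im) - I0 B a * (Py y t).im := by
    rw [DDp_eq, Complex.sub_im, Complex.im_sum, Complex.im_ofReal_mul]
    congr 1
    refine sum_congr rfl fun n _ => ?_
    rw [Complex.im_ofReal_mul]
  have h3 : |(DDp B a ⌊y⌋₊ t - dp ⌊y⌋₊ (gs B a ⌊y⌋₊) t).im| ≤ ‖dp ⌊y⌋₊ (gp B a ⌊y⌋₊) t‖ + 48 * (K * Real.pi) * Z32 :=
    (Complex.abs_im_le_norm _).trans (DDp_split2 h ha4 hXa t)
  have e : PS (KV B a) t - I0 B a * (Py y t).im - (dp ⌊y⌋₊ (gs B a ⌊y⌋₊) t).im =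
      (PS (KV B a) t - ∑ n ∈ Icc 1 ⌊y⌋₊, c0 n * (cc (KV B a) t n).im) + (DDp B a ⌊y⌋₊ t - dp ⌊y⌋₊ (gs B a ⌊y⌋₊) t).im := by
    rw [Complex.sub_im, h2]; ring
  rw [e]
  refine (abs_add_le _ _).trans ?_
  linarith

/-- the majorant of the difference -/
def WW2 (B : ℝ → ℝ) (K C3 T a y U1 U2 t : ℝ) : ℝ :=
  K * Real.pi * W0 T a t + 2 * MZ K a U1 U2 t + ‖dp ⌊y⌋₊ (gp B a ⌊y⌋₊) t‖ + C3

theorem ptw1s (hRV : S_RV) {B : ℝ → ℝ} {K : ℝ} (h : KD B K) {τ : ℝ} (hτ : 0 < τ) (hτ1 : τ ≤ 1 / 32) :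
    ∃ C3 T0 : ℝ, 1 ≤ C3 ∧ 10 ≤ T0 ∧ ∀ T : ℝ, T0 ≤ T →
      ∃ U1 U2 : ℝ, T ≤ U1 ∧ U1 ≤ T + 1 ∧ 2 * T - 1 ≤ U2 ∧ U2 ≤ 2 * T ∧
        ∀ t : ℝ, T + Real.log T ≤ t → t ≤ 2 * T - Real.log T →
        |E1 t - (Py (T ^ (8 * τ)) t).im / Real.pi -
          (dp ⌊T ^ (8 * τ)⌋₊ (gs B (τ * Real.log T) ⌊T ^ (8 * τ)⌋₊) t).im / (Real.pi * I0 B (τ * Real.log T))| ≤
          WW2 B K C3 T (τ * Real.log T) (T ^ (8 * τ)) U1 U2 t := by
  obtain ⟨C2, T2, hC2, hT2, hsfp⟩ := sfp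
  obtain ⟨C1, hC1, hES⟩ := E1_S0 hRV
  obtain ⟨C4, hC4, hcr⟩ := E1_crude
  have hK := h.K1
  have hpi := Real.pi_gt_three
  have hZ := Z54_nonneg
  have hZ2 := Z32_nonneg
  set C3 : ℝ := K * Real.pi * (1 + 1 / τ) + C1 * (K * Real.pi) + C2 * (K * Real.pi + 2 * K) +
    (8 * K * Z54 + 1 + 48 * (K * Real.pi) * Z32) with hC3
  have hev1 : ∀ᶠ T : ℝ in atTop, 4 ≤ τ * Real.log T :=
    (Real.tendsto_log_atTop.const_mul_atTop hτ).eventually_ge_atTop 4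
  have hev2 : ∀ᶠ T : ℝ in atTop, 4 * C4 * T ^ 2 * Real.exp (-(Real.log T - 1) ^ 2 / 2) ≤ 1 := by
    filter_upwards [Real.tendsto_log_atTop.eventually_ge_atTop (8 + Real.log (4 * C4)),
      Real.tendsto_log_atTop.eventually_ge_atTop 10, eventually_ge_atTop 1] with T h1 h2 h3
    have hT0 : 0 < T := by linarith
    have e1 : 4 * C4 * T ^ 2 = Real.exp (Real.log (4 * C4) + 2 * Real.log T) := by
      rw [Real.exp_add, Real.exp_log (by positivity)]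
      congr 1
      rw [two_mul, Real.exp_add, Real.exp_log hT0, sq]
    rw [e1, ← Real.exp_add, Real.exp_le_one_iff]
    nlinarith
  obtain ⟨T3, hT3⟩ := eventually_atTop.1 (hev1.and hev2)
  have hC31 : 1 ≤ C3 := by
    have h1 : 0 ≤ K * Real.pi * (1 + 1 / τ) := by positivity
    have h2 : 0 ≤ C1 * (K * Real.pi) := by positivity
    have h3 : 0 ≤ C2 * (K * Real.pi + 2 * K) := by positivity
    have h4 : 0 ≤ 8 * K * Z54 := by positivity
    have h5 : 0 ≤ 48 * (K * Real.pi) * Z32 := by positivity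
    rw [hC3]; linarith
  refine ⟨C3, max T2 T3, hC31, hT2.trans (le_max_left _ _), fun T hT => ?_⟩
  obtain ⟨ha4, hsm⟩ := hT3 T ((le_max_right _ _).trans hT)
  have hTT2 : T2 ≤ T := (le_max_left _ _).trans hT
  have hT10 : 10 ≤ T := hT2.trans hTT2
  have hT0 : 0 < T := by linarith
  obtain ⟨U1, U2, hU1, hU1', hU2, hU2', hs⟩ := hsfp T hTT2
  refine ⟨U1, U2, hU1, hU1', hU2, hU2', fun t ht1 ht2 => ?_⟩
  set L := Real.log T with hL
  have hL1 : 1 ≤ L := by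
    by_contra hc
    push Not at hc
    have : τ * L ≤ 1 / 32 * 1 := by
      rcases le_total 0 L with h0 | h0
      · exact mul_le_mul hτ1 hc.le h0 (by norm_num)
      · nlinarith
    linarith
  set a := τ * L with ha
  have ha1 : 1 ≤ a := by linarith
  have ha0 : 0 < a := by linarith
  have hI0 := I0_ge h ha4
  have hker := KerOK_KV h ha1
  have h1 := hs (KV B a) (K * a) (K * a * (2 * Real.exp a)) (K * Real.pi) (by positivity) (by positivity) hker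
    (VH_le h ha1) t ht1 ht2
  have h2 := hES B K h a ha1 t U1 U2 (by linarith) (by linarith)
  have h3 := smooth_aux h ha1 (m := L - 1) hT10 hU1 hU2' (by linarith) (by linarith) (by linarith) (t := t)
  have h4 := ZS_le h ha1 U1 U2 t
  have hy : Real.exp (8 * a) = T ^ (8 * τ) := by
    rw [Real.rpow_def_of_pos hT0, ha, ← hL]
    congr 1
    ring
  have hXa : Real.log (⌊T ^ (8 * τ)⌋₊ : ℕ) ≤ 8 * a := by
    have h1 : (⌊T ^ (8 * τ)⌋₊ : ℝ) ≤ T ^ (8 * τ) := Nat.floor_le (by positivity)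
    have h2 : (0 : ℝ) < ⌊T ^ (8 * τ)⌋₊ := by
      have h3 : (1 : ℝ) ≤ T ^ (8 * τ) := Real.one_le_rpow (by linarith) (by linarith)
      have h4 : 1 ≤ ⌊T ^ (8 * τ)⌋₊ := Nat.one_le_iff_ne_zero.2 (Nat.floor_pos.2 h3).ne'
      exact_mod_cast h4
    have h3 := Real.log_le_log h2 h1
    have h4 : Real.log (T ^ (8 * τ)) = 8 * a := by rw [← hy, Real.log_exp]
    rw [h4] at h3
    exact h3
  have h5 := PS_py1s h ha4 hXa t (y := T ^ (8 * τ)) hy.le
  -- the small terms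
  have h6 : |E1 t| * Real.exp (-(L - 1) ^ 2 / 2) ≤ 1 := by
    refine le_trans ?_ hsm
    have h7 := hcr t (by linarith)
    have h8 : t ^ 2 ≤ (2 * T) ^ 2 := pow_le_pow_left₀ (by linarith) (by linarith) 2
    refine mul_le_mul_of_nonneg_right ?_ (Real.exp_pos _).le
    nlinarith
  have h9 : K * a * (2 * Real.exp a) / T ≤ 2 * K := by
    rw [div_le_iff₀ hT0]
    have h10 : a ≤ Real.exp a := by linarith [Real.add_one_le_exp a]
    have h11 : Real.exp a * Real.exp a ≤ T := by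
      rw [← Real.exp_add]
      have h12 : a + a ≤ L := by
        rw [ha]
        nlinarith
      calc Real.exp (a + a) ≤ Real.exp L := Real.exp_le_exp.2 h12
        _ = T := by rw [hL, Real.exp_log hT0]
    have h13 : a * Real.exp a ≤ T := (mul_le_mul_of_nonneg_right h10 (Real.exp_pos a).le).trans h11
    nlinarith
  have h14 : L / a = 1 / τ := by
    rw [ha]
    field_simp
  set PYi := (Py (T ^ (8 * τ)) t).im with hPYi
  set Gi := (dp ⌊T ^ (8 * τ)⌋₊ (gs B a ⌊T ^ (8 * τ)⌋₊) t).im with hGi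
  set IE := ∫ y in U1..U2, E1 y * (KV B a ((y - t : ℝ) : ℂ)).re with hIE
  set IS := ∫ y in U1..U2, S0 y * (KV B a ((y - t : ℝ) : ℂ)).re with hIS
  have hpi0 : 0 < Real.pi := by linarith
  have hI1 : 0 < I0 B a := by linarith
  have e1 : I0 B a * (E1 t - PYi / Real.pi - Gi / (Real.pi * I0 B a)) = (I0 B a * E1 t - IE) + (IE - IS) +
      (IS - 1 / Real.pi * PS (KV B a) t - 2 * ZS (KV B a) U1 U2 t) + 2 * ZS (KV B a) U1 U2 t +
      (1 / Real.pi) * (PS (KV B a) t - I0 B a * PYi - Gi) := by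
    field_simp
    ring
  have h15 : |E1 t - PYi / Real.pi - Gi / (Real.pi * I0 B a)| ≤ |I0 B a * (E1 t - PYi / Real.pi - Gi / (Real.pi * I0 B a))| := by
    rw [abs_mul, abs_of_pos hI1]
    nlinarith [abs_nonneg (E1 t - PYi / Real.pi - Gi / (Real.pi * I0 B a))]
  refine h15.trans ?_
  rw [e1]
  have h16 : |(1 / Real.pi) * (PS (KV B a) t - I0 B a * PYi - Gi)| ≤ 8 * K * Z54 + 1 + 48 * (K * Real.pi) * Z32 +
      ‖dp ⌊T ^ (8 * τ)⌋₊ (gp B a ⌊T ^ (8 * τ)⌋₊) t‖ := by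
    rw [abs_mul, abs_of_pos (by positivity : 0 < 1 / Real.pi)]
    have h17 : 1 / Real.pi ≤ 1 := by rw [div_le_one hpi0]; linarith
    calc 1 / Real.pi * |PS (KV B a) t - I0 B a * PYi - Gi| ≤ 1 * |PS (KV B a) t - I0 B a * PYi - Gi| :=
          mul_le_mul_of_nonneg_right h17 (abs_nonneg _)
      _ ≤ _ := by rw [one_mul]; exact h5
  have h18 : |2 * ZS (KV B a) U1 U2 t| ≤ 2 * MZ K a U1 U2 t := by
    rw [abs_mul, abs_of_pos (by norm_num : (0:ℝ) < 2)]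
    linarith
  have h19 : C2 * (K * Real.pi + K * a * (2 * Real.exp a) / T) ≤ C2 * (K * Real.pi + 2 * K) := by
    gcongr
  have h20 : K * Real.pi * (|E1 t| * Real.exp (-(L - 1) ^ 2 / 2) + W0 T a t + L / a) ≤
      K * Real.pi * (1 + 1 / τ) + K * Real.pi * W0 T a t := by
    rw [h14]
    have : K * Real.pi * (|E1 t| * Real.exp (-(L - 1) ^ 2 / 2)) ≤ K * Real.pi * 1 :=
      mul_le_mul_of_nonneg_left h6 (by positivity)
    nlinarith
  refine (abs_add_le _ _).trans ?_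
  refine (add_le_add ((abs_add_le _ _).trans (add_le_add ((abs_add_le _ _).trans (add_le_add
    (abs_add_le _ _) le_rfl)) le_rfl)) le_rfl).trans ?_
  unfold WW2
  rw [hC3]
  linarith


theorem arg_sq_c : ∃ θ δ₀ K₁ : ℝ, 0 < θ ∧ 0 < δ₀ ∧ 0 ≤ K₁ ∧ ∀ δ : ℝ, 0 < δ → δ ≤ δ₀ → ∃ C : ℝ, 0 ≤ C ∧ ∀ᶠ T : ℝ in atTop,
      ∃ (gq : ℕ → ℂ) (M : ℝ → ℝ), (∀ n, ‖gq n‖ ≤ K₁) ∧ (∀ n, gq n ≠ 0 → (∃ p : ℕ, p.Prime ∧ n = p ^ 2) ∧ n ≤ ⌊T ^ δ⌋₊) ∧
        Continuous M ∧ (∀ t, 0 ≤ M t) ∧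
        (∀ t, T + Real.log T ≤ t → t ≤ 2 * T - Real.log T →
          |Real.pi * E1 t - (Py (T ^ δ) t).im - (dp ⌊T ^ δ⌋₊ gq t).im| ≤ Real.pi * M t) ∧
        ∀ N : ℕ, (N : ℝ) ≤ T ^ θ → ∀ b : ℕ → ℂ, ∫ t in T..(2 * T), M t ^ 2 * ‖dp N b t‖ ^ 2 ≤ C * (T * N2 N b) := by
  obtain ⟨B, K, hKD⟩ := exists_KD Pool.Agent.Y248.SW.t_KER
  obtain ⟨θt, ct, Ct, hθt, hθt1, hct, hCt, hTail⟩ := b_TAIL
  obtain ⟨Cz, hCz, hSS⟩ := b_STM θt ct Ct hθt hθt1 hct hCt hTail 2 (ct / 64) (by positivity) (by push_cast; linarith)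
  obtain ⟨δz, hδzd⟩ : ∃ δz, δz = ct / 64 := ⟨_, rfl⟩
  rw [← hδzd] at hSS
  have hδz : 0 < δz := by rw [hδzd]; positivity
  have hK := hKD.K1
  have hpi := Real.pi_pos
  have hZ := Z32_nonneg
  refine ⟨min (θt / 2) (1 / 16), min (1 / 32) δz, 12 * (K * Real.pi), by positivity, by positivity, by positivity,
    fun δ hδ hδ₀ => ?_⟩
  have hδ1 : δ ≤ 1 / 32 := hδ₀.trans (min_le_left _ _)
  have hδ2 : δ ≤ δz := hδ₀.trans (min_le_right _ _)
  obtain ⟨τ, hτd⟩ : ∃ τ, τ = δ / 8 := ⟨_, rfl⟩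
  have hτ : 0 < τ := by rw [hτd]; positivity
  have hτ1 : τ ≤ 1 / 32 := by rw [hτd]; linarith
  have hτδ : 8 * τ = δ := by rw [hτd]; ring
  obtain ⟨C3, T3, hC3, hT3, hptw⟩ := ptw1s Pool.Agent.H313.JG.rv hKD hτ hτ1
  obtain ⟨CP, hCP, hP⟩ := b_PMM 1 (16 * (K * Real.pi)) δ (δ / 2) (by positivity) (by positivity) (by linarith)
    (by push_cast; linarith)
  obtain ⟨c₁, hc₁⟩ : ∃ c₁, c₁ = K * Real.pi * (2 / τ ^ 2) + 2 * (4 * K / τ ^ 2) := ⟨_, rfl⟩
  obtain ⟨c₂, hc₂⟩ : ∃ c₂, c₂ = C3 + 48 * (K * Real.pi) * Z32 := ⟨_, rfl⟩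
  have hc₁0 : 0 ≤ c₁ := by rw [hc₁]; positivity
  have hc₂0 : 0 ≤ c₂ := by rw [hc₂]; positivity
  refine ⟨4 * (c₁ ^ 2 * Cz + CP + 2 * c₂ ^ 2), by positivity, ?_⟩
  have hpow : Tendsto (fun T : ℝ => T ^ (δ / 2)) atTop atTop := tendsto_rpow_atTop (by positivity)
  have hlog : ∀ᶠ T : ℝ in atTop, 4 ≤ τ * Real.log T := (Real.tendsto_log_atTop.const_mul_atTop hτ).eventually_ge_atTop 4
  filter_upwards [hSS, hP, eventually_ge_atTop T3, eventually_ge_atTop (16 : ℝ), hpow.eventually_ge_atTop 2, hlog,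
    Real.tendsto_log_atTop.eventually_ge_atTop 1] with T hSS hP hT3' hT16 hT2 ha4 hL1
  have hT0 : 0 < T := by linarith
  have hT1 : 1 ≤ T := by linarith
  have hmono : ∀ {x y : ℝ}, x ≤ y → T ^ x ≤ T ^ y := fun h => Real.rpow_le_rpow_of_exponent_le hT1 h
  set L := Real.log T with hL
  have hL0 : 0 < L := by linarith
  obtain ⟨X, hX⟩ : ∃ X, X = ⌊T ^ δ⌋₊ := ⟨_, rfl⟩
  have hXle : (X : ℝ) ≤ T ^ δ := by rw [hX]; exact Nat.floor_le (by positivity)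
  have hTd : T ^ δ = T ^ (δ / 2) * T ^ (δ / 2) := by rw [← Real.rpow_add hT0]; congr 1; ring
  have hXge : T ^ (δ / 2) ≤ X := by
    have h1 : T ^ δ - 1 < X := by rw [hX]; exact Nat.sub_one_lt_floor _
    have h2 : 2 * T ^ (δ / 2) ≤ T ^ δ := by
      rw [hTd]
      exact mul_le_mul_of_nonneg_right hT2 (by positivity)
    linarith
  have hX2 : 2 ≤ X := by
    have : (2 : ℝ) ≤ X := hT2.trans hXge
    exact_mod_cast this
  have hX0 : (0 : ℝ) < X := by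
    have : (2 : ℝ) ≤ X := by exact_mod_cast hX2
    linarith
  have hXa : Real.log X ≤ 8 * (τ * L) := by
    have h1 : Real.log X ≤ Real.log (T ^ δ) := Real.log_le_log hX0 hXle
    rw [Real.log_rpow hT0] at h1
    calc Real.log X ≤ δ * L := h1
      _ = 8 * (τ * L) := by rw [← hτδ]; ring
  obtain ⟨U1, U2, hU1, hU1', hU2, hU2', hpt⟩ := hptw T hT3'
  have hI0 := I0_ge hKD ha4
  have hI1 : 0 < I0 B (τ * L) := by linarith
  have cS := SS_cont δz hT1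
  have c1 := dp_cont X (gp B (τ * L) X)
  have hM0 : ∀ t, 0 ≤ c₁ * SS δz T t + ‖dp X (gp B (τ * L) X) t‖ + c₂ := fun t => by
    have := SS_nonneg δz T t
    positivity
  refine ⟨fun n => ((I0 B (τ * L))⁻¹ : ℝ) * gs B (τ * L) X n,
    fun t => c₁ * SS δz T t + ‖dp X (gp B (τ * L) X) t‖ + c₂, fun n => ?_, fun n hn => ?_, by fun_prop, hM0, ?_, ?_⟩
  · rw [norm_mul, Complex.norm_real, Real.norm_eq_abs, abs_of_pos (by positivity)]
    calc (I0 B (τ * L))⁻¹ * ‖gs B (τ * L) X n‖ ≤ 1 * (12 * (K * Real.pi)) :=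
          mul_le_mul (inv_le_one_of_one_le₀ hI0) (gs_le hKD ha4 hXa n) (norm_nonneg _) zero_le_one
      _ = _ := one_mul _
  · obtain ⟨_, h2, h3⟩ := gs_supp (right_ne_zero_of_mul hn)
    rw [hX] at h3
    exact ⟨h2, h3⟩
  · intro t ht1 ht2
    have h1 := hpt t ht1 ht2
    rw [hτδ, ← hX] at h1
    have e0 : (dp X (fun n => ((I0 B (τ * L))⁻¹ : ℝ) * gs B (τ * L) X n) t).im =
        (dp X (gs B (τ * L) X) t).im / I0 B (τ * L) := by
      rw [dp_smul X (((I0 B (τ * L))⁻¹ : ℝ) : ℂ) (gs B (τ * L) X) t, Complex.im_ofReal_mul]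
      field_simp
    have e1 : Real.pi * E1 t - (Py (T ^ δ) t).im - (dp X (fun n => ((I0 B (τ * L))⁻¹ : ℝ) * gs B (τ * L) X n) t).im =
        Real.pi * (E1 t - (Py (T ^ δ) t).im / Real.pi - (dp X (gs B (τ * L) X) t).im / (Real.pi * I0 B (τ * L))) := by
      rw [e0]
      field_simp
    rw [← hX, e1, abs_mul, abs_of_pos hpi]
    refine mul_le_mul_of_nonneg_left (h1.trans ?_) hpi.le
    unfold WW2
    rw [← hX]
    have h3 := W0_le_SS hT16 hτ (by linarith) t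
    have h4 := MZ_le_SS hT16 hτ (by linarith) (by linarith : 0 ≤ K) hU1 hU2' t
    have h6 := SS_mono (δ := τ) (δ' := δz) (by linarith) hT1 t
    rw [← hL] at h3 h4
    have h7 : K * Real.pi * W0 T (τ * L) t ≤ K * Real.pi * (2 / τ ^ 2 * SS δz T t) := by
      refine mul_le_mul_of_nonneg_left (h3.trans ?_) (by positivity)
      exact mul_le_mul_of_nonneg_left h6 (by positivity)
    have h8 : MZ K (τ * L) U1 U2 t ≤ 4 * K / τ ^ 2 * SS δz T t :=
      h4.trans (mul_le_mul_of_nonneg_left h6 (by positivity))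
    show K * Real.pi * W0 T (τ * L) t + 2 * MZ K (τ * L) U1 U2 t + ‖dp X (gp B (τ * L) X) t‖ + C3 ≤
      c₁ * SS δz T t + ‖dp X (gp B (τ * L) X) t‖ + c₂
    rw [hc₁, hc₂]
    have h9 : 0 ≤ 48 * (K * Real.pi) * Z32 := by positivity
    linarith
  · intro N hN b
    have hNz : (N : ℝ) ≤ T ^ (θt / 2) := hN.trans (hmono (min_le_left _ _))
    have hNp : (N : ℝ) ≤ T ^ (1 / 16 : ℝ) := hN.trans (hmono (min_le_right _ _))
    have hN4 : (N : ℝ) ≤ T ^ (1 / 4 : ℝ) := hNp.trans (hmono (by norm_num))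
    have hN2 : 0 ≤ N2 N b := by unfold N2; positivity
    have cB := dp_cont N b
    have s1 : ∫ t in T..(2 * T), SS δz T t ^ 2 * ‖dp N b t‖ ^ 2 ≤ Cz * T * N2 N b := by
      refine le_trans ?_ (hSS N hNz b)
      refine intervalIntegral.integral_mono_interval (by linarith) (by linarith) (by linarith)
        (Eventually.of_forall fun t => ?_) (Continuous.intervalIntegrable (by fun_prop) _ _)
      show 0 ≤ SS δz T t ^ 2 * ‖dp N b t‖ ^ 2
      positivity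
    have s2 : ∫ t in T..(2 * T), ‖dp X (gp B (τ * L) X) t‖ ^ (2 * 1) * ‖dp N b t‖ ^ 2 ≤ CP * T * N2 N b := by
      refine le_trans ?_ (hP N X hNp hXge hXle b (gp B (τ * L) X) (fun n hn => gp_supp hn) (fun n => gp_le hKD ha4 hX2 hXa n))
      refine intervalIntegral.integral_mono_interval (by linarith) (by linarith) (by linarith)
        (Eventually.of_forall fun t => ?_) (Continuous.intervalIntegrable (by fun_prop) _ _)
      show 0 ≤ ‖dp X (gp B (τ * L) X) t‖ ^ (2 * 1) * ‖dp N b t‖ ^ 2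
      positivity
    have s4 := (Pool.Agent.Q84.UM.t_MVL T hT16 N hN4 b).2
    have hmon : ∫ t in T..(2 * T), (c₁ * SS δz T t + ‖dp X (gp B (τ * L) X) t‖ + c₂) ^ 2 *
        ‖dp N b t‖ ^ 2 ≤ ∫ t in T..(2 * T), (4 * c₁ ^ 2 * (SS δz T t ^ 2 * ‖dp N b t‖ ^ 2) +
          4 * (‖dp X (gp B (τ * L) X) t‖ ^ (2 * 1) * ‖dp N b t‖ ^ 2) + 4 * c₂ ^ 2 * ‖dp N b t‖ ^ 2) := by
      refine intervalIntegral.integral_mono_on (by linarith) (Continuous.intervalIntegrable (by fun_prop) _ _)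
        (Continuous.intervalIntegrable (by fun_prop) _ _) fun t _ => ?_
      have h1 := four_sq (c₁ * SS δz T t) ‖dp X (gp B (τ * L) X) t‖ 0 c₂
      have h2 : (0 : ℝ) ≤ ‖dp N b t‖ ^ 2 := by positivity
      have h3 := mul_le_mul_of_nonneg_right h1 h2
      rw [add_zero] at h3
      refine h3.trans (le_of_eq ?_)
      ring
    refine hmon.trans ?_
    rw [intervalIntegral.integral_add (Continuous.intervalIntegrable (by fun_prop) _ _) (Continuous.intervalIntegrable (by fun_prop) _ _),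
      intervalIntegral.integral_add (Continuous.intervalIntegrable (by fun_prop) _ _) (Continuous.intervalIntegrable (by fun_prop) _ _),
      intervalIntegral.integral_const_mul, intervalIntegral.integral_const_mul,
      intervalIntegral.integral_const_mul]
    calc 4 * c₁ ^ 2 * (∫ t in T..(2 * T), SS δz T t ^ 2 * ‖dp N b t‖ ^ 2) +
          4 * (∫ t in T..(2 * T), ‖dp X (gp B (τ * L) X) t‖ ^ (2 * 1) * ‖dp N b t‖ ^ 2) +
          4 * c₂ ^ 2 * (∫ t in T..(2 * T), ‖dp N b t‖ ^ 2) ≤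
        4 * c₁ ^ 2 * (Cz * T * N2 N b) + 4 * (CP * T * N2 N b) +
          4 * c₂ ^ 2 * (2 * T * N2 N b) := by gcongr
      _ = _ := by ring

end

end Pool.Agent.H313.SX
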