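import Pool.Agent.H313.SX.Arg
import Pool.Agent.H313.SL.Arg3

set_option autoImplicit false

/-! The argument at the zeros against the sum over the primes and their squares, relative to every Dirichlet polynomial. -/

namespace Pool.Agent.H313.SX

open Filter Topology MeasureTheory Complex Finset
open H370 (zset mult NN Zf zz mem_Zf good_zeta zz_im NN_eq NN_add NN_mono zcount nn_asymp)
open Pool.Agent.Y745.SW (VF Wf P_KER P_MVB Py Px)
open Pool.Agent.K4H8.JG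
open Pool.Agent.Q97.UM (SS ZD mz dp N2 cv pc b_SSZ b_SAMP b_PMD)
open Pool.Agent.H313.SL

noncomputable section

theorem arg_sq_z : ∃ θ δ₀ K₁ : ℝ, 0 < θ ∧ 0 < δ₀ ∧ 0 ≤ K₁ ∧ ∀ δ : ℝ, 0 < δ → δ ≤ δ₀ → ∃ C : ℝ, 0 ≤ C ∧ ∀ᶠ T : ℝ in atTop,
      ∃ (gq : ℕ → ℂ) (M : ℝ → ℝ), (∀ n, ‖gq n‖ ≤ K₁) ∧ (∀ n, gq n ≠ 0 → (∃ p : ℕ, p.Prime ∧ n = p ^ 2) ∧ n ≤ ⌊T ^ δ⌋₊) ∧
        (∀ t, 0 ≤ M t) ∧
        (∀ t, T + Real.log T ≤ t → t ≤ 2 * T - Real.log T →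
          |Real.pi * E1 t - (Py (T ^ δ) t).im - (dp ⌊T ^ δ⌋₊ gq t).im| ≤ Real.pi * M t) ∧
        ∀ N : ℕ, (N : ℝ) ≤ T ^ θ → ∀ b : ℕ → ℂ,
          ∑ s ∈ Zf riemannZeta T (2 * T), (mz s : ℝ) * (M s.im ^ 2 * ‖dp N b s.im‖ ^ 2) ≤ C * (Real.log T * (T * N2 N b)) := by
  obtain ⟨B, K, hKD⟩ := exists_KD Pool.Agent.Y248.SW.t_KER
  obtain ⟨θz, δz, Cz, hθz, hδz, hCz, hSSZ⟩ := b_SSZ
  obtain ⟨θs, hθs, hθs1, hS⟩ := b_SAMP 1 one_pos
  obtain ⟨θp, hθp, hθp1, hPMD⟩ := b_PMD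
  have hK := hKD.K1
  have hpi := Real.pi_pos
  have hZ := Z32_nonneg
  refine ⟨min (min θz θs) θp, min (min (1 / 32) δz) θp, 12 * (K * Real.pi), by positivity, by positivity, by positivity,
    fun δ hδ hδ₀ => ?_⟩
  have hδ1 : δ ≤ 1 / 32 := hδ₀.trans ((min_le_left _ _).trans (min_le_left _ _))
  have hδ2 : δ ≤ δz := hδ₀.trans ((min_le_left _ _).trans (min_le_right _ _))
  have hδ4 : δ ≤ θp := hδ₀.trans (min_le_right _ _)
  obtain ⟨τ, hτd⟩ : ∃ τ, τ = δ / 8 := ⟨_, rfl⟩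
  have hτ : 0 < τ := by rw [hτd]; positivity
  have hτ1 : τ ≤ 1 / 32 := by rw [hτd]; linarith
  have hτδ : 8 * τ = δ := by rw [hτd]; ring
  obtain ⟨C3, T3, hC3, hT3, hptw⟩ := ptw1s Pool.Agent.H313.JG.rv hKD hτ hτ1
  obtain ⟨CP, hCP, hP⟩ := hPMD 1 (16 * (K * Real.pi)) δ (δ / 2) (by positivity) (by positivity) (by linarith)
    (by push_cast; linarith)
  obtain ⟨c₁, hc₁⟩ : ∃ c₁, c₁ = K * Real.pi * (2 / τ ^ 2) + 2 * (4 * K / τ ^ 2) := ⟨_, rfl⟩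
  obtain ⟨c₂, hc₂⟩ : ∃ c₂, c₂ = C3 + 48 * (K * Real.pi) * Z32 := ⟨_, rfl⟩
  have hc₁0 : 0 ≤ c₁ := by rw [hc₁]; positivity
  have hc₂0 : 0 ≤ c₂ := by rw [hc₂]; positivity
  refine ⟨4 * (c₁ ^ 2 * Cz + CP + 2 * c₂ ^ 2), by positivity, ?_⟩
  have hpow : Tendsto (fun T : ℝ => T ^ (δ / 2)) atTop atTop := tendsto_rpow_atTop (by positivity)
  have hlog : ∀ᶠ T : ℝ in atTop, 4 ≤ τ * Real.log T := (Real.tendsto_log_atTop.const_mul_atTop hτ).eventually_ge_atTop 4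
  filter_upwards [hSSZ, hS, hP, eventually_ge_atTop T3, eventually_ge_atTop (16 : ℝ), hpow.eventually_ge_atTop 2, hlog,
    Real.tendsto_log_atTop.eventually_ge_atTop 1] with T hSSZ hS hP hT3' hT16 hT2 ha4 hL1
  have hT0 : 0 < T := by linarith
  have hT1 : 1 ≤ T := by linarith
  have hmono : ∀ {x y : ℝ}, x ≤ y → T ^ x ≤ T ^ y := fun h => Real.rpow_le_rpow_of_exponent_le hT1 h
  set L := Real.log T with hL
  have hL0 : 0 < L := by linarith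
  obtain ⟨X, hX⟩ : ∃ X, X = ⌊T ^ δ⌋₊ := ⟨_, rfl⟩
  have hXle : (X : ℝ) ≤ T ^ δ := by rw [hX]; exact Nat.floor_le (by positivity)
  have hTd : T ^ δ = T ^ (δ / 2) * T ^ (δ / 2) := by rw [← Real.rpow_add hT0]; congr 1; ring
  have hXge : T ^ (δ / 2) ≤ X := by
    have h1 : T ^ δ - 1 < X := by rw [hX]; exact Nat.sub_one_lt_floor _
    have h2 : 2 * T ^ (δ / 2) ≤ T ^ δ := by
      rw [hTd]
      exact mul_le_mul_of_nonneg_right hT2 (by positivity)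
    linarith
  have hX2 : 2 ≤ X := by
    have : (2 : ℝ) ≤ X := hT2.trans hXge
    exact_mod_cast this
  have hX0 : (0 : ℝ) < X := by
    have : (2 : ℝ) ≤ X := by exact_mod_cast hX2
    linarith
  have hXa : Real.log X ≤ 8 * (τ * L) := by
    have h1 : Real.log X ≤ Real.log (T ^ δ) := Real.log_le_log hX0 hXle
    rw [Real.log_rpow hT0] at h1
    calc Real.log X ≤ δ * L := h1
      _ = 8 * (τ * L) := by rw [← hτδ]; ring
  obtain ⟨U1, U2, hU1, hU1', hU2, hU2', hpt⟩ := hptw T hT3'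
  have hI0 := I0_ge hKD ha4
  have hI1 : 0 < I0 B (τ * L) := by linarith
  have hM0 : ∀ t, 0 ≤ c₁ * SS δz T t + ‖dp X (gp B (τ * L) X) t‖ + c₂ := fun t => by
    have := SS_nonneg δz T t
    positivity
  refine ⟨fun n => ((I0 B (τ * L))⁻¹ : ℝ) * gs B (τ * L) X n,
    fun t => c₁ * SS δz T t + ‖dp X (gp B (τ * L) X) t‖ + c₂, fun n => ?_, fun n hn => ?_, hM0, ?_, ?_⟩
  · rw [norm_mul, Complex.norm_real, Real.norm_eq_abs, abs_of_pos (by positivity)]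
    calc (I0 B (τ * L))⁻¹ * ‖gs B (τ * L) X n‖ ≤ 1 * (12 * (K * Real.pi)) :=
          mul_le_mul (inv_le_one_of_one_le₀ hI0) (gs_le hKD ha4 hXa n) (norm_nonneg _) zero_le_one
      _ = _ := one_mul _
  · obtain ⟨_, h2, h3⟩ := gs_supp (right_ne_zero_of_mul hn)
    rw [hX] at h3
    exact ⟨h2, h3⟩
  · intro t ht1 ht2
    have h1 := hpt t ht1 ht2
    rw [hτδ, ← hX] at h1
    have e0 : (dp X (fun n => ((I0 B (τ * L))⁻¹ : ℝ) * gs B (τ * L) X n) t).im =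
        (dp X (gs B (τ * L) X) t).im / I0 B (τ * L) := by
      rw [dp_smul X (((I0 B (τ * L))⁻¹ : ℝ) : ℂ) (gs B (τ * L) X) t, Complex.im_ofReal_mul]
      field_simp
    have e1 : Real.pi * E1 t - (Py (T ^ δ) t).im - (dp X (fun n => ((I0 B (τ * L))⁻¹ : ℝ) * gs B (τ * L) X n) t).im =
        Real.pi * (E1 t - (Py (T ^ δ) t).im / Real.pi - (dp X (gs B (τ * L) X) t).im / (Real.pi * I0 B (τ * L))) := by
      rw [e0]
      field_simp
    rw [← hX, e1, abs_mul, abs_of_pos hpi]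
    refine mul_le_mul_of_nonneg_left (h1.trans ?_) hpi.le
    unfold WW2
    rw [← hX]
    have h3 := W0_le_SS hT16 hτ (by linarith) t
    have h4 := MZ_le_SS hT16 hτ (by linarith) (by linarith : 0 ≤ K) hU1 hU2' t
    have h6 := SS_mono (δ := τ) (δ' := δz) (by linarith) hT1 t
    rw [← hL] at h3 h4
    have h7 : K * Real.pi * W0 T (τ * L) t ≤ K * Real.pi * (2 / τ ^ 2 * SS δz T t) := by
      refine mul_le_mul_of_nonneg_left (h3.trans ?_) (by positivity)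
      exact mul_le_mul_of_nonneg_left h6 (by positivity)
    have h8 : MZ K (τ * L) U1 U2 t ≤ 4 * K / τ ^ 2 * SS δz T t :=
      h4.trans (mul_le_mul_of_nonneg_left h6 (by positivity))
    show K * Real.pi * W0 T (τ * L) t + 2 * MZ K (τ * L) U1 U2 t + ‖dp X (gp B (τ * L) X) t‖ + C3 ≤
      c₁ * SS δz T t + ‖dp X (gp B (τ * L) X) t‖ + c₂
    rw [hc₁, hc₂]
    have h9 : 0 ≤ 48 * (K * Real.pi) * Z32 := by positivity
    linarith
  · intro N hN b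
    have hNz : (N : ℝ) ≤ T ^ θz := hN.trans (hmono ((min_le_left _ _).trans (min_le_left _ _)))
    have hNs : (N : ℝ) ≤ T ^ θs := hN.trans (hmono ((min_le_left _ _).trans (min_le_right _ _)))
    have hNp : (N : ℝ) ≤ T ^ θp := hN.trans (hmono (min_le_right _ _))
    have hN2 : 0 ≤ N2 N b := by unfold N2; positivity
    have samp : ∀ (M : ℕ) (f : ℕ → ℂ), (M : ℝ) ≤ T ^ θs → ∑ s ∈ Zf riemannZeta T (2 * T), (mz s : ℝ) * ‖dp M f s.im‖ ^ 2 ≤ 2 * L * (T * N2 M f) := by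
      intro M f hM
      have h1 := (abs_le.1 (hS M hM f).2.2).2
      have h2 : L / (2 * Real.pi) * (T * N2 M f) ≤ L * (T * N2 M f) := by
        have h3 : 0 ≤ T * N2 M f := by unfold N2; positivity
        apply mul_le_mul_of_nonneg_right _ h3
        apply div_le_self hL0.le
        linarith [Real.pi_gt_three]
      linarith
    have s1 := hSSZ N hNz b
    have s2 := hP N X hNp hXge hXle b (gp B (τ * L) X) (fun n hn => gp_supp hn) (fun n => gp_le hKD ha4 hX2 hXa n)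
    have s4 := samp N b hNs
    calc ∑ s ∈ Zf riemannZeta T (2 * T), (mz s : ℝ) * ((c₁ * SS δz T s.im + ‖dp X (gp B (τ * L) X) s.im‖ + c₂) ^ 2 * ‖dp N b s.im‖ ^ 2) ≤
        ∑ s ∈ Zf riemannZeta T (2 * T), (4 * c₁ ^ 2 * ((mz s : ℝ) * (SS δz T s.im ^ 2 * ‖dp N b s.im‖ ^ 2)) +
          4 * ((mz s : ℝ) * (‖dp X (gp B (τ * L) X) s.im‖ ^ (2 * 1) * ‖dp N b s.im‖ ^ 2)) +
          4 * c₂ ^ 2 * ((mz s : ℝ) * ‖dp N b s.im‖ ^ 2)) := by
          refine sum_le_sum fun s _ => ?_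
          have h1 := four_sq (c₁ * SS δz T s.im) ‖dp X (gp B (τ * L) X) s.im‖ 0 c₂
          have h2 : (0 : ℝ) ≤ (mz s : ℝ) * ‖dp N b s.im‖ ^ 2 := by positivity
          have h3 := mul_le_mul_of_nonneg_left h1 h2
          rw [add_zero] at h3
          refine (le_of_eq ?_).trans (h3.trans (le_of_eq ?_))
          · ring
          · ring
      _ = 4 * c₁ ^ 2 * ∑ s ∈ Zf riemannZeta T (2 * T), (mz s : ℝ) * (SS δz T s.im ^ 2 * ‖dp N b s.im‖ ^ 2) +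
          4 * ∑ s ∈ Zf riemannZeta T (2 * T), (mz s : ℝ) * (‖dp X (gp B (τ * L) X) s.im‖ ^ (2 * 1) * ‖dp N b s.im‖ ^ 2) +
          4 * c₂ ^ 2 * ∑ s ∈ Zf riemannZeta T (2 * T), (mz s : ℝ) * ‖dp N b s.im‖ ^ 2 := by
          rw [sum_add_distrib, sum_add_distrib, ← mul_sum, ← mul_sum, ← mul_sum]
      _ ≤ 4 * c₁ ^ 2 * (Cz * L * (T * N2 N b)) + 4 * (CP * L * (T * N2 N b)) + 4 * c₂ ^ 2 * (2 * L * (T * N2 N b)) := by
          gcongr
      _ = _ := by ring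

end

end Pool.Agent.H313.SX
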