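import Pool.Agent.H313.SX.Core
import Pool.Agent.H313.SL.Cont2

set_option autoImplicit false

/-! Extreme joint values of `log |ζ|` and of the remainder term of the counting function, on the line, with arbitrary centre in a large disc. -/

namespace Pool.Agent.H313.SX

open Filter Topology MeasureTheory Complex
open Pool.Agent.Y745.SW (Py)
open Pool.Agent.K4H8.JG (E1)
open Pool.Agent.Q97.UM Pool.Agent.H313.SL

noncomputable section

/-- the level set on the line -/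
def LevTz (z : ℂ) (A T : ℝ) : Set ℝ := {t : ℝ | t ∈ Set.Icc T (2 * T) ∧
  |Real.log ‖zt t‖ - z.re| ≤ A * Real.sqrt (Real.log (Real.log T)) ∧
  |Real.pi * E1 t - z.im| ≤ A * Real.sqrt (Real.log (Real.log T))}

theorem ext_cont {ε : ℝ} (hε : 0 < ε) : ∃ A c₀ : ℝ, 0 < A ∧ 0 < c₀ ∧ ∀ᶠ T : ℝ in atTop, ∀ z : ℂ,
    ‖z‖ ≤ c₀ * Real.sqrt (Real.log T / Real.log (Real.log T)) →
    ∃ G : Set ℝ, MeasurableSet G ∧ G ⊆ LevTz z A T ∧ T ^ (1 - ε) ≤ volume.real G := by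
  have hDPM := Pool.Agent.Q84.UM.t_DPM
  obtain ⟨θa, δa, hθa, hδa, hTHP⟩ := b_THP 2
  obtain ⟨θb, δb, hθb, hδb, hARG⟩ := arg_ms_c
  obtain ⟨δ, hδ⟩ : ∃ δ, δ = min (min δa δb) (1 / 16) := ⟨_, rfl⟩
  have hδ0 : 0 < δ := by rw [hδ]; positivity
  have hδ1 : δ ≤ δa := by rw [hδ]; exact (min_le_left _ _).trans (min_le_left _ _)
  have hδ2 : δ ≤ δb := by rw [hδ]; exact (min_le_left _ _).trans (min_le_right _ _)
  have hδ3 : δ ≤ 1 / 16 := by rw [hδ]; exact min_le_right _ _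
  obtain ⟨CH, hCH, hTHP⟩ := hTHP δ hδ0 hδ1
  obtain ⟨θ, hθ⟩ : ∃ θ, θ = min (min (min θa θb) (δ / 2)) (ε / 2) := ⟨_, rfl⟩
  have hθ0 : 0 < θ := by rw [hθ]; positivity
  have hθ1 : θ ≤ θa := by rw [hθ]; exact (min_le_left _ _).trans ((min_le_left _ _).trans (min_le_left _ _))
  have hθ2 : θ ≤ θb := by rw [hθ]; exact (min_le_left _ _).trans ((min_le_left _ _).trans (min_le_right _ _))
  have hθ4 : θ ≤ δ / 2 := by rw [hθ]; exact (min_le_left _ _).trans (min_le_right _ _)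
  have hθ5 : θ ≤ ε / 2 := by rw [hθ]; exact min_le_right _ _
  obtain ⟨c₀, C, hc₀, hC, hCOH⟩ := res_state hθ0 (by linarith)
  obtain ⟨CM, hCM, hARG⟩ := hARG δ hδ0 hδ2 2 (by norm_num)
  -- the constant `A`
  obtain ⟨A₀, hA₀⟩ : ∃ A₀, A₀ = 1 + 4 * Pool.Agent.Q96.UM.Z0 + 8 * (2 * C + 4 + CH + CM) := ⟨_, rfl⟩
  have hZ0 : 0 ≤ Pool.Agent.Q96.UM.Z0 := tsum_nonneg fun n => by positivity
  have hA1 : 1 ≤ A₀ := by rw [hA₀]; linarith
  have hA2 : 4 * Pool.Agent.Q96.UM.Z0 ≤ A₀ := by rw [hA₀]; linarith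
  have hA3 : 8 * (2 * C + 4 + CH + CM) ≤ A₀ := by rw [hA₀]; linarith
  refine ⟨5 * A₀, c₀, by positivity, hc₀, ?_⟩
  have hpow : Tendsto (fun T : ℝ => T ^ (δ / 2)) atTop atTop := tendsto_rpow_atTop (by positivity)
  have hlp : ∀ᶠ T : ℝ in atTop, Real.log T ^ 4 ≤ T ^ (δ / 2) := by
    have h1 := (isLittleO_log_rpow_atTop (show (0:ℝ) < δ / 8 by positivity)).def (c := 1) one_pos
    filter_upwards [h1, eventually_ge_atTop (1 : ℝ)] with T h1 hT
    rw [one_mul, Real.norm_eq_abs, Real.norm_eq_abs, abs_of_nonneg (Real.log_nonneg hT), abs_of_nonneg (by positivity)] at h1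
    have h2 := pow_le_pow_left₀ (Real.log_nonneg hT) h1 4
    refine h2.trans (le_of_eq ?_)
    rw [← Real.rpow_natCast, ← Real.rpow_mul (by linarith)]
    congr 1
    push_cast
    ring
  have hll : Tendsto (fun T : ℝ => Real.log (Real.log T)) atTop atTop :=
    Real.tendsto_log_atTop.comp Real.tendsto_log_atTop
  have hlit := (Real.isLittleO_log_id_atTop.def (c := 1 / 4) (by norm_num))
  have hlit2 := ((isLittleO_log_rpow_atTop (show (0:ℝ) < 1 / 2 by norm_num)).def (c := 1 / 16) (by norm_num))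
  filter_upwards [hTHP, hARG, hCOH, eventually_ge_atTop (16 : ℝ), hll.eventually_ge_atTop 1, hpow.eventually_ge_atTop 2,
    hlit, hlit2, hlp, (tendsto_rpow_atTop (half_pos hε)).eventually_ge_atTop 4] with T hTHP hARG hCOH hT hS1 hT2 hlit hlit2 hlp hTε z hz
  obtain ⟨N, e, hN, he, hN2, hSqB, hX'⟩ := hCOH z hz
  have hT0 : 0 < T := by linarith
  have hL0 : 0 < Real.log T := Real.log_pos (by linarith)
  set L := Real.log T with hL
  set S := Real.log L with hSd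
  rw [Real.norm_eq_abs, Real.norm_eq_abs, id, abs_of_pos hT0, abs_of_pos hL0] at hlit
  rw [Real.norm_eq_abs, Real.norm_eq_abs, abs_of_pos hL0, abs_of_nonneg (by positivity)] at hlit2
  obtain ⟨Y, hY⟩ : ∃ Y, Y = ⌊T ^ δ⌋₊ := ⟨_, rfl⟩
  have hYle : (Y : ℝ) ≤ T ^ δ := by rw [hY]; exact Nat.floor_le (by positivity)
  have hmono : ∀ {a b : ℝ}, a ≤ b → T ^ a ≤ T ^ b := fun h => Real.rpow_le_rpow_of_exponent_le (by linarith) h
  have hTd : T ^ δ = T ^ (δ / 2) * T ^ (δ / 2) := by rw [← Real.rpow_add hT0]; congr 1; ring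
  have hYge : T ^ (δ / 2) ≤ Y := by
    have h1 : T ^ δ - 1 < Y := by rw [hY]; exact Nat.sub_one_lt_floor _
    have h2 : 2 * T ^ (δ / 2) ≤ T ^ δ := by
      rw [hTd]
      exact mul_le_mul_of_nonneg_right hT2 (by positivity)
    linarith
  have hLY : L ^ 4 ≤ Y := hlp.trans hYge
  have hY1 : 1 ≤ Y := by
    have : (1 : ℝ) ≤ Y := by linarith
    exact_mod_cast this
  have hYT : (Y : ℝ) ≤ T := hYle.trans (by
    calc T ^ δ ≤ T ^ (1 : ℝ) := hmono (by linarith)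
      _ = T := Real.rpow_one T)
  have hYN : ((Y * N : ℕ) : ℝ) ≤ T ^ (1 / 4 : ℝ) := by
    push_cast
    calc (Y : ℝ) * N ≤ T ^ δ * T ^ θ := by gcongr
      _ = T ^ (δ + θ) := by rw [Real.rpow_add hT0]
      _ ≤ T ^ (1 / 4 : ℝ) := hmono (by linarith)
  have hY2N : ((Y ^ 2 * N : ℕ) : ℝ) ≤ T ^ (1 / 4 : ℝ) := by
    push_cast
    calc (Y : ℝ) ^ 2 * N ≤ (T ^ δ) ^ 2 * T ^ θ := by gcongr
      _ = T ^ (δ * 2 + θ) := by rw [← Real.rpow_natCast, ← Real.rpow_mul hT0.le, ← Real.rpow_add hT0]; norm_num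
      _ ≤ T ^ (1 / 4 : ℝ) := hmono (by linarith)
  have hN4 : (N : ℝ) ≤ T ^ (1 / 4 : ℝ) := hN.trans (hmono (by linarith))
  have hS0 : 0 < S := by linarith
  have hSq : 0 < Real.sqrt S := Real.sqrt_pos.2 (by linarith)
  have hSq1 : 1 ≤ Real.sqrt S := Real.one_le_sqrt.2 hS1
  have hSS : Real.sqrt S ^ 2 = S := Real.sq_sqrt (by linarith)
  have hqY := hSqB Y
  obtain ⟨M, hMc, hMpt, hMint⟩ := hARG N (hN.trans (hmono hθ2)) e he (by rw [← hY]; exact hqY)
  have hHI := hTHP N (hN.trans (hmono hθ1)) e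
  rw [← hY] at hHI
  have cB := dp_cont N e
  have cPY := dp_cont Y (pc Y)
  have cQ := dp_cont (Y ^ 2) (cq Y)
  -- the five mean squares
  have g1 : ∫ t in T..(2 * T), ‖dp Y (pc Y) t - z‖ ^ 2 * ‖dp N e t‖ ^ 2 ≤ 2 * T * (C * S * N2 N e) := by
    have h1 := (Pool.Agent.Q84.UM.t_MVL T hT (Y * N) hYN (fun n => cv (pc Y) e n - z * e n)).2
    have h3 := hX' Y hLY hYT
    have e1 : (fun t => ‖dp Y (pc Y) t - z‖ ^ 2 * ‖dp N e t‖ ^ 2) =
        fun t => ‖dp (Y * N) (fun n => cv (pc Y) e n - z * e n) t‖ ^ 2 := by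
      funext t
      rw [dev_P hDPM hY1 he]
    rw [e1]
    refine h1.trans ?_
    gcongr
  have g3 : ∫ t in T..(2 * T), ‖dp (Y ^ 2) (cq Y) t‖ ^ 2 * ‖dp N e t‖ ^ 2 ≤ 2 * T * (2 * N2 N e) := by
    have h1 := (Pool.Agent.Q84.UM.t_MVL T hT (Y ^ 2 * N) hY2N (cv (cq Y) e)).2
    have h3 := hqY (cq Y) (fun n => by unfold cq; split_ifs <;> simp) (fun n hn => by
        unfold cq at hn
        by_contra hc
        rw [if_neg hc] at hn
        exact hn rfl)
    have e1 : (fun t => ‖dp (Y ^ 2) (cq Y) t‖ ^ 2 * ‖dp N e t‖ ^ 2) = fun t => ‖dp (Y ^ 2 * N) (cv (cq Y) e) t‖ ^ 2 := by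
      funext t
      rw [dev_Q hDPM he]
    rw [e1]
    refine h1.trans ?_
    gcongr
  have i4 : IntervalIntegrable (fun t => |Real.log ‖zt t‖ - EP Y t| ^ 2 * ‖dp N e t‖ ^ 2) volume T (2 * T) := by
    refine hHI.1.mono_set ?_
    rw [Set.uIcc_of_le (by linarith), Set.uIcc_of_le (by linarith)]
    exact Set.Icc_subset_Icc (by linarith) (by linarith)
  have g4 : ∫ t in T..(2 * T), |Real.log ‖zt t‖ - EP Y t| ^ 2 * ‖dp N e t‖ ^ 2 ≤ CH * T * N2 N e := by
    refine le_trans ?_ hHI.2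
    refine intervalIntegral.integral_mono_interval (by linarith) (by linarith) (by linarith)
      (Eventually.of_forall fun t => ?_) hHI.1
    show 0 ≤ |Real.log ‖zt t‖ - EP Y t| ^ 2 * ‖dp N e t‖ ^ 2
    positivity
  have g0 := (Pool.Agent.Q84.UM.t_MVL T hT N hN4 e).1
  -- the total
  obtain ⟨g, hg⟩ : ∃ g : ℝ → ℝ, g = fun t => (1 / A₀ ^ 2) * (1 / S * (‖dp Y (pc Y) t - z‖ ^ 2 * ‖dp N e t‖ ^ 2) +
    ‖dp (Y ^ 2) (cq Y) t‖ ^ 2 * ‖dp N e t‖ ^ 2 +
    M t ^ 2 * ‖dp N e t‖ ^ 2 + |Real.log ‖zt t‖ - EP Y t| ^ 2 * ‖dp N e t‖ ^ 2) := ⟨_, rfl⟩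
  have hgi : IntervalIntegrable g volume T (2 * T) := by
    rw [hg]
    refine IntervalIntegrable.const_mul ?_ _
    exact (Continuous.intervalIntegrable (by fun_prop) _ _).add i4
  have hgI : ∫ t in T..(2 * T), g t ≤ 1 / 8 * (T * N2 N e) := by
    rw [hg, intervalIntegral.integral_const_mul,
      intervalIntegral.integral_add (Continuous.intervalIntegrable (by fun_prop) _ _) i4,
      intervalIntegral.integral_add (Continuous.intervalIntegrable (by fun_prop) _ _) (Continuous.intervalIntegrable (by fun_prop) _ _),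
      intervalIntegral.integral_add (Continuous.intervalIntegrable (by fun_prop) _ _) (Continuous.intervalIntegrable (by fun_prop) _ _),
      intervalIntegral.integral_const_mul]
    have h1 : 1 / S * (∫ t in T..(2 * T), ‖dp Y (pc Y) t - z‖ ^ 2 * ‖dp N e t‖ ^ 2) ≤ 2 * C * (T * N2 N e) := by
      refine (mul_le_mul_of_nonneg_left g1 (by positivity)).trans (le_of_eq ?_)
      field_simp
    have hTN : 0 ≤ T * N2 N e := by positivity
    have hA4 : 8 * (2 * C + 4 + CH + CM) ≤ A₀ ^ 2 := hA3.trans (le_self_pow₀ hA1 two_ne_zero)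
    rw [one_div_mul_eq_div, div_le_iff₀ (by positivity)]
    calc _ ≤ 2 * C * (T * N2 N e) + 2 * T * (2 * N2 N e) + CM * (T * N2 N e) + CH * T * N2 N e :=
          add_le_add (add_le_add (add_le_add h1 g3) hMint) g4
      _ = (2 * C + 4 + CH + CM) * (T * N2 N e) := by ring
      _ ≤ (1 / 8 * A₀ ^ 2) * (T * N2 N e) := mul_le_mul_of_nonneg_right (by linarith) hTN
      _ = _ := by ring
  -- the good set
  obtain ⟨G, hG⟩ : ∃ G : Set ℝ, G = {t | (T + L ≤ t ∧ t ≤ 2 * T - L) ∧ ‖dp Y (pc Y) t - z‖ ≤ A₀ * Real.sqrt S ∧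
    ‖dp (Y ^ 2) (cq Y) t‖ ≤ A₀ ∧ M t ≤ A₀ ∧
      |Real.log ‖zt t‖ - EP Y t| ≤ A₀} := ⟨_, rfl⟩
  have hGm : MeasurableSet G := by
    rw [hG]
    have m4 : Measurable (fun t => |Real.log ‖zt t‖ - EP Y t|) :=
      ((Real.measurable_log.comp Pool.Agent.Q247.UM.zt_cont.norm.measurable).sub (Pool.Agent.Q247.UM.EP_cont Y).measurable).abs
    have k1 : MeasurableSet {t : ℝ | ‖dp Y (pc Y) t - z‖ ≤ A₀ * Real.sqrt S} :=
      measurableSet_le (by fun_prop) measurable_const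
    have k3 : MeasurableSet {t : ℝ | ‖dp (Y ^ 2) (cq Y) t‖ ≤ A₀} := measurableSet_le (by fun_prop) measurable_const
    have k4 : MeasurableSet {t : ℝ | M t ≤ A₀} := measurableSet_le hMc.measurable measurable_const
    have k5 : MeasurableSet {t : ℝ | |Real.log ‖zt t‖ - EP Y t| ≤ A₀} := measurableSet_le m4 measurable_const
    exact measurableSet_Icc.inter (k1.inter (k3.inter (k4.inter k5)))
  have hGsub : G ⊆ Set.Icc T (2 * T) := by
    rw [hG]
    rintro t ⟨⟨h1, h2⟩, -⟩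
    exact ⟨by linarith, by linarith⟩
  have hGfin : volume G ≠ ⊤ := ((measure_mono hGsub).trans_lt (by simp)).ne
  obtain ⟨K₀, hK₀⟩ : ∃ K₀, K₀ = T ^ θ * N2 N e := ⟨_, rfl⟩
  have hK₀0 : 0 ≤ K₀ := by rw [hK₀]; positivity
  -- pointwise bound
  have hGpt : ∀ t ∈ G, ‖dp N e t‖ ^ 2 ≤ K₀ := by
    intro t _
    rw [hK₀]
    exact (hDPM.2.2 N e t).1.trans (mul_le_mul_of_nonneg_right hN hN2.le)
  have hg0 : ∀ t, 0 ≤ g t := by
    intro t
    rw [hg]
    positivity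
  have hcase : ∀ (u v f : ℝ), 0 ≤ f → 0 < u → u < v → f ≤ 1 / u ^ 2 * (v ^ 2 * f) := by
    intro u v f hf hu huv
    have h1 : 1 ≤ 1 / u ^ 2 * v ^ 2 := by
      rw [one_div_mul_eq_div, le_div_iff₀ (by positivity), one_mul]
      exact pow_le_pow_left₀ hu.le huv.le 2
    rw [← mul_assoc]
    exact le_mul_of_one_le_left hf h1
  have hpw : ∀ t, T + L ≤ t → t ≤ 2 * T - L → ‖dp N e t‖ ^ 2 ≤ G.indicator (fun _ => K₀) t + g t := by
    intro t ht1 ht2
    have hind : 0 ≤ G.indicator (fun _ => K₀) t := Set.indicator_nonneg (fun _ _ => hK₀0) t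
    have hf : 0 ≤ ‖dp N e t‖ ^ 2 := by positivity
    have hA0 : 0 < A₀ := by linarith
    have hgt : g t = (1 / A₀ ^ 2) * (1 / S * (‖dp Y (pc Y) t - z‖ ^ 2 * ‖dp N e t‖ ^ 2)) +
      (1 / A₀ ^ 2) * (‖dp (Y ^ 2) (cq Y) t‖ ^ 2 * ‖dp N e t‖ ^ 2) + (1 / A₀ ^ 2) * (M t ^ 2 * ‖dp N e t‖ ^ 2) +
      (1 / A₀ ^ 2) * (|Real.log ‖zt t‖ - EP Y t| ^ 2 * ‖dp N e t‖ ^ 2) := by
      rw [hg]
      ring
    have p1 : 0 ≤ (1 / A₀ ^ 2) * (1 / S * (‖dp Y (pc Y) t - z‖ ^ 2 * ‖dp N e t‖ ^ 2)) := by positivity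
    have p3 : 0 ≤ (1 / A₀ ^ 2) * (‖dp (Y ^ 2) (cq Y) t‖ ^ 2 * ‖dp N e t‖ ^ 2) := by positivity
    have p4 : 0 ≤ (1 / A₀ ^ 2) * (M t ^ 2 * ‖dp N e t‖ ^ 2) := by positivity
    have p5 : 0 ≤ (1 / A₀ ^ 2) * (|Real.log ‖zt t‖ - EP Y t| ^ 2 * ‖dp N e t‖ ^ 2) := by positivity
    have hcS : ∀ v : ℝ, A₀ * Real.sqrt S < v → ‖dp N e t‖ ^ 2 ≤ (1 / A₀ ^ 2) * (1 / S * (v ^ 2 * ‖dp N e t‖ ^ 2)) := by
      intro v hv
      refine (hcase (A₀ * Real.sqrt S) v _ hf (by positivity) hv).trans (le_of_eq ?_)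
      rw [mul_pow, hSS]
      field_simp
    by_cases c1 : A₀ * Real.sqrt S < ‖dp Y (pc Y) t - z‖
    · have := hcS _ c1
      linarith
    by_cases c3 : A₀ < ‖dp (Y ^ 2) (cq Y) t‖
    · have := hcase _ _ _ hf hA0 c3
      linarith
    by_cases c4 : A₀ < M t
    · have := hcase _ _ _ hf hA0 c4
      linarith
    by_cases c5 : A₀ < |Real.log ‖zt t‖ - EP Y t|
    · have := hcase _ _ _ hf hA0 c5
      linarith
    rw [not_lt] at c1 c3 c4 c5
    have htG : t ∈ G := by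
      rw [hG]
      exact ⟨⟨ht1, ht2⟩, c1, c3, c4, c5⟩
    rw [Set.indicator_of_mem htG]
    have := hGpt t htG
    have := hg0 t
    linarith
  -- integration
  have hab : T + L ≤ 2 * T - L := by linarith
  have hgi' : IntervalIntegrable g volume (T + L) (2 * T - L) := by
    refine hgi.mono_set ?_
    rw [Set.uIcc_of_le hab, Set.uIcc_of_le (by linarith)]
    exact Set.Icc_subset_Icc (by linarith) (by linarith)
  have hmain := vol_ge hab hK₀0 (f := fun t => ‖dp N e t‖ ^ 2) (by fun_prop) hGm hGfin hgi' hpw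
  have hg1 : ∫ t in (T + L)..(2 * T - L), g t ≤ 1 / 8 * (T * N2 N e) := by
    refine le_trans ?_ hgI
    exact intervalIntegral.integral_mono_interval (by linarith) (by linarith) (by linarith)
      (Eventually.of_forall fun t => hg0 t) hgi
  -- the edges
  have hBle : ∀ t : ℝ, ‖dp N e t‖ ^ 2 ≤ T ^ (1 / 4 : ℝ) * N2 N e := fun t =>
    (hDPM.2.2 N e t).1.trans (mul_le_mul_of_nonneg_right hN4 hN2.le)
  have hedge : ∀ x : ℝ, ∫ t in x..(x + L), ‖dp N e t‖ ^ 2 ≤ 1 / 16 * (T * N2 N e) := by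
    intro x
    have h1 : ∫ t in x..(x + L), ‖dp N e t‖ ^ 2 ≤ ∫ _ in x..(x + L), T ^ (1 / 4 : ℝ) * N2 N e :=
      intervalIntegral.integral_mono_on (by linarith) (Continuous.intervalIntegrable (by fun_prop) _ _)
        (by simp) fun t _ => hBle t
    rw [intervalIntegral.integral_const, smul_eq_mul, add_sub_cancel_left] at h1
    refine h1.trans ?_
    have h2 : L * T ^ (1 / 4 : ℝ) ≤ 1 / 16 * T := by
      calc L * T ^ (1 / 4 : ℝ) ≤ (1 / 16 * T ^ (1 / 2 : ℝ)) * T ^ (1 / 2 : ℝ) :=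
            mul_le_mul hlit2 (hmono (by norm_num)) (by positivity) (by positivity)
        _ = 1 / 16 * T := by
            rw [mul_assoc, ← Real.rpow_add hT0]
            norm_num
    calc L * (T ^ (1 / 4 : ℝ) * N2 N e) = L * T ^ (1 / 4 : ℝ) * N2 N e := by ring
      _ ≤ 1 / 16 * T * N2 N e := mul_le_mul_of_nonneg_right h2 hN2.le
      _ = _ := by ring
  have hsplit : ∫ t in T..(2 * T), ‖dp N e t‖ ^ 2 = (∫ t in T..(T + L), ‖dp N e t‖ ^ 2) +
      (∫ t in (T + L)..(2 * T - L), ‖dp N e t‖ ^ 2) + ∫ t in (2 * T - L)..(2 * T), ‖dp N e t‖ ^ 2 := by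
    rw [intervalIntegral.integral_add_adjacent_intervals (Continuous.intervalIntegrable (by fun_prop) _ _)
      (Continuous.intervalIntegrable (by fun_prop) _ _),
      intervalIntegral.integral_add_adjacent_intervals (Continuous.intervalIntegrable (by fun_prop) _ _)
      (Continuous.intervalIntegrable (by fun_prop) _ _)]
  have he1 := hedge T
  have he2 := hedge (2 * T - L)
  rw [sub_add_cancel] at he2
  have hvol : T / 4 * N2 N e ≤ K₀ * volume.real G := by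
    have hmain' : ∫ t in (T + L)..(2 * T - L), ‖dp N e t‖ ^ 2 ≤ K₀ * volume.real G + ∫ t in (T + L)..(2 * T - L), g t := hmain
    linarith
  -- the good set is contained in the level set
  have hsub : G ⊆ LevTz z (5 * A₀) T := by
    intro t ht
    have htI := hGsub ht
    rw [hG] at ht
    obtain ⟨⟨ht1, ht2⟩, b1, b3, b4, b5⟩ := ht
    have hA0 : 0 < A₀ := by linarith
    have hAS : A₀ ≤ A₀ * Real.sqrt S := le_mul_of_one_le_right (by linarith) hSq1
    refine ⟨htI, ?_, ?_⟩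
    · have h1 := Pool.Agent.Q151.UM.EP_lin Y t
      have h1' : |EP Y t - (dp Y (pc Y) t).re - 1 / 2 * (dp (Y ^ 2) (cq Y) t).re| ≤ 2 * Pool.Agent.Q96.UM.Z0 := h1
      have h2 : |(dp Y (pc Y) t).re - z.re| ≤ A₀ * Real.sqrt S := by
        have : (dp Y (pc Y) t).re - z.re = (dp Y (pc Y) t - z).re := by simp
        rw [this]
        exact (Complex.abs_re_le_norm _).trans b1
      have h3 : |(dp (Y ^ 2) (cq Y) t).re| ≤ A₀ := (Complex.abs_re_le_norm _).trans b3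
      rw [abs_le] at h1' h2 h3 b5 ⊢
      constructor <;> linarith [h1'.1, h1'.2, h2.1, h2.2, h3.1, h3.2, b5.1, b5.2]
    · have h1 := (hMpt t ht1 ht2).trans b4
      rw [Py_eq, ← hY] at h1
      have h2 : |(dp Y (pc Y) t).im - z.im| ≤ A₀ * Real.sqrt S := by
        have : (dp Y (pc Y) t).im - z.im = (dp Y (pc Y) t - z).im := by simp
        rw [this]
        exact (Complex.abs_im_le_norm _).trans b1
      have e1 : Real.pi * E1 t - z.im = Real.pi * (E1 t - (dp Y (pc Y) t).im / Real.pi) +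
          ((dp Y (pc Y) t).im - z.im) := by
        have := Real.pi_ne_zero
        field_simp
        ring
      rw [e1]
      refine (abs_add_le _ _).trans ?_
      rw [abs_mul, abs_of_pos Real.pi_pos]
      have h3 : Real.pi * |E1 t - (dp Y (pc Y) t).im / Real.pi| ≤ 4 * A₀ :=
        mul_le_mul Real.pi_lt_four.le h1 (abs_nonneg _) (by norm_num)
      linarith
  refine ⟨G, hGm, hsub, ?_⟩
  -- conclusion
  rw [hK₀] at hvol
  have hTθ : 0 < T ^ θ := Real.rpow_pos_of_pos hT0 θ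
  have h4 : T / 4 ≤ T ^ θ * volume.real G := by
    have e1 : T ^ θ * N2 N e * volume.real G = (T ^ θ * volume.real G) * N2 N e := by ring
    rw [e1] at hvol
    exact le_of_mul_le_mul_right hvol hN2
  have h5 : T ^ (1 - ε) * T ^ θ * 4 ≤ T := by
    calc T ^ (1 - ε) * T ^ θ * 4 ≤ T ^ (1 - ε) * T ^ θ * T ^ (ε / 2) := mul_le_mul_of_nonneg_left hTε (by positivity)
      _ = T ^ (1 - ε + θ + ε / 2) := by rw [← Real.rpow_add hT0, ← Real.rpow_add hT0]
      _ ≤ T ^ (1 : ℝ) := hmono (by linarith)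
      _ = T := Real.rpow_one T
  have h6 : T ^ θ * T ^ (1 - ε) ≤ T ^ θ * volume.real G := by
    have e1 : T ^ θ * T ^ (1 - ε) = (T ^ (1 - ε) * T ^ θ * 4) / 4 := by ring
    rw [e1]
    linarith
  exact le_of_mul_le_mul_left h6 hTθ

end

end Pool.Agent.H313.SX
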