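import Pool.Agent.H313.SX.Res

set_option autoImplicit false

/-! Resonating at the zeros: a core theorem for arbitrary centres in a large disc (after H313.SL.Core). -/

namespace Pool.Agent.H313.SX

open Filter Topology MeasureTheory Complex
open Pool.Agent.Q97.UM Pool.Agent.H313.SL

noncomputable section

open Classical in
/-- the zeros of the test set with the required local data -/
def Gdz (z : ℂ) (A δ : ℝ) (D : ℝ → ℝ → ℂ → ℝ) (Z : ℝ → Finset ℂ) (T : ℝ) : Finset ℂ := (Z T).filter (fun s =>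
  |EP ⌊T ^ δ⌋₊ s.im - z.re| ≤ A * Real.sqrt (Real.log (Real.log T)) ∧
  |(dp ⌊T ^ δ⌋₊ (pc ⌊T ^ δ⌋₊) s.im).im - z.im| ≤ A * Real.sqrt (Real.log (Real.log T)) ∧
  |LM T s.im - EP ⌊T ^ δ⌋₊ s.im| ≤ A ∧ |D δ T s| ≤ A)

open Classical in
theorem ext_core (hCLW : S_CLW) (hDPM : S_DPM) (hS : S_SAMP) {ε : ℝ} (hε : 0 < ε) (Z : ℝ → Finset ℂ) (w : ℝ → ℂ → ℝ)
    (hZs : ∀ T, Z T ⊆ H370.Zf riemannZeta T (2 * T)) (hw0 : ∀ T, ∀ s ∈ Z T, 0 ≤ w T s)
    (hw : ∀ᶠ T : ℝ in atTop, ∀ s ∈ Z T, w T s ≤ mz s)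
    (hlow : ∃ θ c : ℝ, 0 < θ ∧ 0 < c ∧ ∀ᶠ T : ℝ in atTop, ∀ N : ℕ, (N : ℝ) ≤ T ^ θ → ∀ b : ℕ → ℂ,
      c * Real.log T * (T * N2 N b) ≤ ∑ s ∈ Z T, w T s * ‖dp N b s.im‖ ^ 2)
    (D : ℝ → ℝ → ℂ → ℝ) (hD : ∃ θ δ₀ : ℝ, 0 < θ ∧ 0 < δ₀ ∧ ∀ δ : ℝ, 0 < δ → δ ≤ δ₀ → ∀ C' : ℝ, 0 ≤ C' → ∃ C : ℝ, 0 ≤ C ∧ ∀ᶠ T : ℝ in atTop,
      ∀ N : ℕ, (N : ℝ) ≤ T ^ θ → ∀ b : ℕ → ℂ, (∀ n, b n ≠ 0 → 1 ≤ n ∧ n ≤ N) → SqB C' ⌊T ^ δ⌋₊ N b → ∑ s ∈ Z T, w T s * (D δ T s ^ 2 * ‖dp N b s.im‖ ^ 2) ≤ C * Real.log T * (T * N2 N b)) :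
    ∃ A c₀ δ : ℝ, 0 < A ∧ 0 < c₀ ∧ 0 < δ ∧ ∀ᶠ T : ℝ in atTop, ∀ z : ℂ,
      ‖z‖ ≤ c₀ * Real.sqrt (Real.log T / Real.log (Real.log T)) →
      T ^ (1 - ε) ≤ ∑ s ∈ Gdz z A δ D Z T, w T s := by
  obtain ⟨θa, c, hθa, hc, hlow⟩ := hlow
  obtain ⟨θb, δb, hθb, hδb, hD⟩ := hD
  obtain ⟨θc, δc, hθc, hδc, hCLW⟩ := hCLW
  obtain ⟨θs, hθs, hθs1, hS⟩ := hS 1 one_pos
  obtain ⟨δ, hδ⟩ : ∃ δ, δ = min (min δb δc) (min (θs / 4) (1 / 2)) := ⟨_, rfl⟩
  have hδ0 : 0 < δ := by rw [hδ]; positivity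
  have hδ1 : δ ≤ δb := by rw [hδ]; exact (min_le_left _ _).trans (min_le_left _ _)
  have hδ2 : δ ≤ δc := by rw [hδ]; exact (min_le_left _ _).trans (min_le_right _ _)
  have hδ3 : δ ≤ θs / 4 := by rw [hδ]; exact (min_le_right _ _).trans (min_le_left _ _)
  have hδ4 : δ ≤ 1 / 2 := by rw [hδ]; exact (min_le_right _ _).trans (min_le_right _ _)
  obtain ⟨CW, hCW, hCLW⟩ := hCLW δ hδ0 hδ2
  obtain ⟨θ, hθ⟩ : ∃ θ, θ = min (min (min θa θb) (min θc (δ / 2))) (min ε 1) := ⟨_, rfl⟩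
  have hθ0 : 0 < θ := by rw [hθ]; positivity
  have hθ1 : θ ≤ θa := by rw [hθ]; exact (min_le_left _ _).trans ((min_le_left _ _).trans (min_le_left _ _))
  have hθ2 : θ ≤ θb := by rw [hθ]; exact (min_le_left _ _).trans ((min_le_left _ _).trans (min_le_right _ _))
  have hθ3 : θ ≤ θc := by rw [hθ]; exact (min_le_left _ _).trans ((min_le_right _ _).trans (min_le_left _ _))
  have hθ4 : θ ≤ δ / 2 := by rw [hθ]; exact (min_le_left _ _).trans ((min_le_right _ _).trans (min_le_right _ _))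
  have hθ5 : θ ≤ ε := by rw [hθ]; exact (min_le_right _ _).trans (min_le_left _ _)
  have hθ6 : θ ≤ 1 := by rw [hθ]; exact (min_le_right _ _).trans (min_le_right _ _)
  obtain ⟨c₀, C, hc₀, hC, hRES⟩ := res_state hθ0 hθ6
  obtain ⟨CD, hCD, hD⟩ := hD δ hδ0 hδ1 2 (by norm_num)
  -- the constant `A`
  obtain ⟨A₀, hA₀⟩ : ∃ A₀, A₀ = 1 + 4 * Pool.Agent.Q96.UM.Z0 + 2 * (2 * C + 4 + CD + CW) / c := ⟨_, rfl⟩
  have hZ0 : 0 ≤ Pool.Agent.Q96.UM.Z0 := tsum_nonneg fun n => by positivity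
  have hA1 : 1 ≤ A₀ := by
    rw [hA₀]
    have : 0 ≤ 2 * (2 * C + 4 + CD + CW) / c := by positivity
    linarith
  have hA2 : 4 * Pool.Agent.Q96.UM.Z0 ≤ A₀ := by
    rw [hA₀]
    have : 0 ≤ 2 * (2 * C + 4 + CD + CW) / c := by positivity
    linarith
  have hA3 : (2 * C + 4 + CD + CW) ≤ c / 2 * A₀ := by
    have h1 : 2 * (2 * C + 4 + CD + CW) / c ≤ A₀ := by rw [hA₀]; linarith
    rw [div_le_iff₀ hc] at h1
    linarith
  refine ⟨2 * A₀, c₀, δ, by positivity, hc₀, hδ0, ?_⟩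
  have hll : Tendsto (fun T : ℝ => Real.log (Real.log T)) atTop atTop :=
    Real.tendsto_log_atTop.comp Real.tendsto_log_atTop
  have hpow : Tendsto (fun T : ℝ => T ^ (δ / 2)) atTop atTop := tendsto_rpow_atTop (by positivity)
  have hlp : ∀ᶠ T : ℝ in atTop, Real.log T ^ 4 ≤ T ^ (δ / 2) := by
    have h1 := (isLittleO_log_rpow_atTop (show (0:ℝ) < δ / 8 by positivity)).def (c := 1) one_pos
    filter_upwards [h1, eventually_ge_atTop (1 : ℝ)] with T h1 hT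
    rw [one_mul, Real.norm_eq_abs, Real.norm_eq_abs, abs_of_nonneg (Real.log_nonneg hT), abs_of_nonneg (by positivity)] at h1
    have h2 := pow_le_pow_left₀ (Real.log_nonneg hT) h1 4
    refine h2.trans (le_of_eq ?_)
    rw [← Real.rpow_natCast, ← Real.rpow_mul (by linarith)]
    congr 1
    push_cast
    ring
  filter_upwards [hlow, hD, hCLW, hS, hRES, eventually_ge_atTop (3 : ℝ), hll.eventually_ge_atTop 1,
    hpow.eventually_ge_atTop 2, hw, hlp, Real.tendsto_log_atTop.eventually_ge_atTop (2 / c)] with T hlow hD hCLW hS hRES hT hS1 hT2 hw hlp hLc z hz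
  obtain ⟨N, e, hN, he, hN2, hSqB, hX'⟩ := hRES z hz
  have hT0 : 0 < T := by linarith
  have hL0 : 0 < Real.log T := Real.log_pos (by linarith)
  set L := Real.log T with hL
  set S := Real.log L with hSd
  obtain ⟨Y, hY⟩ : ∃ Y, Y = ⌊T ^ δ⌋₊ := ⟨_, rfl⟩
  have hYle : (Y : ℝ) ≤ T ^ δ := by rw [hY]; exact Nat.floor_le (by positivity)
  have hmono : ∀ {a b : ℝ}, a ≤ b → T ^ a ≤ T ^ b := fun h => Real.rpow_le_rpow_of_exponent_le (by linarith) h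
  have hTd : T ^ δ = T ^ (δ / 2) * T ^ (δ / 2) := by rw [← Real.rpow_add hT0]; congr 1; ring
  have hYge : T ^ (δ / 2) ≤ Y := by
    have h1 : T ^ δ - 1 < Y := by rw [hY]; exact Nat.sub_one_lt_floor _
    have h2 : 2 * T ^ (δ / 2) ≤ T ^ δ := by
      rw [hTd]
      exact mul_le_mul_of_nonneg_right hT2 (by positivity)
    linarith
  have hLY : L ^ 4 ≤ Y := hlp.trans hYge
  have hY1 : 1 ≤ Y := by
    have : (1 : ℝ) ≤ Y := by linarith
    exact_mod_cast this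
  have hYT : (Y : ℝ) ≤ T := hYle.trans (by
    calc T ^ δ ≤ T ^ (1 : ℝ) := hmono (by linarith)
      _ = T := Real.rpow_one T)
  -- lengths
  have hYN : ((Y * N : ℕ) : ℝ) ≤ T ^ θs := by
    push_cast
    calc (Y : ℝ) * N ≤ T ^ δ * T ^ θ := by gcongr
      _ = T ^ (δ + θ) := by rw [Real.rpow_add hT0]
      _ ≤ T ^ θs := hmono (by linarith)
  have hY2N : ((Y ^ 2 * N : ℕ) : ℝ) ≤ T ^ θs := by
    push_cast
    calc (Y : ℝ) ^ 2 * N ≤ (T ^ δ) ^ 2 * T ^ θ := by gcongr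
      _ = T ^ (δ * 2 + θ) := by rw [← Real.rpow_natCast, ← Real.rpow_mul hT0.le, ← Real.rpow_add hT0]; norm_num
      _ ≤ T ^ θs := hmono (by linarith)
  set M := L * (T * N2 N e) with hM
  have hM0 : 0 < M := by positivity
  set F := H370.Zf riemannZeta T (2 * T) with hF
  have hm : ∀ s ∈ F, (0 : ℝ) ≤ mz s := fun s _ => Nat.cast_nonneg _
  have hq : ∀ s : ℂ, 0 ≤ ‖dp N e s.im‖ ^ 2 := fun s => by positivity
  have hpi := Real.pi_gt_three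
  -- S_SAMP from above
  have samp : ∀ (K : ℕ) (f : ℕ → ℂ), (K : ℝ) ≤ T ^ θs → ∑ s ∈ F, (mz s : ℝ) * ‖dp K f s.im‖ ^ 2 ≤ 2 * L * (T * N2 K f) := by
    intro K f hK
    have h1 := (abs_le.1 (hS K hK f).2.2).2
    have h2 : L / (2 * Real.pi) * (T * N2 K f) ≤ L * (T * N2 K f) := by
      have h3 : 0 ≤ T * N2 K f := by unfold N2; positivity
      apply mul_le_mul_of_nonneg_right _ h3
      apply div_le_self hL0.le
      linarith
    linarith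
  have hSq : 0 < Real.sqrt S := Real.sqrt_pos.2 (by linarith)
  have hSq1 : 1 ≤ Real.sqrt S := Real.one_le_sqrt.2 hS1
  have hSS : Real.sqrt S ^ 2 = S := Real.sq_sqrt (by linarith)
  -- bad zeros
  have bad1 : ∑ s ∈ (Z T).filter (fun s => A₀ * Real.sqrt S < |‖dp Y (pc Y) s.im - z‖|), w T s * ‖dp N e s.im‖ ^ 2 ≤
        2 * C * M / A₀ ^ 2 := by
    have h1 := cheb_Z (hZs T) (fun s => (mz s : ℝ)) (fun s => w T s) (fun s => ‖dp N e s.im‖ ^ 2)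
      (fun s => ‖dp Y (pc Y) s.im - z‖) (hw0 T) hw hm hq (A₀ * Real.sqrt S) (2 * L * (T * (C * S * N2 N e)))
      (by positivity) (by
        have h2 := samp (Y * N) (fun n => cv (pc Y) e n - z * e n) hYN
        have h3 := hX' Y hLY hYT
        calc ∑ s ∈ F, (mz s : ℝ) * (‖dp Y (pc Y) s.im - z‖ ^ 2 * ‖dp N e s.im‖ ^ 2) =
              ∑ s ∈ F, (mz s : ℝ) * ‖dp (Y * N) (fun n => cv (pc Y) e n - z * e n) s.im‖ ^ 2 := by
              refine Finset.sum_congr rfl fun s _ => ?_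
              rw [dev_P hDPM hY1 he]
          _ ≤ _ := h2
          _ ≤ _ := by gcongr)
    refine h1.trans (le_of_eq ?_)
    rw [mul_pow, hSS, hM]
    have : S ≠ 0 := by linarith
    field_simp
  have bad3 := cheb_Z (hZs T) (fun s => (mz s : ℝ)) (fun s => w T s) (fun s => ‖dp N e s.im‖ ^ 2)
    (fun s => ‖dp (Y ^ 2) (cq Y) s.im‖) (hw0 T) hw hm hq A₀ (2 * L * (T * (2 * N2 N e)))
    (by linarith) (by
      have h2 := samp (Y ^ 2 * N) (cv (cq Y) e) hY2N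
      have h3 := hSqB Y (cq Y) (fun n => by unfold cq; split_ifs <;> simp) (fun n hn => by
        unfold cq at hn
        by_contra hc
        rw [if_neg hc] at hn
        exact hn rfl)
      calc ∑ s ∈ F, (mz s : ℝ) * (‖dp (Y ^ 2) (cq Y) s.im‖ ^ 2 * ‖dp N e s.im‖ ^ 2) =
            ∑ s ∈ F, (mz s : ℝ) * ‖dp (Y ^ 2 * N) (cv (cq Y) e) s.im‖ ^ 2 := by
            refine Finset.sum_congr rfl fun s _ => ?_
            rw [dev_Q hDPM he]
        _ ≤ _ := h2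
        _ ≤ _ := by gcongr)
  have bad4 := cheb_Z (hZs T) (fun s => (mz s : ℝ)) (fun s => w T s) (fun s => ‖dp N e s.im‖ ^ 2)
    (fun s => LM T s.im - EP Y s.im) (hw0 T) hw hm hq A₀ (CW * M)
    (by linarith) (by
      have h2 := hCLW N (hN.trans (hmono hθ3)) e 0 (by simp)
      simp only [add_zero] at h2
      rw [hY, hM]
      exact h2.trans (le_of_eq (by ring)))
  have bad5 := cheb_Z' (fun s => w T s) (fun s => ‖dp N e s.im‖ ^ 2) (fun s => D δ T s) (hw0 T) hq A₀ (CD * M) (by linarith) (by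
      have h2 := hD N (hN.trans (hmono hθ2)) e he (by rw [← hY]; exact hSqB Y)
      rw [hM]
      exact h2.trans (le_of_eq (by ring)))
  have hlowe := hlow N (hN.trans (hmono hθ1)) e
  set q : ℂ → ℝ := fun s => w T s * ‖dp N e s.im‖ ^ 2 with hqd
  -- the good zeros
  obtain ⟨G, hG⟩ : ∃ G, G = (Z T).filter (fun s => ‖dp Y (pc Y) s.im - z‖ ≤ A₀ * Real.sqrt S ∧
      ‖dp (Y ^ 2) (cq Y) s.im‖ ≤ A₀ ∧ |LM T s.im - EP Y s.im| ≤ A₀ ∧ |D δ T s| ≤ A₀) := ⟨_, rfl⟩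
  have hqZ : ∀ s ∈ Z T, 0 ≤ q s := fun s hs => mul_nonneg (hw0 T s hs) (by positivity)
  have hsplit : ∑ s ∈ Z T, q s ≤ ∑ s ∈ G, q s +
      (∑ s ∈ (Z T).filter (fun s => A₀ * Real.sqrt S < |‖dp Y (pc Y) s.im - z‖|), q s +
      (∑ s ∈ (Z T).filter (fun _ => False), q s +
      (∑ s ∈ (Z T).filter (fun s => A₀ < |‖dp (Y ^ 2) (cq Y) s.im‖|), q s +
      (∑ s ∈ (Z T).filter (fun s => A₀ < |LM T s.im - EP Y s.im|), q s +
      ∑ s ∈ (Z T).filter (fun s => A₀ < |D δ T s|), q s)))) := by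
    rw [hG]
    refine split5 (Z T) q hqZ _ _ _ _ _ _ fun s => ?_
    by_cases g1 : A₀ * Real.sqrt S < |‖dp Y (pc Y) s.im - z‖|
    · exact Or.inr (Or.inl g1)
    by_cases g3 : A₀ < |‖dp (Y ^ 2) (cq Y) s.im‖|
    · exact Or.inr (Or.inr (Or.inr (Or.inl g3)))
    by_cases g4 : A₀ < |LM T s.im - EP Y s.im|
    · exact Or.inr (Or.inr (Or.inr (Or.inr (Or.inl g4))))
    by_cases g5 : A₀ < |D δ T s|
    · exact Or.inr (Or.inr (Or.inr (Or.inr (Or.inr g5))))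
    rw [abs_norm, not_lt] at g1 g3
    rw [not_lt] at g4 g5
    exact Or.inl ⟨g1, g3, g4, g5⟩
  rw [Finset.filter_false, Finset.sum_empty, zero_add] at hsplit
  -- total mass of the bad zeros
  have hbad : 2 * C * M / A₀ ^ 2 + (2 * L * (T * (2 * N2 N e)) / A₀ ^ 2 + (CW * M / A₀ ^ 2 + CD * M / A₀ ^ 2)) ≤
      c / 2 * M := by
    have e1 : 2 * L * (T * (2 * N2 N e)) = 4 * M := by rw [hM]; ring
    rw [e1]
    have e2 : 2 * C * M / A₀ ^ 2 + (4 * M / A₀ ^ 2 + (CW * M / A₀ ^ 2 + CD * M / A₀ ^ 2)) =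
        (2 * C + 4 + CD + CW) * M / A₀ ^ 2 := by ring
    rw [e2, div_le_iff₀ (by positivity)]
    have h1 : (2 * C + 4 + CD + CW) ≤ c / 2 * A₀ ^ 2 := by
      refine hA3.trans ?_
      have : A₀ ≤ A₀ ^ 2 := le_self_pow₀ hA1 two_ne_zero
      gcongr
    calc (2 * C + 4 + CD + CW) * M ≤ (c / 2 * A₀ ^ 2) * M := by gcongr
      _ = c / 2 * M * A₀ ^ 2 := by ring
  have hGmass : c / 2 * M ≤ ∑ s ∈ G, q s := by
    have e1 : c * L * (T * N2 N e) = c * M := by rw [hM]; ring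
    rw [e1] at hlowe
    linarith
  -- pointwise bound
  have hGpt : ∀ s ∈ G, ‖dp N e s.im‖ ^ 2 ≤ T ^ θ * N2 N e := fun s _ =>
    (hDPM.2.2 N e s.im).1.trans (mul_le_mul_of_nonneg_right hN hN2.le)
  -- the good zeros have the required local data
  have hsub : G ⊆ Gdz z (2 * A₀) δ D Z T := by
    intro s hs
    rw [hG, Finset.mem_filter] at hs
    obtain ⟨hs0, g1, g3, g4, g5⟩ := hs
    unfold Gdz
    rw [Finset.mem_filter, ← hY]
    have g1i : |(dp Y (pc Y) s.im).im - z.im| ≤ A₀ * Real.sqrt S := by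
      have : (dp Y (pc Y) s.im).im - z.im = (dp Y (pc Y) s.im - z).im := by simp
      rw [this]
      exact (Complex.abs_im_le_norm _).trans g1
    have hAS : 0 ≤ A₀ * Real.sqrt S := by positivity
    refine ⟨hs0, ?_, by linarith, by linarith, by linarith⟩
    have h1 := Pool.Agent.Q151.UM.EP_lin Y s.im
    have h1' : |EP Y s.im - (dp Y (pc Y) s.im).re - 1 / 2 * (dp (Y ^ 2) (cq Y) s.im).re| ≤ 2 * Pool.Agent.Q96.UM.Z0 := h1
    have h2 : |(dp Y (pc Y) s.im).re - z.re| ≤ A₀ * Real.sqrt S := by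
      have : (dp Y (pc Y) s.im).re - z.re = (dp Y (pc Y) s.im - z).re := by simp
      rw [this]
      exact (Complex.abs_re_le_norm _).trans g1
    have h3 : |(dp (Y ^ 2) (cq Y) s.im).re| ≤ A₀ := (Complex.abs_re_le_norm _).trans g3
    rw [abs_le] at h1' h2 h3 ⊢
    have h4 : A₀ ≤ A₀ * Real.sqrt S := le_mul_of_one_le_right (by linarith) hSq1
    constructor <;> linarith [h1'.1, h1'.2, h2.1, h2.2, h3.1, h3.2]
  -- conclusion
  have h1 : ∑ s ∈ G, q s ≤ (∑ s ∈ G, w T s) * (T ^ θ * N2 N e) := by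
    rw [Finset.sum_mul]
    refine Finset.sum_le_sum fun s hs => ?_
    have hsZ : s ∈ Z T := by
      rw [hG, Finset.mem_filter] at hs
      exact hs.1
    exact mul_le_mul_of_nonneg_left (hGpt s hs) (hw0 T s hsZ)
  have h2 : ∑ s ∈ G, w T s ≤ ∑ s ∈ Gdz z (2 * A₀) δ D Z T, w T s := by
    refine Finset.sum_le_sum_of_subset_of_nonneg hsub fun s hs _ => ?_
    unfold Gdz at hs
    exact hw0 T s (Finset.mem_filter.1 hs).1
  refine le_trans ?_ h2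
  have h3 : c / 2 * M ≤ (∑ s ∈ G, w T s) * (T ^ θ * N2 N e) := hGmass.trans h1
  have hTθ : 0 < T ^ θ := Real.rpow_pos_of_pos hT0 θ
  have h4 : c / 2 * L * T ≤ (∑ s ∈ G, w T s) * T ^ θ := by
    have e1 : c / 2 * M = (c / 2 * L * T) * N2 N e := by rw [hM]; ring
    have e2 : (∑ s ∈ G, w T s) * (T ^ θ * N2 N e) = ((∑ s ∈ G, w T s) * T ^ θ) * N2 N e := by ring
    rw [e1, e2] at h3
    exact le_of_mul_le_mul_right h3 hN2
  have h5 : 1 ≤ c / 2 * L := by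
    rw [div_le_iff₀ hc] at hLc
    linarith
  have h6 : T ≤ c / 2 * L * T := le_mul_of_one_le_left hT0.le h5
  have h7 : T ^ (1 - ε) * T ^ θ ≤ T := by
    rw [← Real.rpow_add hT0]
    calc T ^ (1 - ε + θ) ≤ T ^ (1 : ℝ) := hmono (by linarith)
      _ = T := Real.rpow_one T
  have h8 : T ^ (1 - ε) * T ^ θ ≤ (∑ s ∈ G, w T s) * T ^ θ := by linarith
  exact le_of_mul_le_mul_right h8 hTθ

end

end Pool.Agent.H313.SX
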