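import Pool.Agent.H313.SX.Core
import Pool.Agent.H313.SL.Gaps

set_option autoImplicit false

/-! Small and large gaps at extreme joint values. -/

namespace Pool.Agent.H313.SX

open Filter Topology MeasureTheory Complex
open Pool.Agent.Q97.UM Pool.Agent.H313.SL
open Pool.Agent.K4H8.JG (E1)

noncomputable section

/-- the level set around `z` -/
def Levz (z : ℂ) (A T : ℝ) (s : ℂ) : Prop :=
  |LM T s.im - z.re| ≤ A * Real.sqrt (Real.log (Real.log T)) ∧
  |Real.pi * E1 s.im - z.im| ≤ A * Real.sqrt (Real.log (Real.log T))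

lemma Levz_of {z : ℂ} {A₁ δ η T : ℝ} {Z : ℝ → Finset ℂ} (hA : 0 < A₁) (hT : 0 ≤ T) (hAT : A₁ < T ^ (1 / 4 : ℝ))
    (hS1 : 1 ≤ Real.log (Real.log T)) {s : ℂ} (hs : s ∈ Gdz z A₁ δ (fun δ T s => DA δ T s + SS η T s.im) Z T) :
    s ∈ Z T ∧ Levz z (5 * A₁) T s ∧ SS η T s.im ≤ A₁ := by
  classical
  have hSq1 : 1 ≤ Real.sqrt (Real.log (Real.log T)) := Real.one_le_sqrt.2 hS1
  unfold Gdz at hs
  rw [Finset.mem_filter] at hs
  obtain ⟨g0, g1, g2, g3, g4⟩ := hs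
  have h0 := DA_nonneg (δ := δ) hT s
  have h0' := SS_nonneg η T s.im
  have h4 : DA δ T s + SS η T s.im ≤ A₁ := (le_abs_self _).trans g4
  have hDA : |DA δ T s| ≤ A₁ := by
    rw [abs_of_nonneg h0]
    linarith
  have h5 := arg_close hAT hDA
  have hAs : A₁ ≤ A₁ * Real.sqrt (Real.log (Real.log T)) := le_mul_of_one_le_right hA.le hSq1
  refine ⟨g0, ⟨?_, ?_⟩, by linarith⟩
  · have e1 : LM T s.im - z.re = (LM T s.im - EP ⌊T ^ δ⌋₊ s.im) + (EP ⌊T ^ δ⌋₊ s.im - z.re) := by ring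
    rw [e1]
    refine (abs_add_le _ _).trans ?_
    linarith
  · have e1 : Real.pi * E1 s.im - z.im =
        (Real.pi * E1 s.im - (dp ⌊T ^ δ⌋₊ (pc ⌊T ^ δ⌋₊) s.im).im) +
        ((dp ⌊T ^ δ⌋₊ (pc ⌊T ^ δ⌋₊) s.im).im - z.im) := by ring
    rw [e1]
    refine (abs_add_le _ _).trans ?_
    linarith

open Classical in
/-- small and large gaps at every point of a large disc -/
theorem gaps_ext : ∃ η : ℝ, 0 < η ∧ η ≤ 1 / 2 ∧ ∀ ε : ℝ, 0 < ε → ∃ A c : ℝ, 0 < A ∧ 0 < c ∧ ∀ᶠ T : ℝ in atTop, ∀ z : ℂ,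
      ‖z‖ ≤ c * Real.sqrt (Real.log T / Real.log (Real.log T)) →
      T ^ (1 - ε) ≤ (((Zcl η T).filter (fun s => Levz z A T s)).card : ℝ) ∧
      T ^ (1 - ε) ≤ (((Zap η T).filter (fun s => Levz z A T s)).card : ℝ) := by
  obtain ⟨θ, c, η, hθ, hc, hη, hη1, hUG⟩ := b_UG2
  obtain ⟨θ', δ', C', hθ', hδ', hC', hSS⟩ := b_SSZ
  refine ⟨η, hη, hη1, fun ε hε => ?_⟩
  have hsub1 : ∀ T, Zcl η T ⊆ H370.Zf riemannZeta T (2 * T) := fun T => Finset.filter_subset _ _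
  have hsub2 : ∀ T, Zap η T ⊆ H370.Zf riemannZeta T (2 * T) := fun T => Finset.filter_subset _ _
  have hmzev : ∀ᶠ T : ℝ in atTop, ∀ s ∈ H370.Zf riemannZeta T (2 * T), (1 : ℝ) ≤ mz s := by
    filter_upwards [eventually_ge_atTop (1 : ℝ)] with T hT
    exact mz_ge hT
  have hD1 := hD_of (η := δ') (Zcl η) (fun _ s => (mz s : ℝ)) hsub1 (fun T s _ => Nat.cast_nonneg _)
    (Eventually.of_forall fun T s _ => le_rfl) hδ'.le ⟨θ', C', hθ', hC', hSS⟩
  have hD2 := hD_of (η := δ') (Zap η) (fun _ _ => 1) hsub2 (fun T s _ => zero_le_one) (by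
      filter_upwards [hmzev] with T h s hs
      exact h s (hsub2 T hs)) hδ'.le ⟨θ', C', hθ', hC', hSS⟩
  obtain ⟨A₁, c₁, δ₁, hA₁, hc₁, hδ₁, h1⟩ := ext_core b_CLW Pool.Agent.Q84.UM.t_DPM b_SAMP (half_pos hε)
    (Zcl η) (fun _ s => (mz s : ℝ)) hsub1
    (fun T s _ => Nat.cast_nonneg _) (Eventually.of_forall fun T s _ => le_rfl) (by
      refine ⟨θ, c, hθ, hc, ?_⟩
      filter_upwards [hUG] with T h N hN b
      exact (h N hN b).1) (fun δ T s => DA δ T s + SS δ' T s.im) hD1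
  obtain ⟨A₂, c₂, δ₂, hA₂, hc₂, hδ₂, h2⟩ := ext_core b_CLW Pool.Agent.Q84.UM.t_DPM b_SAMP (half_pos hε)
    (Zap η) (fun _ _ => 1) hsub2
    (fun T s _ => zero_le_one) (by
      filter_upwards [hmzev] with T h s hs
      exact h s (hsub2 T hs)) (by
      refine ⟨θ, c, hθ, hc, ?_⟩
      filter_upwards [hUG] with T h N hN b
      refine (h N hN b).2.trans (le_of_eq ?_)
      unfold Zap
      exact Finset.sum_congr rfl fun s _ => (one_mul _).symm) (fun δ T s => DA δ T s + SS δ' T s.im) hD2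
  obtain ⟨A, hA⟩ : ∃ A, A = 5 * (A₁ + A₂) := ⟨_, rfl⟩
  refine ⟨A, min c₁ c₂, by rw [hA]; positivity, by positivity, ?_⟩
  have hll : Tendsto (fun T : ℝ => Real.log (Real.log T)) atTop atTop :=
    Real.tendsto_log_atTop.comp Real.tendsto_log_atTop
  filter_upwards [h1, h2, eventually_ge_atTop (16 : ℝ), hll.eventually_ge_atTop 1,
    (tendsto_rpow_atTop (show (0:ℝ) < 1 / 4 by norm_num)).eventually_gt_atTop (A₁ + A₂),
    (tendsto_rpow_atTop (half_pos hε)).eventually_ge_atTop A₁] with T h1 h2 hT hS1 hTA hTε z hz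
  have hT0 : 0 < T := by linarith
  have hT1 : 1 ≤ T := by linarith
  have hR : 0 ≤ Real.sqrt (Real.log T / Real.log (Real.log T)) := Real.sqrt_nonneg _
  have k1 := h1 z (hz.trans (mul_le_mul_of_nonneg_right (min_le_left _ _) hR))
  have k2 := h2 z (hz.trans (mul_le_mul_of_nonneg_right (min_le_right _ _) hR))
  set S := Real.log (Real.log T) with hS
  have hlev : ∀ {A' : ℝ} {s : ℂ}, A' ≤ A → Levz z A' T s → Levz z A T s := by
    intro A' s hAA h
    have : A' * Real.sqrt S ≤ A * Real.sqrt S := mul_le_mul_of_nonneg_right hAA (Real.sqrt_nonneg _)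
    exact ⟨h.1.trans this, h.2.trans this⟩
  have hpw : T ^ (1 - ε) * T ^ (ε / 2) = T ^ (1 - ε / 2) := by
    rw [← Real.rpow_add hT0]
    congr 1
    ring
  constructor
  · have h3 : Gdz z A₁ δ₁ (fun δ T s => DA δ T s + SS δ' T s.im) (Zcl η) T ⊆ (Zcl η T).filter (fun s => Levz z A T s) := by
      intro s hs
      obtain ⟨g0, g1, _⟩ := Levz_of hA₁ hT0.le (by linarith) hS1 hs
      rw [Finset.mem_filter]
      exact ⟨g0, hlev (by rw [hA]; linarith) g1⟩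
    have h4 : ∑ s ∈ Gdz z A₁ δ₁ (fun δ T s => DA δ T s + SS δ' T s.im) (Zcl η) T, (mz s : ℝ) ≤
        A₁ * ((Gdz z A₁ δ₁ (fun δ T s => DA δ T s + SS δ' T s.im) (Zcl η) T).card : ℝ) := by
      rw [mul_comm, ← nsmul_eq_mul]
      refine Finset.sum_le_card_nsmul _ _ _ fun s hs => ?_
      obtain ⟨g0, _, g2⟩ := Levz_of hA₁ hT0.le (by linarith) hS1 hs
      exact (mz_le_SS hT hδ'.le (hsub1 T g0)).trans g2
    have h5 : T ^ (1 - ε / 2) ≤ A₁ * (((Zcl η T).filter (fun s => Levz z A T s)).card : ℝ) := by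
      refine (k1.trans h4).trans ?_
      have := Finset.card_le_card h3
      gcongr
    have h6 : A₁ * T ^ (1 - ε) ≤ T ^ (1 - ε / 2) := by
      rw [← hpw, mul_comm]
      exact mul_le_mul_of_nonneg_left hTε (by positivity)
    exact le_of_mul_le_mul_left (h6.trans h5) hA₁
  · have h3 : Gdz z A₂ δ₂ (fun δ T s => DA δ T s + SS δ' T s.im) (Zap η) T ⊆ (Zap η T).filter (fun s => Levz z A T s) := by
      intro s hs
      obtain ⟨g0, g1, _⟩ := Levz_of hA₂ hT0.le (by linarith) hS1 hs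
      rw [Finset.mem_filter]
      exact ⟨g0, hlev (by rw [hA]; linarith) g1⟩
    have h4 : T ^ (1 - ε) ≤ T ^ (1 - ε / 2) := Real.rpow_le_rpow_of_exponent_le hT1 (by linarith)
    refine h4.trans (k2.trans ?_)
    rw [Finset.sum_const, nsmul_eq_mul, mul_one]
    exact_mod_cast Finset.card_le_card h3

end

end Pool.Agent.H313.SX
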