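import Pool.Agent.H313.SL.Cont2
import Pool.Graph.R_pool_sql_team_seeded_3997aac3.Q98.UM.Lem
import Pool.Graph.R_pool_sql_team_seeded_3997aac3.Q97.UM.Base8
import Pool.Graph.R_seed8.H305R2.MertensM

set_option autoImplicit false

/-! Preparations for the joint moments: the real part of the exponent, the Mertens bound, lower integrals. -/

namespace Pool.Agent.H313.SX

open Filter Topology MeasureTheory Complex
open Pool.Agent.Q97.UM Pool.Agent.Q98.UM Pool.Agent.H313.SL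
open Pool.Agent.Y745.SW (Py)

noncomputable section

/-- the lower bound for lower integrals from the integral of a (signed) minorant -/
theorem lint_lower2 {u v : ℝ} (h0 : u ≤ v) {φ G : ℝ → ℝ} (hφ : IntervalIntegrable φ volume u v)
    (hle : ∀ᵐ t : ℝ, t ∈ Set.Icc u v → φ t ≤ G t) :
    ENNReal.ofReal (∫ t in u..v, φ t) ≤ ∫⁻ t in Set.Icc u v, ENNReal.ofReal (G t) := by
  have hi : Integrable φ (volume.restrict (Set.Icc u v)) :=
    (intervalIntegrable_iff_integrableOn_Icc_of_le h0).mp hφ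
  rw [intervalIntegral.integral_of_le h0, ← integral_Icc_eq_integral_Ioc]
  have h1 : ∫ t in Set.Icc u v, φ t ≤ ∫ t in Set.Icc u v, max (φ t) 0 :=
    integral_mono hi hi.pos_part fun t => le_max_left _ _
  have h2 := ofReal_integral_eq_lintegral_ofReal hi.pos_part
    (Eventually.of_forall fun t => le_max_right _ _)
  calc ENNReal.ofReal (∫ t in Set.Icc u v, φ t)
      ≤ ENNReal.ofReal (∫ t in Set.Icc u v, max (φ t) 0) := ENNReal.ofReal_le_ofReal h1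
    _ = ∫⁻ t in Set.Icc u v, ENNReal.ofReal (max (φ t) 0) := h2
    _ ≤ _ := by
      refine lintegral_mono_ae ((ae_restrict_iff' measurableSet_Icc).2 (hle.mono fun t ht hm => ?_))
      rw [ENNReal.ofReal_le_ofReal_iff']
      rcases le_total (φ t) 0 with h | h
      · right
        rw [max_eq_right h]
      · left
        rw [max_eq_left h]
        exact ht hm

/-- coefficients at the primes and at their squares -/
def aj (k l : ℝ) (_ : ℕ) : ℂ := (k : ℂ) - (l : ℂ) * I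
def a2j (k l : ℝ) (g : ℕ → ℂ) (p : ℕ) : ℂ := (k : ℂ) - 2 * ((l : ℂ) * I * g (p ^ 2))

lemma aj_sq (k l : ℝ) (p : ℕ) : ‖aj k l p‖ ^ 2 = k ^ 2 + l ^ 2 := by
  unfold aj
  have e : (k : ℂ) - (l : ℂ) * I = (k : ℂ) + ((-l : ℝ) : ℂ) * I := by push_cast; ring
  rw [e, ← Complex.normSq_eq_norm_sq, Complex.normSq_add_mul_I]
  ring

lemma aj_le {k l A : ℝ} (h : |k| + |l| ≤ A) (p : ℕ) : ‖aj k l p‖ ≤ A := by
  unfold aj
  refine (norm_sub_le _ _).trans ?_
  rw [norm_mul, Complex.norm_I, mul_one, Complex.norm_real, Complex.norm_real]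
  exact h

lemma a2j_le {k l A K₁ : ℝ} (h : |k| + |l| ≤ A) {g : ℕ → ℂ} (hg : ∀ n, ‖g n‖ ≤ K₁) (p : ℕ) :
    ‖a2j k l g p‖ ≤ A + 2 * A * K₁ := by
  unfold a2j
  have hK := (norm_nonneg _).trans (hg 0)
  have hk := abs_nonneg k
  have hl := abs_nonneg l
  refine (norm_sub_le _ _).trans ?_
  rw [norm_mul, norm_mul, norm_mul, Complex.norm_I, mul_one, Complex.norm_real, Complex.norm_real, Real.norm_eq_abs, Real.norm_eq_abs]
  have h2 : ‖(2 : ℂ)‖ = 2 := by simp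
  rw [h2]
  have h3 : |l| * ‖g (p ^ 2)‖ ≤ A * K₁ := mul_le_mul (by linarith) (hg _) (norm_nonneg _) (by linarith)
  linarith

lemma sq_cpow (p : ℕ) (s : ℂ) : ((p ^ 2 : ℕ) : ℂ) ^ s = ((p : ℂ) ^ s) ^ 2 := by
  have h := Complex.natCast_mul_natCast_cpow p p s
  rw [sq, sq]
  push_cast
  exact h

lemma dp_sq {X : ℕ} {g : ℕ → ℂ} (hg : ∀ n, g n ≠ 0 → (∃ p : ℕ, p.Prime ∧ n = p ^ 2) ∧ n ≤ X) (t : ℝ) :
    dp X g t = ∑ p ∈ (Finset.Icc 1 X).filter Nat.Prime, g (p ^ 2) * ((p : ℂ) ^ (-(1 / 2 + t * I))) ^ 2 := by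
  classical
  obtain ⟨G, hG⟩ : ∃ G : ℕ → ℂ, G = fun n => g n * (n : ℂ) ^ (-(1 / 2 + t * I)) := ⟨_, rfl⟩
  have hGne : ∀ n, G n ≠ 0 → g n ≠ 0 := fun n hn => by
    rw [hG] at hn
    exact left_ne_zero_of_mul hn
  have e1 : dp X g t = ∑ n ∈ Finset.Icc 1 X, G n := by
    rw [hG]
    rfl
  have e2 : ∑ n ∈ Finset.Icc 1 X, G n = ∑ n ∈ ((Finset.Icc 1 X).filter Nat.Prime).image (fun p => p ^ 2), G n := by
    rw [← Finset.sum_filter_ne_zero, ← Finset.sum_filter_ne_zero (s := ((Finset.Icc 1 X).filter Nat.Prime).image (fun p => p ^ 2))]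
    refine Finset.sum_congr ?_ fun _ _ => rfl
    ext n
    simp only [Finset.mem_filter, Finset.mem_image, Finset.mem_Icc]
    constructor
    · rintro ⟨⟨h1, h2⟩, h3⟩
      obtain ⟨⟨p, hp, hn⟩, _⟩ := hg n (hGne n h3)
      refine ⟨⟨p, ⟨⟨hp.one_lt.le, ?_⟩, hp⟩, hn.symm⟩, h3⟩
      have : p ≤ p ^ 2 := Nat.le_self_pow two_ne_zero p
      omega
    · rintro ⟨⟨p, ⟨⟨h1, h2⟩, hp⟩, hn⟩, h3⟩
      obtain ⟨_, h4⟩ := hg n (hGne n h3)
      refine ⟨⟨?_, h4⟩, h3⟩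
      rw [← hn]
      exact Nat.one_le_pow _ _ hp.pos
  rw [e1, e2, Finset.sum_image]
  · refine Finset.sum_congr rfl fun p _ => ?_
    rw [hG]
    simp only
    rw [sq_cpow]
  · intro p _ q _ h
    exact Nat.pow_left_injective (by norm_num : 2 ≠ 0) h

/-- the real part of the exponent -/
lemma PA_val {X : ℕ} {g : ℕ → ℂ} (hg : ∀ n, g n ≠ 0 → (∃ p : ℕ, p.Prime ∧ n = p ^ 2) ∧ n ≤ X) (k l t : ℝ) :
    (PA X (aj k l) (a2j k l g) t).re = k * ∑ p ∈ (Finset.Icc 1 X).filter Nat.Prime,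
      ((p : ℂ) ^ (-(1 / 2 + t * I)) + ((p : ℂ) ^ (-(1 / 2 + t * I))) ^ 2 / 2).re +
      l * ((∑ p ∈ (Finset.Icc 1 X).filter Nat.Prime, (p : ℂ) ^ (-(1 / 2 + t * I))).im + (dp X g t).im) := by
  have e1 : PA X (aj k l) (a2j k l g) t = (k : ℂ) * ∑ p ∈ (Finset.Icc 1 X).filter Nat.Prime,
      ((p : ℂ) ^ (-(1 / 2 + t * I)) + ((p : ℂ) ^ (-(1 / 2 + t * I))) ^ 2 / 2) +
      (-((l : ℂ) * I)) * ((∑ p ∈ (Finset.Icc 1 X).filter Nat.Prime, (p : ℂ) ^ (-(1 / 2 + t * I))) + dp X g t) := by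
    rw [dp_sq hg]
    unfold PA aj a2j
    rw [← Finset.sum_add_distrib, Finset.mul_sum, Finset.mul_sum, ← Finset.sum_add_distrib]
    refine Finset.sum_congr rfl fun p hp => ?_
    have hp0 : (p : ℂ) ≠ 0 := by
      have := (Finset.mem_filter.1 hp).2.ne_zero
      exact_mod_cast this
    have e2 : (p : ℂ) ^ (-(1 + 2 * (t : ℂ) * I)) = ((p : ℂ) ^ (-(1 / 2 + (t : ℂ) * I))) ^ 2 := by
      rw [sq, ← Complex.cpow_add _ _ hp0]
      congr 1
      ring
    rw [e2]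
    ring
  rw [e1, Complex.add_re, Complex.re_ofReal_mul, Complex.re_sum, ← Complex.add_im]
  congr 1
  simp

/-- the lower bound of Mertens -/
lemma mert_low {δ : ℝ} (hδ : 0 < δ) : ∃ C : ℝ, 0 ≤ C ∧ ∀ᶠ T : ℝ in atTop,
    Real.log (Real.log T) - C ≤ ∑ p ∈ (Finset.Icc 1 ⌊T ^ δ⌋₊).filter Nat.Prime, (1 : ℝ) / p := by
  obtain ⟨M, hM⟩ := Pool.Agent.H305R2.mertens_inv_tendsto
  refine ⟨|M| + 1 + |Real.log (δ / 2)|, by positivity, ?_⟩
  have h5 := hM.eventually (Metric.ball_mem_nhds M (by norm_num : (0 : ℝ) < 1))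
  have hfl : Tendsto (fun T : ℝ => ⌊T ^ δ⌋₊) atTop atTop := tendsto_nat_floor_atTop.comp (tendsto_rpow_atTop hδ)
  have hpow : Tendsto (fun T : ℝ => T ^ (δ / 2)) atTop atTop := tendsto_rpow_atTop (by positivity)
  filter_upwards [hfl.eventually h5, hpow.eventually_ge_atTop 2, eventually_ge_atTop (3 : ℝ)] with T h hT2 hT
  have hT0 : 0 < T := by linarith
  have hL0 : 0 < Real.log T := Real.log_pos (by linarith)
  rw [Real.dist_eq, abs_lt] at h
  have hTd : T ^ δ = T ^ (δ / 2) * T ^ (δ / 2) := by rw [← Real.rpow_add hT0]; congr 1; ring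
  have hYge : T ^ (δ / 2) ≤ ⌊T ^ δ⌋₊ := by
    have h1 : T ^ δ - 1 < ⌊T ^ δ⌋₊ := Nat.sub_one_lt_floor _
    have h2 : 2 * T ^ (δ / 2) ≤ T ^ δ := by
      rw [hTd]
      exact mul_le_mul_of_nonneg_right hT2 (by positivity)
    linarith
  have h1 : Real.log (Real.log T) + Real.log (δ / 2) ≤ Real.log (Real.log (⌊T ^ δ⌋₊ : ℕ)) := by
    rw [← Real.log_mul hL0.ne' (by positivity)]
    refine Real.log_le_log (by positivity) ?_
    have h2 := Real.log_le_log (by positivity) hYge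
    rw [Real.log_rpow hT0] at h2
    linarith
  have h2 := neg_abs_le M
  have h3 := neg_abs_le (Real.log (δ / 2))
  linarith [h.1]

end

end Pool.Agent.H313.SX
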