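import Pool.Agent.H313.SX.Arg
import Pool.Agent.H313.SX.Jm0

set_option autoImplicit false

/-! The order of the joint moments from below, all real exponents. -/

namespace Pool.Agent.H313.SX

open Filter Topology MeasureTheory Complex
open Pool.Agent.Q97.UM Pool.Agent.Q98.UM Pool.Agent.H313.SL
open Pool.Agent.Y745.SW (Py)
open Pool.Agent.K4H8.JG (E1)

noncomputable section

theorem joint_low (A : ℝ) (hA : 1 ≤ A) : ∃ c : ℝ, 0 < c ∧ ∀ᶠ T : ℝ in atTop, ∀ k l : ℝ, |k| + |l| ≤ A →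
    ENNReal.ofReal (c * T * Real.exp ((k ^ 2 + l ^ 2) * Real.log (Real.log T))) ≤
      ∫⁻ t in Set.Icc T (2 * T), ENNReal.ofReal (‖zt t‖ ^ (2 * k) * Real.exp (2 * l * (Real.pi * E1 t))) := by
  have hD := Pool.Agent.Q84.UM.t_DPM
  obtain ⟨θ₁, δ₁, K₁q, hθ₁, hδ₁, hK₁q, hARG⟩ := arg_sq_c
  obtain ⟨κ, hκ, hE⟩ := b_EK (A + 2 * A * K₁q) (by nlinarith)
  obtain ⟨θ₀, δ₀, hθ₀, hδ₀, hTHP⟩ := b_THP 1
  have hκ1 : 0 < 1 + 20 * κ := by linarith
  obtain ⟨δ, hδ, hδ1, hδ2, hδ3, hδ4, hδ5⟩ : ∃ δ : ℝ, 0 < δ ∧ (1 + 20 * κ) * δ ≤ 1 / 40 ∧ δ ≤ δ₀ ∧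
      (1 + 20 * κ) * δ ≤ θ₀ ∧ δ ≤ δ₁ ∧ (1 + 20 * κ) * δ ≤ θ₁ := by
    have key : ∀ x : ℝ, (1 + 20 * κ) * (x / (1 + 20 * κ)) = x := fun x => by field_simp
    refine ⟨min (min (1 / 40 / (1 + 20 * κ)) (min δ₀ (θ₀ / (1 + 20 * κ)))) (min δ₁ (θ₁ / (1 + 20 * κ))), by positivity, ?_, ?_, ?_, ?_, ?_⟩
    · exact (mul_le_mul_of_nonneg_left ((min_le_left _ _).trans (min_le_left _ _)) hκ1.le).trans (key _).le
    · exact (min_le_left _ _).trans ((min_le_right _ _).trans (min_le_left _ _))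
    · exact (mul_le_mul_of_nonneg_left ((min_le_left _ _).trans ((min_le_right _ _).trans (min_le_right _ _))) hκ1.le).trans (key _).le
    · exact (min_le_right _ _).trans (min_le_left _ _)
    · exact (mul_le_mul_of_nonneg_left ((min_le_right _ _).trans (min_le_right _ _)) hκ1.le).trans (key _).le
  obtain ⟨C₁, hC₁, hTHP⟩ := hTHP δ hδ hδ2
  obtain ⟨Ca, hCa, hARG⟩ := hARG δ hδ hδ4
  obtain ⟨C₂, c₂, hC₂, hc₂, hE⟩ := hE δ hδ
  obtain ⟨Cm, hCm, hMert⟩ := mert_low hδ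
  have hS3 := S3_nonneg
  have hpi := Real.pi_pos
  obtain ⟨K₁, hK₁⟩ : ∃ K₁, K₁ = 2 * A * C₁ + 8 * A * (2 + Ca) + (4 * A * S3 + 2 * C₂) * 2 + 4 * C₂ := ⟨_, rfl⟩
  have hA0 : 0 < A := by linarith
  have hK₁0 : 0 ≤ K₁ := by rw [hK₁]; positivity
  obtain ⟨K, hK⟩ : ∃ K, K = 4 * K₁ := ⟨_, rfl⟩
  refine ⟨Real.exp (-K) / 4 * (c₂ * Real.exp (-(A ^ 2 * Cm))), by positivity, ?_⟩
  have hlit := (Real.isLittleO_log_id_atTop.def (c := 1 / 4) (by norm_num))
  have hlit2 := ((isLittleO_log_rpow_atTop (show (0:ℝ) < 1 / 2 by norm_num)).def (c := 1 / 16) (by norm_num))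
  filter_upwards [hTHP, hARG, hE, hMert, eventually_ge_atTop (16 : ℝ), hlit, hlit2] with T hTHP hARG hE hMert hT16 hlit hlit2 k l hkl
  have hT0 : 0 < T := by linarith
  have hT1 : 1 ≤ T := by linarith
  have hL0 : 0 < Real.log T := Real.log_pos (by linarith)
  have hmono : ∀ {a b : ℝ}, a ≤ b → T ^ a ≤ T ^ b := fun h => Real.rpow_le_rpow_of_exponent_le hT1 h
  set L := Real.log T with hL
  rw [Real.norm_eq_abs, Real.norm_eq_abs, id, abs_of_pos hT0, abs_of_pos hL0] at hlit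
  rw [Real.norm_eq_abs, Real.norm_eq_abs, abs_of_pos hL0, abs_of_nonneg (by positivity)] at hlit2
  obtain ⟨gq, M1, hgq, hgs, hMc, hM0, hMpt, hMint⟩ := hARG
  have hk := abs_nonneg k
  have hl := abs_nonneg l
  obtain ⟨M, e, J, M₀, q, w, hd⟩ := hE (aj k l) (a2j k l gq) (fun n => (aj_le hkl n).trans (by nlinarith)) (a2j_le hkl hgq)
  have hML : (M : ℝ) ≤ T ^ (20 * κ * δ) := hd.len
  have hlow : c₂ * Real.exp ((k ^ 2 + l ^ 2) * ∑ p ∈ (Finset.Icc 1 ⌊T ^ δ⌋₊).filter Nat.Prime, (1 : ℝ) / p) ≤ N2 M e := by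
    refine le_trans (le_of_eq ?_) hd.low
    congr 2
    rw [Finset.mul_sum]
    refine Finset.sum_congr rfl fun p _ => ?_
    rw [aj_sq]
    ring
  have hn2 : 0 < N2 M e := lt_of_lt_of_le (by positivity) hlow
  have hM1 : 1 ≤ M := by
    by_contra hc
    have h0 : M = 0 := by omega
    rw [h0] at hn2
    unfold N2 at hn2
    simp at hn2
  have hMl : (M : ℝ) ≤ T ^ ((1 + 20 * κ) * δ) := hML.trans (hmono (by nlinarith))
  have hM4 : (M : ℝ) ≤ T ^ (1 / 4 : ℝ) := hMl.trans (hmono (by linarith))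
  obtain ⟨m1, m2⟩ := Pool.Agent.Q84.UM.t_MVL T hT16 M hM4 e
  obtain ⟨X, hX⟩ : ∃ X, X = ⌊T ^ δ⌋₊ := ⟨_, rfl⟩
  set F : ℝ → ℂ := dp M e with hF
  obtain ⟨n2, hn2d⟩ : ∃ n2, n2 = N2 M e := ⟨_, rfl⟩
  rw [← hn2d] at hn2 hlow m1 m2
  have hFc : Continuous F := dp_cont M e
  have hH := hTHP M (hMl.trans (hmono hδ3)) e
  rw [← hX, ← hn2d] at hH
  have hAr := hMint M (hMl.trans (hmono hδ5)) e
  rw [← hn2d] at hAr
  -- first power of `M1`
  have iF : IntervalIntegrable (fun t => ‖F t‖ ^ 2) volume T (2 * T) := Continuous.intervalIntegrable (by fun_prop) _ _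
  have g1 : IntervalIntegrable (fun t => |Real.log ‖zt t‖ - EP X t| * ‖F t‖ ^ 2) volume T (2 * T) := by
    have h1 := hH.1
    simp only [pow_one] at h1
    refine h1.mono_set ?_
    rw [Set.uIcc_of_le (by linarith), Set.uIcc_of_le (by linarith)]
    exact Set.Icc_subset_Icc (by linarith) (by linarith)
  have g1' : ∫ t in T..(2 * T), |Real.log ‖zt t‖ - EP X t| * ‖F t‖ ^ 2 ≤ C₁ * T * n2 := by
    have h1 := hH
    simp only [pow_one] at h1
    refine le_trans ?_ h1.2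
    refine intervalIntegral.integral_mono_interval (by linarith) (by linarith) (by linarith)
      (Eventually.of_forall fun t => ?_) h1.1
    show 0 ≤ |Real.log ‖zt t‖ - EP X t| * ‖F t‖ ^ 2
    positivity
  have g2 : ∫ t in T..(2 * T), M1 t * ‖F t‖ ^ 2 ≤ (2 + Ca) * (T * n2) := by
    have h1 : ∫ t in T..(2 * T), M1 t * ‖F t‖ ^ 2 ≤ ∫ t in T..(2 * T), (‖F t‖ ^ 2 + M1 t ^ 2 * ‖F t‖ ^ 2) := by
      refine intervalIntegral.integral_mono_on (by linarith) (Continuous.intervalIntegrable (by fun_prop) _ _)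
        (Continuous.intervalIntegrable (by fun_prop) _ _) fun t _ => ?_
      have h2 : M1 t ≤ 1 + M1 t ^ 2 := by nlinarith [sq_nonneg (M1 t - 1)]
      have h3 := mul_le_mul_of_nonneg_right h2 (sq_nonneg ‖F t‖)
      linarith
    rw [intervalIntegral.integral_add iF (Continuous.intervalIntegrable (by fun_prop) _ _)] at h1
    linarith
  -- the block errors
  have hq6 : ∀ j t, ‖dp M₀ (q j) t‖ ^ 6 * ‖F t‖ ^ 2 =
      ‖dp (M₀ ^ 3 * M) (cv (q j) (cv (q j) (cv (q j) e))) t‖ ^ 2 := fun j t =>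
    dp_cube hD (hd.qs j) hd.supp t
  have hlen3 : ((M₀ ^ 3 * M : ℕ) : ℝ) ≤ T ^ (1 / 4 : ℝ) := by
    have e1 : ((M₀ ^ 3 * M : ℕ) : ℝ) ≤ (T ^ (2 * δ)) ^ 3 * T ^ ((1 + 20 * κ) * δ) := by
      push_cast
      exact mul_le_mul (pow_le_pow_left₀ (Nat.cast_nonneg _) hd.M0 3) hMl (by positivity) (by positivity)
    refine e1.trans ?_
    rw [← Real.rpow_natCast, ← Real.rpow_mul hT0.le, ← Real.rpow_add hT0]
    refine hmono ?_
    push_cast
    nlinarith
  have hblk : ∀ j, Continuous (fun t => ‖dp M₀ (q j) t‖ ^ 6 * ‖F t‖ ^ 2) ∧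
      ∫ t in T..(2 * T), ‖dp M₀ (q j) t‖ ^ 6 * ‖F t‖ ^ 2 ≤
        2 * T * N2 (M₀ ^ 3 * M) (cv (q j) (cv (q j) (cv (q j) e))) := by
    intro j
    have e1 : (fun t => ‖dp M₀ (q j) t‖ ^ 6 * ‖F t‖ ^ 2) = fun t =>
        ‖dp (M₀ ^ 3 * M) (cv (q j) (cv (q j) (cv (q j) e))) t‖ ^ 2 := funext (hq6 j)
    rw [e1]
    exact ⟨((hD.2.2 _ _ 0).2.norm.pow 2), (Pool.Agent.Q84.UM.t_MVL T hT16 _ hlen3 _).2⟩
  have hmean := hd.mean M e hM1 hMl (supp_zero hd.supp)
  rw [← hn2d] at hmean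
  -- the error function
  obtain ⟨c₄, hc₄⟩ : ∃ c₄, c₄ = 4 * A * S3 + 2 * C₂ := ⟨_, rfl⟩
  have hc₄0 : 0 ≤ c₄ := by rw [hc₄]; positivity
  obtain ⟨g, hg⟩ : ∃ g : ℝ → ℝ, g = fun t => 2 * A * |Real.log ‖zt t‖ - EP X t| + 8 * A * M1 t + c₄ +
    ∑ j ∈ Finset.range J, 2 * w j * ‖dp M₀ (q j) t‖ ^ 6 := ⟨_, rfl⟩
  have hg0 : ∀ t, 0 ≤ g t := by
    intro t
    rw [hg]
    have h1 := hM0 t
    have h2 : 0 ≤ ∑ j ∈ Finset.range J, 2 * w j * ‖dp M₀ (q j) t‖ ^ 6 :=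
      Finset.sum_nonneg fun j _ => by have := hd.wn j; positivity
    positivity
  have hgF : ∀ t, g t * ‖F t‖ ^ 2 = 2 * A * (|Real.log ‖zt t‖ - EP X t| * ‖F t‖ ^ 2) + 8 * A * (M1 t * ‖F t‖ ^ 2) +
      c₄ * ‖F t‖ ^ 2 + ∑ j ∈ Finset.range J, 2 * w j * (‖dp M₀ (q j) t‖ ^ 6 * ‖F t‖ ^ 2) := by
    intro t
    simp only [hg]
    rw [add_mul, Finset.sum_mul]
    congr 1
    · ring
    · exact Finset.sum_congr rfl fun j _ => by ring
  have i3 : IntervalIntegrable (fun t => ∑ j ∈ Finset.range J, 2 * w j *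
      (‖dp M₀ (q j) t‖ ^ 6 * ‖F t‖ ^ 2)) volume T (2 * T) :=
    (continuous_finsetSum _ fun j _ => continuous_const.mul (hblk j).1).intervalIntegrable _ _
  have i3' : ∀ j ∈ Finset.range J, IntervalIntegrable (fun t => 2 * w j *
      (‖dp M₀ (q j) t‖ ^ 6 * ‖F t‖ ^ 2)) volume T (2 * T) := fun j _ =>
    (continuous_const.mul (hblk j).1).intervalIntegrable _ _
  have iM : IntervalIntegrable (fun t => M1 t * ‖F t‖ ^ 2) volume T (2 * T) := Continuous.intervalIntegrable (by fun_prop) _ _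
  have igF : IntervalIntegrable (fun t => g t * ‖F t‖ ^ 2) volume T (2 * T) := by
    simp only [hgF]
    exact (((g1.const_mul _).add (iM.const_mul _)).add (iF.const_mul _)).add i3
  have hTn : 0 ≤ T * n2 := by positivity
  have hint : ∫ t in T..(2 * T), g t * ‖F t‖ ^ 2 ≤ K₁ * (T * n2) := by
    simp only [hgF]
    rw [intervalIntegral.integral_add (((g1.const_mul _).add (iM.const_mul _)).add (iF.const_mul _)) i3,
      intervalIntegral.integral_add ((g1.const_mul _).add (iM.const_mul _)) (iF.const_mul _),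
      intervalIntegral.integral_add (g1.const_mul _) (iM.const_mul _), intervalIntegral.integral_const_mul,
      intervalIntegral.integral_const_mul, intervalIntegral.integral_const_mul]
    rw [intervalIntegral.integral_finsetSum i3']
    have b3 : ∑ j ∈ Finset.range J, ∫ t in T..(2 * T), 2 * w j *
        (‖dp M₀ (q j) t‖ ^ 6 * ‖F t‖ ^ 2) ≤ 4 * T * (C₂ * n2) := by
      calc ∑ j ∈ Finset.range J, ∫ t in T..(2 * T), 2 * w j * (‖dp M₀ (q j) t‖ ^ 6 * ‖F t‖ ^ 2)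
          ≤ ∑ j ∈ Finset.range J, 4 * T * (w j *
              N2 (M₀ ^ 3 * M) (cv (q j) (cv (q j) (cv (q j) e)))) := by
            refine Finset.sum_le_sum fun j _ => ?_
            rw [intervalIntegral.integral_const_mul]
            have := mul_le_mul_of_nonneg_left (hblk j).2 (by have := hd.wn j; linarith : 0 ≤ 2 * w j)
            refine this.trans (le_of_eq ?_)
            ring
        _ = 4 * T * ∑ j ∈ Finset.range J, w j *
              N2 (M₀ ^ 3 * M) (cv (q j) (cv (q j) (cv (q j) e))) := by rw [Finset.mul_sum]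
        _ ≤ 4 * T * (C₂ * n2) := mul_le_mul_of_nonneg_left hmean (by positivity)
    have b0 := mul_le_mul_of_nonneg_left g1' (by positivity : 0 ≤ 2 * A)
    have b1 := mul_le_mul_of_nonneg_left g2 (by positivity : 0 ≤ 8 * A)
    have b2 := mul_le_mul_of_nonneg_left m2 hc₄0
    rw [hK₁, ← hc₄]
    linarith [(by ring : 2 * A * (C₁ * T * n2) + 8 * A * ((2 + Ca) * (T * n2)) + c₄ * (2 * T * n2) +
      4 * T * (C₂ * n2) = (2 * A * C₁ + 8 * A * (2 + Ca) + c₄ * 2 + 4 * C₂) * (T * n2))]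
  -- the interval
  have huv : T + L ≤ 2 * T - L := by linarith
  have hsub : Set.uIcc (T + L) (2 * T - L) ⊆ Set.uIcc T (2 * T) := by
    rw [Set.uIcc_of_le huv, Set.uIcc_of_le (by linarith)]
    exact Set.Icc_subset_Icc (by linarith) (by linarith)
  have iF' := iF.mono_set hsub
  have igF' := igF.mono_set hsub
  have hint' : ∫ t in (T + L)..(2 * T - L), g t * ‖F t‖ ^ 2 ≤ K₁ * (T * n2) := by
    refine le_trans ?_ hint
    refine intervalIntegral.integral_mono_interval (by linarith) (by linarith) (by linarith)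
      (Eventually.of_forall fun t => ?_) igF
    exact mul_nonneg (hg0 t) (by positivity)
  -- the edges
  have hBle : ∀ t : ℝ, ‖F t‖ ^ 2 ≤ T ^ (1 / 4 : ℝ) * n2 := fun t => by
    have h1 := (hD.2.2 M e t).1
    rw [← hn2d] at h1
    exact h1.trans (mul_le_mul_of_nonneg_right hM4 hn2.le)
  have hedge : ∀ x : ℝ, ∫ t in x..(x + L), ‖F t‖ ^ 2 ≤ 1 / 16 * (T * n2) := by
    intro x
    have h1 : ∫ t in x..(x + L), ‖F t‖ ^ 2 ≤ ∫ _ in x..(x + L), T ^ (1 / 4 : ℝ) * n2 :=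
      intervalIntegral.integral_mono_on (by linarith) (Continuous.intervalIntegrable (by fun_prop) _ _)
        (by simp) fun t _ => hBle t
    rw [intervalIntegral.integral_const, smul_eq_mul, add_sub_cancel_left] at h1
    refine h1.trans ?_
    have h2 : L * T ^ (1 / 4 : ℝ) ≤ 1 / 16 * T := by
      calc L * T ^ (1 / 4 : ℝ) ≤ (1 / 16 * T ^ (1 / 2 : ℝ)) * T ^ (1 / 2 : ℝ) :=
            mul_le_mul hlit2 (hmono (by norm_num)) (by positivity) (by positivity)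
        _ = 1 / 16 * T := by
            rw [mul_assoc, ← Real.rpow_add hT0]
            norm_num
    calc L * (T ^ (1 / 4 : ℝ) * n2) = L * T ^ (1 / 4 : ℝ) * n2 := by ring
      _ ≤ 1 / 16 * T * n2 := mul_le_mul_of_nonneg_right h2 hn2.le
      _ = _ := by ring
  have hsplit : ∫ t in T..(2 * T), ‖F t‖ ^ 2 = (∫ t in T..(T + L), ‖F t‖ ^ 2) +
      (∫ t in (T + L)..(2 * T - L), ‖F t‖ ^ 2) + ∫ t in (2 * T - L)..(2 * T), ‖F t‖ ^ 2 := by
    rw [intervalIntegral.integral_add_adjacent_intervals (Continuous.intervalIntegrable (by fun_prop) _ _)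
      (Continuous.intervalIntegrable (by fun_prop) _ _),
      intervalIntegral.integral_add_adjacent_intervals (Continuous.intervalIntegrable (by fun_prop) _ _)
      (Continuous.intervalIntegrable (by fun_prop) _ _)]
  have he1 := hedge T
  have he2 := hedge (2 * T - L)
  rw [sub_add_cancel] at he2
  obtain ⟨I₀, hI₀⟩ : ∃ I₀, I₀ = ∫ t in (T + L)..(2 * T - L), ‖F t‖ ^ 2 := ⟨_, rfl⟩
  have hI₀l : 1 / 4 * (T * n2) ≤ I₀ := by
    rw [hI₀]
    linarith
  -- the pointwise inequality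
  have hpt : ∀ᵐ t : ℝ, t ∈ Set.Icc (T + L) (2 * T - L) → Real.exp (-K) * ((1 + K) * ‖F t‖ ^ 2 - g t * ‖F t‖ ^ 2) ≤
      ‖zt t‖ ^ (2 * k) * Real.exp (2 * l * (Real.pi * E1 t)) := by
    have hae : ∀ᵐ t : ℝ, zt t ≠ 0 := by
      have := ae_zt 0
      simpa using this
    refine hae.mono fun t ht htI => ?_
    have hnn : 0 ≤ ‖zt t‖ ^ (2 * k) * Real.exp (2 * l * (Real.pi * E1 t)) := by positivity
    by_cases hF0 : F t = 0
    · rw [hF0]
      simpa using hnn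
    have hEsq : ‖F t‖ ^ 2 = Real.exp (2 * Real.log ‖F t‖) := by
      rw [two_mul, Real.exp_add, Real.exp_log (norm_pos_iff.mpr hF0), sq]
    obtain ⟨h, hh⟩ : ∃ h, h = Real.log ‖zt t‖ * (2 * k) + 2 * l * (Real.pi * E1 t) - 2 * Real.log ‖F t‖ := ⟨_, rfl⟩
    have hrhs : ‖zt t‖ ^ (2 * k) * Real.exp (2 * l * (Real.pi * E1 t)) = Real.exp h * ‖F t‖ ^ 2 := by
      rw [hh, Real.exp_sub, ← hEsq, div_mul_cancel₀ _ (pow_ne_zero 2 (norm_ne_zero_iff.mpr hF0)), Real.exp_add,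
        Real.rpow_def_of_pos (norm_pos_iff.mpr ht)]
    have hgh : -g t ≤ h := by
      have u1 := hd.up t hF0
      rw [← hX, PA_val (X := X) (by rw [hX]; exact hgs) k l t] at u1
      have u2 := EP_approx X t
      have u3 := hMpt t htI.1 htI.2
      have e3 : Py (T ^ δ) t = ∑ p ∈ (Finset.Icc 1 X).filter Nat.Prime, (p : ℂ) ^ (-(1 / 2 + t * I)) := by
        rw [hX]; rfl
      rw [← hX, e3] at u3
      set P₀ := ∑ p ∈ (Finset.Icc 1 X).filter Nat.Prime, ((p : ℂ) ^ (-(1 / 2 + t * I)) + ((p : ℂ) ^ (-(1 / 2 + t * I))) ^ 2 / 2).re with hP₀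
      set P₁ := (∑ p ∈ (Finset.Icc 1 X).filter Nat.Prime, (p : ℂ) ^ (-(1 / 2 + t * I))).im with hP₁
      have v1 : |k * (Real.log ‖zt t‖ - EP X t)| ≤ A * |Real.log ‖zt t‖ - EP X t| := by
        rw [abs_mul]
        exact mul_le_mul_of_nonneg_right (by linarith) (abs_nonneg _)
      have v2 : |k * (EP X t - P₀)| ≤ A * (2 * S3) := by
        rw [abs_mul]
        exact mul_le_mul (by linarith) u2 (abs_nonneg _) (by linarith)
      have v3 : |l * (Real.pi * E1 t - P₁ - (dp X gq t).im)| ≤ A * (4 * M1 t) := by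
        rw [abs_mul]
        refine mul_le_mul (by linarith) (u3.trans ?_) (abs_nonneg _) (by linarith)
        exact mul_le_mul_of_nonneg_right Real.pi_lt_four.le (hM0 t)
      have w1 := neg_abs_le (k * (Real.log ‖zt t‖ - EP X t))
      have w2 := neg_abs_le (k * (EP X t - P₀))
      have w3 := neg_abs_le (l * (Real.pi * E1 t - P₁ - (dp X gq t).im))
      have u4 : ∑ j ∈ Finset.range J, 2 * w j * ‖dp M₀ (q j) t‖ ^ 6 =
          2 * ∑ j ∈ Finset.range J, w j * ‖dp M₀ (q j) t‖ ^ 6 := by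
        rw [Finset.mul_sum]
        exact Finset.sum_congr rfl fun j _ => by ring
      simp only [hg, hh, hc₄]
      rw [u4]
      linarith
    have h4 := exp_tangent (K := K) hgh
    rw [hrhs]
    calc Real.exp (-K) * ((1 + K) * ‖F t‖ ^ 2 - g t * ‖F t‖ ^ 2)
        = Real.exp (-K) * (1 + K - g t) * ‖F t‖ ^ 2 := by ring
      _ ≤ Real.exp h * ‖F t‖ ^ 2 := mul_le_mul_of_nonneg_right h4 (by positivity)
  have iφ : IntervalIntegrable (fun t => Real.exp (-K) * ((1 + K) * ‖F t‖ ^ 2 - g t * ‖F t‖ ^ 2))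
      volume (T + L) (2 * T - L) := ((iF'.const_mul _).sub igF').const_mul _
  refine le_trans (le_trans (ENNReal.ofReal_le_ofReal ?_) (lint_lower2 huv iφ hpt))
    (lintegral_mono_set (Set.Icc_subset_Icc (by linarith) (by linarith)))
  rw [intervalIntegral.integral_const_mul,
    intervalIntegral.integral_sub (iF'.const_mul _) igF', intervalIntegral.integral_const_mul, ← hI₀]
  have h5 : K₁ * (T * n2) ≤ K * I₀ := by
    rw [hK]
    have : T * n2 ≤ 4 * I₀ := by linarith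
    nlinarith
  have h6 : I₀ ≤ (1 + K) * I₀ - ∫ t in (T + L)..(2 * T - L), g t * ‖F t‖ ^ 2 := by linarith
  have h7 : c₂ * Real.exp (-(A ^ 2 * Cm)) * Real.exp ((k ^ 2 + l ^ 2) * Real.log L) ≤ n2 := by
    refine le_trans ?_ hlow
    rw [mul_assoc, ← Real.exp_add]
    refine mul_le_mul_of_nonneg_left (Real.exp_le_exp.2 ?_) hc₂.le
    have h8 : k ^ 2 + l ^ 2 ≤ A ^ 2 := by
      have h9 : (|k| + |l|) ^ 2 ≤ A ^ 2 := pow_le_pow_left₀ (by positivity) hkl 2
      have h10 := sq_abs k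
      have h11 := sq_abs l
      nlinarith [mul_nonneg hk hl]
    have h9 : (k ^ 2 + l ^ 2) * (Real.log L - Cm) ≤
        (k ^ 2 + l ^ 2) * ∑ p ∈ (Finset.Icc 1 ⌊T ^ δ⌋₊).filter Nat.Prime, (1 : ℝ) / p :=
      mul_le_mul_of_nonneg_left hMert (by positivity)
    have h10 : (k ^ 2 + l ^ 2) * Cm ≤ A ^ 2 * Cm := mul_le_mul_of_nonneg_right h8 hCm
    linarith
  calc Real.exp (-K) / 4 * (c₂ * Real.exp (-(A ^ 2 * Cm))) * T * Real.exp ((k ^ 2 + l ^ 2) * Real.log L) =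
        Real.exp (-K) / 4 * T * (c₂ * Real.exp (-(A ^ 2 * Cm)) * Real.exp ((k ^ 2 + l ^ 2) * Real.log L)) := by ring
    _ ≤ Real.exp (-K) / 4 * T * n2 := mul_le_mul_of_nonneg_left h7 (by positivity)
    _ = Real.exp (-K) * (1 / 4 * (T * n2)) := by ring
    _ ≤ Real.exp (-K) * I₀ := mul_le_mul_of_nonneg_left hI₀l (Real.exp_pos _).le
    _ ≤ _ := mul_le_mul_of_nonneg_left h6 (Real.exp_pos _).le

end

end Pool.Agent.H313.SX
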