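import Pool.Agent.H313.SX.ArgZ
import Pool.Agent.H313.SX.Jm0
import Pool.Graph.R_pool_sql_team_seeded_3997aac3.Q98.UM.LBD

set_option autoImplicit false

/-! The order of the joint discrete moments from below, all real exponents. -/

namespace Pool.Agent.H313.SX

open Filter Topology MeasureTheory Complex
open Pool.Agent.Q97.UM Pool.Agent.Q98.UM Pool.Agent.H313.SL
open Pool.Agent.Y745.SW (Py)
open Pool.Agent.K4H8.JG (E1)

noncomputable section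

open Classical in
theorem joint_low_z : ∃ d : ℝ, 0 < d ∧ ∀ A : ℝ, 1 ≤ A → ∃ c : ℝ, 0 < c ∧ ∀ᶠ T : ℝ in atTop, ∀ k l : ℝ, |k| + |l| ≤ A →
    c * T * Real.log T ^ (1 + 2 * k) * Real.exp ((k ^ 2 + l ^ 2) * Real.log (Real.log T)) ≤
      ∑ s ∈ ZI d T, ‖deriv riemannZeta s‖ ^ (2 * k) * Real.exp (2 * l * (Real.pi * E1 s.im)) := by
  have hD := Pool.Agent.Q84.UM.t_DPM
  obtain ⟨d, θ₁, hd, -, hθ₁, -, hSI⟩ := b_SAMPI (1 / 10) (by norm_num)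
  obtain ⟨θ₂, hθ₂, -, hS⟩ := b_SAMP 1 one_pos
  obtain ⟨θ₃, δ₀, hθ₃, hδ₀, hTD⟩ := b_THD 1
  obtain ⟨θ₄, δ₁, K₁q, hθ₄, hδ₁, hK₁q, hARG⟩ := arg_sq_z
  refine ⟨d, hd, fun A hA => ?_⟩
  obtain ⟨κ, hκ, hE⟩ := b_EK (A + 2 * A * K₁q) (by nlinarith)
  have hκ1 : 0 < 7 + 20 * κ := by linarith
  obtain ⟨δ, hδ, hδ1, hδ2, hδ3, hδ4, hδ5, hδ6, hδ7⟩ : ∃ δ : ℝ, 0 < δ ∧ (7 + 20 * κ) * δ ≤ 1 / 40 ∧ δ ≤ δ₀ ∧
      (7 + 20 * κ) * δ ≤ θ₁ ∧ (7 + 20 * κ) * δ ≤ θ₂ ∧ (7 + 20 * κ) * δ ≤ θ₃ ∧ (7 + 20 * κ) * δ ≤ θ₄ ∧ δ ≤ δ₁ := by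
    obtain ⟨m, hm⟩ : ∃ m, m = min (1 / 40) (min (min θ₁ θ₄) (min θ₂ θ₃)) := ⟨_, rfl⟩
    have hm0 : 0 < m := by rw [hm]; positivity
    have h1 : m ≤ 1 / 40 := by rw [hm]; exact min_le_left _ _
    have h2 : m ≤ θ₁ := by rw [hm]; exact (min_le_right _ _).trans ((min_le_left _ _).trans (min_le_left _ _))
    have h2' : m ≤ θ₄ := by rw [hm]; exact (min_le_right _ _).trans ((min_le_left _ _).trans (min_le_right _ _))
    have h3 : m ≤ θ₂ := by rw [hm]; exact (min_le_right _ _).trans ((min_le_right _ _).trans (min_le_left _ _))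
    have h4 : m ≤ θ₃ := by rw [hm]; exact (min_le_right _ _).trans ((min_le_right _ _).trans (min_le_right _ _))
    have h5 : (7 + 20 * κ) * min (m / (7 + 20 * κ)) (min δ₀ δ₁) ≤ m := by
      calc (7 + 20 * κ) * min (m / (7 + 20 * κ)) (min δ₀ δ₁) ≤ (7 + 20 * κ) * (m / (7 + 20 * κ)) :=
            mul_le_mul_of_nonneg_left (min_le_left _ _) hκ1.le
        _ = m := by field_simp
    exact ⟨min (m / (7 + 20 * κ)) (min δ₀ δ₁), by positivity, h5.trans h1, (min_le_right _ _).trans (min_le_left _ _), h5.trans h2,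
      h5.trans h3, h5.trans h4, h5.trans h2', (min_le_right _ _).trans (min_le_right _ _)⟩
  obtain ⟨C₁, hC₁, hTD⟩ := hTD δ d hδ hδ2 hd
  obtain ⟨Ca, hCa, hARG⟩ := hARG δ hδ hδ7
  obtain ⟨C₂, c₂, hC₂, hc₂, hE⟩ := hE δ hδ
  obtain ⟨Cm, hCm, hMert⟩ := mert_low hδ
  have hS3 := S3_nonneg
  have hpi := Real.pi_pos
  have hA0 : 0 < A := by linarith
  obtain ⟨K₁, hK₁⟩ : ∃ K₁, K₁ = 2 * A * C₁ + 8 * A * (2 + Ca) + (4 * A * S3 + 2 * C₂) * 2 + 4 * C₂ := ⟨_, rfl⟩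
  have hK₁0 : 0 ≤ K₁ := by rw [hK₁]; positivity
  obtain ⟨K, hK⟩ : ∃ K, K = 40 * K₁ := ⟨_, rfl⟩
  refine ⟨Real.exp (-K) / 40 * (c₂ * Real.exp (-(A ^ 2 * Cm))), by positivity, ?_⟩
  filter_upwards [hSI, hS, hTD, hE, hMert, hARG, edges2, (tendsto_rpow_atTop (show (0:ℝ) < 1 / 2 by norm_num)).eventually_ge_atTop 40,
    eventually_ge_atTop (Real.exp 1), eventually_ge_atTop 1]
    with T hSI hS hTD hE hMert hARG hEd hT40 hTe hT1 k l hkl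
  have hT0 : 0 < T := by linarith
  have hmono : ∀ {a b : ℝ}, a ≤ b → T ^ a ≤ T ^ b := fun h => Real.rpow_le_rpow_of_exponent_le hT1 h
  have hL1 : 1 ≤ Real.log T := (Real.le_log_iff_exp_le hT0).mpr hTe
  have hL0 : 0 < Real.log T := by linarith
  obtain ⟨gq, M1, hgq, hgs, hM0, hMpt, hMint⟩ := hARG
  have hk := abs_nonneg k
  have hl := abs_nonneg l
  obtain ⟨M, e, J, M₀, q, w, hd'⟩ := hE (aj k l) (a2j k l gq) (fun n => (aj_le hkl n).trans (by nlinarith)) (a2j_le hkl hgq)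
  have hML : (M : ℝ) ≤ T ^ (20 * κ * δ) := hd'.len
  have hlow2 : c₂ * Real.exp ((k ^ 2 + l ^ 2) * ∑ p ∈ (Finset.Icc 1 ⌊T ^ δ⌋₊).filter Nat.Prime, (1 : ℝ) / p) ≤ N2 M e := by
    refine le_trans (le_of_eq ?_) hd'.low
    congr 2
    rw [Finset.mul_sum]
    refine Finset.sum_congr rfl fun p _ => ?_
    rw [aj_sq]
    ring
  have hn2 : 0 < N2 M e := lt_of_lt_of_le (by positivity) hlow2
  have hM1 : 1 ≤ M := by
    by_contra hc
    have h0 : M = 0 := by omega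
    rw [h0] at hn2
    unfold N2 at hn2
    simp at hn2
  have hM' : (M : ℝ) ≤ T ^ ((1 + 20 * κ) * δ) := hML.trans (hmono (by nlinarith))
  have hMN : (M : ℝ) ≤ T ^ ((7 + 20 * κ) * δ) := hM'.trans (hmono (by nlinarith))
  have hM8 : (M : ℝ) ≤ T ^ (1 / 4 : ℝ) := hMN.trans (hmono (by linarith))
  obtain ⟨X, hX⟩ : ∃ X, X = ⌊T ^ δ⌋₊ := ⟨_, rfl⟩
  set F : ℝ → ℂ := dp M e with hF
  obtain ⟨n2, hn2d⟩ : ∃ n2, n2 = N2 M e := ⟨_, rfl⟩
  obtain ⟨Λ, hΛ⟩ : ∃ Λ, Λ = Real.log T * (T * n2) := ⟨_, rfl⟩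
  have hn20 : 0 < n2 := by rw [hn2d]; exact hn2
  have hΛ0 : 0 ≤ Λ := by rw [hΛ]; positivity
  -- lower and upper bounds over the isolated zeros
  have hlow : 1 / 20 * Λ ≤ ∑ s ∈ ZI d T, ‖F s.im‖ ^ 2 := by
    rw [hΛ, hn2d]
    exact samp_lower hT0.le hL0.le (hSI M (hMN.trans (hmono hδ3)) e)
  have hup : ∑ s ∈ ZI d T, ‖F s.im‖ ^ 2 ≤ 2 * Λ := by
    rw [hΛ, hn2d]
    exact samp_upper hT0.le hL0.le ((hS M (hMN.trans (hmono hδ4)) e).2.2) d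
  have hDs := (hTD M (hMN.trans (hmono hδ5)) e).1
  simp only [pow_one] at hDs
  rw [mul_assoc C₁, ← hn2d, ← hΛ, ← hX] at hDs
  have hAr : ∑ s ∈ ZI d T, M1 s.im ^ 2 * ‖F s.im‖ ^ 2 ≤ Ca * Λ := by
    have h1 := hMint M (hMN.trans (hmono hδ6)) e
    rw [← hn2d, ← hΛ] at h1
    exact (sum_ZI_le d T (fun s => M1 s.im ^ 2 * ‖F s.im‖ ^ 2) fun s => by positivity).trans h1
  have hAr1 : ∑ s ∈ ZI d T, M1 s.im * ‖F s.im‖ ^ 2 ≤ (2 + Ca) * Λ := by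
    have h1 : ∑ s ∈ ZI d T, M1 s.im * ‖F s.im‖ ^ 2 ≤ ∑ s ∈ ZI d T, (‖F s.im‖ ^ 2 + M1 s.im ^ 2 * ‖F s.im‖ ^ 2) := by
      refine Finset.sum_le_sum fun s _ => ?_
      have h2 : M1 s.im ≤ 1 + M1 s.im ^ 2 := by nlinarith [sq_nonneg (M1 s.im - 1)]
      have h3 := mul_le_mul_of_nonneg_right h2 (sq_nonneg ‖F s.im‖)
      linarith
    rw [Finset.sum_add_distrib] at h1
    linarith
  -- the block errors
  have hq6 : ∀ j t, ‖dp M₀ (q j) t‖ ^ 6 * ‖F t‖ ^ 2 =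
      ‖dp (M₀ ^ 3 * M) (cv (q j) (cv (q j) (cv (q j) e))) t‖ ^ 2 := fun j t =>
    dp_cube hD (hd'.qs j) hd'.supp t
  have hlen3 : ((M₀ ^ 3 * M : ℕ) : ℝ) ≤ T ^ θ₂ := by
    have e1 : ((M₀ ^ 3 * M : ℕ) : ℝ) ≤ (T ^ (2 * δ)) ^ 3 * T ^ ((1 + 20 * κ) * δ) := by
      push_cast
      exact mul_le_mul (pow_le_pow_left₀ (Nat.cast_nonneg _) hd'.M0 3) hM' (by positivity) (by positivity)
    refine e1.trans ?_
    rw [← Real.rpow_natCast, ← Real.rpow_mul hT0.le, ← Real.rpow_add hT0]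
    refine hmono ?_
    push_cast
    nlinarith
  have hblk : ∀ j, ∑ s ∈ ZI d T, ‖dp M₀ (q j) s.im‖ ^ 6 * ‖F s.im‖ ^ 2 ≤
        2 * (Real.log T * (T * N2 (M₀ ^ 3 * M) (cv (q j) (cv (q j) (cv (q j) e))))) := by
    intro j
    rw [Finset.sum_congr rfl fun s _ => hq6 j s.im]
    exact samp_upper hT0.le hL0.le ((hS _ hlen3 _).2.2) d
  have hmean := hd'.mean M e hM1 hM' (supp_zero hd'.supp)
  rw [← hn2d] at hmean
  -- the error function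
  obtain ⟨Ds, hDsd⟩ : ∃ Ds : ℂ → ℝ, Ds = fun s =>
    |Real.log ‖deriv riemannZeta s‖ - Real.log (Real.log T) - EP X s.im| := ⟨_, rfl⟩
  obtain ⟨c₄, hc₄⟩ : ∃ c₄, c₄ = 4 * A * S3 + 2 * C₂ := ⟨_, rfl⟩
  have hc₄0 : 0 ≤ c₄ := by rw [hc₄]; positivity
  obtain ⟨g, hg⟩ : ∃ g : ℂ → ℝ, g = fun s => 2 * A * Ds s + 8 * A * M1 s.im + c₄ +
    ∑ j ∈ Finset.range J, 2 * w j * ‖dp M₀ (q j) s.im‖ ^ 6 := ⟨_, rfl⟩
  have hg0 : ∀ s, 0 ≤ g s := by
    intro s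
    rw [hg]
    have h1 := hM0 s.im
    have h2 : 0 ≤ ∑ j ∈ Finset.range J, 2 * w j * ‖dp M₀ (q j) s.im‖ ^ 6 :=
      Finset.sum_nonneg fun j _ => by have := hd'.wn j; positivity
    have h3 : 0 ≤ Ds s := by rw [hDsd]; exact abs_nonneg _
    positivity
  have hgF : ∀ s, g s * ‖F s.im‖ ^ 2 = 2 * A * (Ds s * ‖F s.im‖ ^ 2) + 8 * A * (M1 s.im * ‖F s.im‖ ^ 2) +
      c₄ * ‖F s.im‖ ^ 2 +
      ∑ j ∈ Finset.range J, 2 * w j * (‖dp M₀ (q j) s.im‖ ^ 6 * ‖F s.im‖ ^ 2) := by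
    intro s
    simp only [hg]
    rw [add_mul, Finset.sum_mul]
    congr 1
    · ring
    · exact Finset.sum_congr rfl fun j _ => by ring
  have hint : ∑ s ∈ ZI d T, g s * ‖F s.im‖ ^ 2 ≤ K₁ * Λ := by
    rw [Finset.sum_congr rfl fun s _ => hgF s, Finset.sum_add_distrib, Finset.sum_add_distrib, Finset.sum_add_distrib,
      ← Finset.mul_sum, ← Finset.mul_sum, ← Finset.mul_sum, Finset.sum_comm]
    have b1 : 2 * A * ∑ s ∈ ZI d T, Ds s * ‖F s.im‖ ^ 2 ≤ 2 * A * (C₁ * Λ) := by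
      refine mul_le_mul_of_nonneg_left ?_ (by positivity)
      rw [hDsd]
      exact hDs
    have b1' : 8 * A * ∑ s ∈ ZI d T, M1 s.im * ‖F s.im‖ ^ 2 ≤ 8 * A * ((2 + Ca) * Λ) :=
      mul_le_mul_of_nonneg_left hAr1 (by positivity)
    have b2 : c₄ * ∑ s ∈ ZI d T, ‖F s.im‖ ^ 2 ≤ c₄ * (2 * Λ) := mul_le_mul_of_nonneg_left hup hc₄0
    have b3 : ∑ j ∈ Finset.range J, ∑ s ∈ ZI d T, 2 * w j *
        (‖dp M₀ (q j) s.im‖ ^ 6 * ‖F s.im‖ ^ 2) ≤ 4 * (Real.log T * T) * (C₂ * n2) := by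
      calc ∑ j ∈ Finset.range J, ∑ s ∈ ZI d T, 2 * w j * (‖dp M₀ (q j) s.im‖ ^ 6 * ‖F s.im‖ ^ 2)
          ≤ ∑ j ∈ Finset.range J, 4 * (Real.log T * T) * (w j *
              N2 (M₀ ^ 3 * M) (cv (q j) (cv (q j) (cv (q j) e)))) := by
            refine Finset.sum_le_sum fun j _ => ?_
            rw [← Finset.mul_sum]
            have := mul_le_mul_of_nonneg_left (hblk j) (by have := hd'.wn j; linarith : 0 ≤ 2 * w j)
            refine this.trans (le_of_eq ?_)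
            ring
        _ = 4 * (Real.log T * T) * ∑ j ∈ Finset.range J, w j *
              N2 (M₀ ^ 3 * M) (cv (q j) (cv (q j) (cv (q j) e))) := by rw [Finset.mul_sum]
        _ ≤ 4 * (Real.log T * T) * (C₂ * n2) := mul_le_mul_of_nonneg_left hmean (by positivity)
    have b4 : 4 * (Real.log T * T) * (C₂ * n2) = 4 * C₂ * Λ := by rw [hΛ]; ring
    rw [b4] at b3
    rw [hK₁, ← hc₄]
    linarith [(by ring : 2 * A * (C₁ * Λ) + 8 * A * ((2 + Ca) * Λ) + c₄ * (2 * Λ) +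
      4 * C₂ * Λ = (2 * A * C₁ + 8 * A * (2 + Ca) + c₄ * 2 + 4 * C₂) * Λ)]
  -- interior zeros
  obtain ⟨Zi, hZi⟩ : ∃ Zi, Zi = (ZI d T).filter (fun s => T + Real.log T ≤ s.im ∧ s.im ≤ 2 * T - Real.log T) := ⟨_, rfl⟩
  have hZisub : Zi ⊆ ZI d T := by rw [hZi]; exact Finset.filter_subset _ _
  have hBle : ∀ t : ℝ, ‖F t‖ ^ 2 ≤ T ^ (1 / 4 : ℝ) * n2 := fun t => by
    have h1 := (hD.2.2 M e t).1
    rw [← hn2d] at h1
    exact h1.trans (mul_le_mul_of_nonneg_right hM8 hn20.le)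
  have hedge : ∑ s ∈ (ZI d T).filter (fun s => ¬ (T + Real.log T ≤ s.im ∧ s.im ≤ 2 * T - Real.log T)), ‖F s.im‖ ^ 2 ≤ 1 / 40 * Λ := by
    have h1 : ∑ s ∈ (ZI d T).filter (fun s => ¬ (T + Real.log T ≤ s.im ∧ s.im ≤ 2 * T - Real.log T)), ‖F s.im‖ ^ 2 ≤
        ∑ s ∈ (H370.Zf riemannZeta T (2 * T)).filter (fun s => ¬ (T + Real.log T ≤ s.im ∧ s.im ≤ 2 * T - Real.log T)),
          (T ^ (1 / 4 : ℝ) * n2) * (mz s : ℝ) := by
      have h2 : (ZI d T).filter (fun s => ¬ (T + Real.log T ≤ s.im ∧ s.im ≤ 2 * T - Real.log T)) ⊆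
          (H370.Zf riemannZeta T (2 * T)).filter (fun s => ¬ (T + Real.log T ≤ s.im ∧ s.im ≤ 2 * T - Real.log T)) := by
        intro s hs
        rw [Finset.mem_filter] at hs ⊢
        exact ⟨(mem_ZI hs.1).1, hs.2⟩
      refine le_trans (Finset.sum_le_sum fun s hs => ?_) (Finset.sum_le_sum_of_subset_of_nonneg h2 fun s _ _ => by positivity)
      rw [Finset.mem_filter] at hs
      rw [(mem_ZI hs.1).2.2, Nat.cast_one, mul_one]
      exact hBle _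
    refine h1.trans ?_
    rw [← Finset.mul_sum]
    have h2 : T ^ (1 / 4 : ℝ) * n2 * ∑ s ∈ (H370.Zf riemannZeta T (2 * T)).filter (fun s => ¬ (T + Real.log T ≤ s.im ∧ s.im ≤ 2 * T - Real.log T)), (mz s : ℝ) ≤
        T ^ (1 / 4 : ℝ) * n2 * T ^ (1 / 4 : ℝ) := mul_le_mul_of_nonneg_left hEd (by positivity)
    refine h2.trans ?_
    have h3 : T ^ (1 / 4 : ℝ) * n2 * T ^ (1 / 4 : ℝ) = T ^ (1 / 2 : ℝ) * n2 := by
      have : T ^ (1 / 4 : ℝ) * T ^ (1 / 4 : ℝ) = T ^ (1 / 2 : ℝ) := by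
        rw [← Real.rpow_add hT0]; norm_num
      rw [← this]; ring
    have h4 : 40 * T ^ (1 / 2 : ℝ) ≤ T := by
      calc 40 * T ^ (1 / 2 : ℝ) ≤ T ^ (1 / 2 : ℝ) * T ^ (1 / 2 : ℝ) := mul_le_mul_of_nonneg_right hT40 (by positivity)
        _ = T := by rw [← Real.rpow_add hT0]; norm_num
    rw [h3, hΛ]
    have h5 : T * n2 ≤ Real.log T * (T * n2) := le_mul_of_one_le_left (by positivity) hL1
    have h6 : 40 * T ^ (1 / 2 : ℝ) * n2 ≤ T * n2 := mul_le_mul_of_nonneg_right h4 hn20.le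
    linarith
  obtain ⟨I₀, hI₀⟩ : ∃ I₀, I₀ = ∑ s ∈ Zi, ‖F s.im‖ ^ 2 := ⟨_, rfl⟩
  have hI₀l : 1 / 40 * Λ ≤ I₀ := by
    have h1 := Finset.sum_filter_add_sum_filter_not (ZI d T) (fun s => T + Real.log T ≤ s.im ∧ s.im ≤ 2 * T - Real.log T)
      (fun s => ‖F s.im‖ ^ 2)
    rw [hI₀, hZi]
    linarith
  have hint' : ∑ s ∈ Zi, g s * ‖F s.im‖ ^ 2 ≤ K₁ * Λ :=
    (Finset.sum_le_sum_of_subset_of_nonneg hZisub fun s _ _ => mul_nonneg (hg0 s) (by positivity)).trans hint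
  -- the pointwise inequality
  have hpt : ∀ s ∈ Zi, Real.log T ^ (2 * k) * (Real.exp (-K) *
      ((1 + K) * ‖F s.im‖ ^ 2 - g s * ‖F s.im‖ ^ 2)) ≤
      ‖deriv riemannZeta s‖ ^ (2 * k) * Real.exp (2 * l * (Real.pi * E1 s.im)) := by
    intro s hs
    rw [hZi, Finset.mem_filter] at hs
    obtain ⟨hsZ, hsI⟩ := hs
    have hnn : 0 ≤ ‖deriv riemannZeta s‖ ^ (2 * k) * Real.exp (2 * l * (Real.pi * E1 s.im)) := by positivity
    by_cases hF0 : F s.im = 0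
    · rw [hF0]
      simpa using hnn
    obtain ⟨-, hre, hmz⟩ := mem_ZI hsZ
    have hder : 0 < ‖deriv riemannZeta s‖ := norm_pos_iff.mpr (deriv_ne hre hmz)
    obtain ⟨h, hh⟩ : ∃ h, h = Real.log ‖deriv riemannZeta s‖ * (2 * k) - Real.log (Real.log T) * (2 * k) +
      2 * l * (Real.pi * E1 s.im) - 2 * Real.log ‖F s.im‖ := ⟨_, rfl⟩
    have hEsq : ‖F s.im‖ ^ 2 = Real.exp (2 * Real.log ‖F s.im‖) := by
      rw [two_mul, Real.exp_add, Real.exp_log (norm_pos_iff.mpr hF0), sq]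
    have hrhs : ‖deriv riemannZeta s‖ ^ (2 * k) * Real.exp (2 * l * (Real.pi * E1 s.im)) =
        Real.log T ^ (2 * k) * (Real.exp h * ‖F s.im‖ ^ 2) := by
      rw [hEsq, Real.rpow_def_of_pos hder, Real.rpow_def_of_pos hL0, ← Real.exp_add, ← Real.exp_add, ← Real.exp_add, hh]
      congr 1
      ring
    have hgh : -g s ≤ h := by
      have u1 := hd'.up s.im hF0
      rw [← hX, PA_val (X := X) (by rw [hX]; exact hgs) k l s.im] at u1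
      have u2 := EP_approx X s.im
      have u3 := hMpt s.im hsI.1 hsI.2
      have e3 : Py (T ^ δ) s.im = ∑ p ∈ (Finset.Icc 1 X).filter Nat.Prime, (p : ℂ) ^ (-(1 / 2 + s.im * I)) := by
        rw [hX]; rfl
      rw [← hX, e3] at u3
      set P₀ := ∑ p ∈ (Finset.Icc 1 X).filter Nat.Prime, ((p : ℂ) ^ (-(1 / 2 + s.im * I)) + ((p : ℂ) ^ (-(1 / 2 + s.im * I))) ^ 2 / 2).re with hP₀
      set P₁ := (∑ p ∈ (Finset.Icc 1 X).filter Nat.Prime, (p : ℂ) ^ (-(1 / 2 + s.im * I))).im with hP₁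
      have v1 : |k * (Real.log ‖deriv riemannZeta s‖ - Real.log (Real.log T) - EP X s.im)| ≤ A * Ds s := by
        rw [abs_mul, hDsd]
        exact mul_le_mul_of_nonneg_right (by linarith) (abs_nonneg _)
      have v2 : |k * (EP X s.im - P₀)| ≤ A * (2 * S3) := by
        rw [abs_mul]
        exact mul_le_mul (by linarith) u2 (abs_nonneg _) (by linarith)
      have v3 : |l * (Real.pi * E1 s.im - P₁ - (dp X gq s.im).im)| ≤ A * (4 * M1 s.im) := by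
        rw [abs_mul]
        refine mul_le_mul (by linarith) (u3.trans ?_) (abs_nonneg _) (by linarith)
        exact mul_le_mul_of_nonneg_right Real.pi_lt_four.le (hM0 s.im)
      have w1 := neg_abs_le (k * (Real.log ‖deriv riemannZeta s‖ - Real.log (Real.log T) - EP X s.im))
      have w2 := neg_abs_le (k * (EP X s.im - P₀))
      have w3 := neg_abs_le (l * (Real.pi * E1 s.im - P₁ - (dp X gq s.im).im))
      have u4 : ∑ j ∈ Finset.range J, 2 * w j * ‖dp M₀ (q j) s.im‖ ^ 6 =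
          2 * ∑ j ∈ Finset.range J, w j * ‖dp M₀ (q j) s.im‖ ^ 6 := by
        rw [Finset.mul_sum]
        exact Finset.sum_congr rfl fun j _ => by ring
      simp only [hg, hh, hc₄]
      rw [u4]
      linarith
    have h4 := exp_tangent (K := K) hgh
    rw [hrhs]
    refine mul_le_mul_of_nonneg_left ?_ (by positivity)
    calc Real.exp (-K) * ((1 + K) * ‖F s.im‖ ^ 2 - g s * ‖F s.im‖ ^ 2)
        = Real.exp (-K) * (1 + K - g s) * ‖F s.im‖ ^ 2 := by ring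
      _ ≤ Real.exp h * ‖F s.im‖ ^ 2 := mul_le_mul_of_nonneg_right h4 (by positivity)
  refine le_trans ?_ ((Finset.sum_le_sum hpt).trans (Finset.sum_le_sum_of_subset_of_nonneg hZisub fun s _ _ => by positivity))
  rw [← Finset.mul_sum, ← Finset.mul_sum, Finset.sum_sub_distrib, ← Finset.mul_sum, ← hI₀]
  have h5 : K₁ * Λ ≤ K * I₀ := by
    rw [hK]
    nlinarith
  have h6 : I₀ ≤ (1 + K) * I₀ - ∑ s ∈ Zi, g s * ‖F s.im‖ ^ 2 := by linarith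
  have e5 : Real.log T ^ (1 + 2 * k) = Real.log T * Real.log T ^ (2 * k) := by
    rw [Real.rpow_add hL0, Real.rpow_one]
  have h7 : c₂ * Real.exp (-(A ^ 2 * Cm)) * Real.exp ((k ^ 2 + l ^ 2) * Real.log (Real.log T)) ≤ n2 := by
    rw [← hn2d] at hlow2
    refine le_trans ?_ hlow2
    rw [mul_assoc, ← Real.exp_add]
    refine mul_le_mul_of_nonneg_left (Real.exp_le_exp.2 ?_) hc₂.le
    have h8 : k ^ 2 + l ^ 2 ≤ A ^ 2 := by
      have h9 : (|k| + |l|) ^ 2 ≤ A ^ 2 := pow_le_pow_left₀ (by positivity) hkl 2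
      have h10 := sq_abs k
      have h11 := sq_abs l
      nlinarith [mul_nonneg hk hl]
    have h9 : (k ^ 2 + l ^ 2) * (Real.log (Real.log T) - Cm) ≤
        (k ^ 2 + l ^ 2) * ∑ p ∈ (Finset.Icc 1 ⌊T ^ δ⌋₊).filter Nat.Prime, (1 : ℝ) / p :=
      mul_le_mul_of_nonneg_left hMert (by positivity)
    have h10 : (k ^ 2 + l ^ 2) * Cm ≤ A ^ 2 * Cm := mul_le_mul_of_nonneg_right h8 hCm
    linarith
  calc Real.exp (-K) / 40 * (c₂ * Real.exp (-(A ^ 2 * Cm))) * T * Real.log T ^ (1 + 2 * k) * Real.exp ((k ^ 2 + l ^ 2) * Real.log (Real.log T))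
      = (Real.exp (-K) / 40 * T * Real.log T ^ (1 + 2 * k)) * (c₂ * Real.exp (-(A ^ 2 * Cm)) * Real.exp ((k ^ 2 + l ^ 2) * Real.log (Real.log T))) := by ring
    _ ≤ (Real.exp (-K) / 40 * T * Real.log T ^ (1 + 2 * k)) * n2 := mul_le_mul_of_nonneg_left h7 (by positivity)
    _ = Real.log T ^ (2 * k) * (Real.exp (-K) * (1 / 40 * Λ)) := by
        rw [e5, hΛ]
        ring
    _ ≤ Real.log T ^ (2 * k) * (Real.exp (-K) * I₀) :=
        mul_le_mul_of_nonneg_left (mul_le_mul_of_nonneg_left hI₀l (Real.exp_pos _).le) (by positivity)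
    _ ≤ _ := mul_le_mul_of_nonneg_left (mul_le_mul_of_nonneg_left h6 (Real.exp_pos _).le) (by positivity)

end

end Pool.Agent.H313.SX
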