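import Pool.Graph.R_pool_sql_team_seeded_3997aac3.Q241.UM.RES
import Pool.Agent.H313.SL.Core

set_option autoImplicit false

/-! The resonator as a coherent state, with arbitrary centre in a large disc. -/

namespace Pool.Agent.H313.SX

open Finset Filter Topology
open Pool.Agent.Q97.UM Pool.Agent.Q190.UM Pool.Agent.Q38.UM Pool.Agent.H313.SL
open Pool.Agent.Q241.UM (rs Sq om rs_ne res_core one_le_N2 ev_Py ev_sum)

noncomputable section

lemma pc_prc (X : ℕ) : pc X = prc X := rfl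

lemma sq_shift {b : ℕ → ℂ} {N : ℕ} (hb : ∀ n, b n ≠ 0 → 1 ≤ n ∧ n ≤ N) (M : ℕ) {q : ℕ} (hq : 1 ≤ q) :
    ∑ n ∈ (Icc 1 M).filter (fun n => q ∣ n), ‖b (n / q)‖ ^ 2 / (n : ℝ) ≤ 1 / (q : ℝ) * N2 N b := by
  classical
  have hq0 : 0 < q := hq
  have h1 : ∑ n ∈ (Icc 1 M).filter (fun n => q ∣ n), ‖b (n / q)‖ ^ 2 / (n : ℝ) =
      ∑ n ∈ ((Icc 1 M).filter (fun n => q ∣ n)).filter (fun n => b (n / q) ≠ 0), ‖b (n / q)‖ ^ 2 / (n : ℝ) := by
    symm
    apply Finset.sum_filter_of_ne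
    intro n _ h h0
    apply h
    rw [h0]
    simp
  rw [h1]
  have h2 : ((Icc 1 M).filter (fun n => q ∣ n)).filter (fun n => b (n / q) ≠ 0) ⊆ (Icc 1 N).image (fun m => q * m) := by
    intro n hn
    rw [mem_filter, mem_filter] at hn
    rw [mem_image]
    exact ⟨n / q, mem_Icc.2 (hb _ hn.2), Nat.mul_div_cancel' hn.1.2⟩
  refine (sum_le_sum_of_subset_of_nonneg h2 fun _ _ _ => by positivity).trans ?_
  rw [sum_image (fun x _ y _ h => Nat.eq_of_mul_eq_mul_left hq0 h)]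
  unfold N2
  rw [mul_sum]
  apply le_of_eq
  refine sum_congr rfl fun m hm => ?_
  rw [Nat.mul_div_cancel_left _ hq0]
  have hm1 := (mem_Icc.1 hm).1
  have h3 : (m : ℝ) ≠ 0 := by positivity
  have h4 : (q : ℝ) ≠ 0 := by positivity
  push_cast
  field_simp

/-- squarefree support -/
lemma SqB_sf {b : ℕ → ℂ} {N : ℕ} (hb : ∀ n, b n ≠ 0 → 1 ≤ n ∧ n ≤ N) (hsf : ∀ n, b n ≠ 0 → Squarefree n) (X' : ℕ) :
    SqB 2 X' N b := by
  classical
  intro g hg hgs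
  have h1 : ∀ n ∈ Icc 1 (X' ^ 2 * N), ‖cv g b n‖ ^ 2 / (n : ℝ) ≤
      ∑ p ∈ (PX X').filter (fun p => p ^ 2 ∣ n), ‖b (n / p ^ 2)‖ ^ 2 / (n : ℝ) := by
    intro n hn
    rw [← sum_div]
    refine div_le_div_of_nonneg_right ?_ (by positivity)
    have h2 := cv_g_le X' hg hgs b (mem_Icc.1 hn).1
    refine (pow_le_pow_left₀ (norm_nonneg _) h2 2).trans ?_
    by_cases hz : ∀ p ∈ (PX X').filter (fun p => p ^ 2 ∣ n), b (n / p ^ 2) = 0
    · rw [sum_eq_zero (fun p hp => by rw [hz p hp, norm_zero])]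
      rw [zero_pow two_ne_zero]
      exact sum_nonneg fun p _ => by positivity
    · push Not at hz
      obtain ⟨p₀, hp₀, hb₀⟩ := hz
      have hpr : ∀ p ∈ (PX X').filter (fun p => p ^ 2 ∣ n), p.Prime ∧ p ^ 2 ∣ n := by
        intro p hp
        rw [mem_filter] at hp
        refine ⟨?_, hp.2⟩
        have := hp.1
        unfold PX at this
        rw [mem_filter] at this
        exact this.2
      have h3 : ∀ p ∈ (PX X').filter (fun p => p ^ 2 ∣ n), p ≠ p₀ → ‖b (n / p ^ 2)‖ = 0 := by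
        intro p hp hne
        by_contra hc
        have hc' : b (n / p ^ 2) ≠ 0 := fun h => hc (by rw [h, norm_zero])
        obtain ⟨hp1, hp2⟩ := hpr p hp
        obtain ⟨hq1, hq2⟩ := hpr p₀ hp₀
        have hco : Nat.Coprime (p ^ 2) (p₀ ^ 2) := Nat.Coprime.pow 2 2 ((Nat.coprime_primes hp1 hq1).2 hne)
        have hd : p ^ 2 * p₀ ^ 2 ∣ n := Nat.Coprime.mul_dvd_of_dvd_of_dvd hco hp2 hq2
        obtain ⟨m, hm⟩ := hd
        have hp0 : 0 < p ^ 2 := pow_pos hp1.pos 2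
        have hnd : n / p ^ 2 = p₀ ^ 2 * m := by
          rw [hm, mul_assoc, Nat.mul_div_cancel_left _ hp0]
        have hs := hsf _ hc'
        rw [hnd] at hs
        have hu := hs p₀ ⟨m, by ring⟩
        exact hq1.one_lt.ne' (Nat.isUnit_iff.1 hu)
      rw [sum_eq_single_of_mem p₀ hp₀ h3]
      exact single_le_sum (f := fun p => ‖b (n / p ^ 2)‖ ^ 2) (fun p _ => by positivity) hp₀
  have h2 : N2 (X' ^ 2 * N) (cv g b) ≤ ∑ p ∈ PX X', ∑ n ∈ (Icc 1 (X' ^ 2 * N)).filter (fun n => p ^ 2 ∣ n),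
      ‖b (n / p ^ 2)‖ ^ 2 / (n : ℝ) := by
    refine (sum_le_sum h1).trans (le_of_eq ?_)
    simp only [sum_filter]
    rw [sum_comm]
    refine sum_congr rfl fun p _ => ?_
    by_cases hp : p.Prime
    · simp only [if_pos hp]
    · simp only [if_neg hp, sum_const_zero]
  refine h2.trans ?_
  have hN : 0 ≤ N2 N b := by unfold N2; positivity
  have h3 : ∑ p ∈ PX X', ∑ n ∈ (Icc 1 (X' ^ 2 * N)).filter (fun n => p ^ 2 ∣ n), ‖b (n / p ^ 2)‖ ^ 2 / (n : ℝ) ≤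
      ∑ p ∈ PX X', ((p : ℝ) ^ 2)⁻¹ * N2 N b := by
    refine sum_le_sum fun p hp => ?_
    have hp1 : p.Prime := by
      unfold PX at hp
      rw [mem_filter] at hp
      exact hp.2
    refine (sq_shift hb (X' ^ 2 * N) (Nat.one_le_pow _ _ hp1.pos)).trans (le_of_eq ?_)
    push_cast
    rw [one_div]
  refine h3.trans ?_
  rw [← sum_mul]
  refine mul_le_mul_of_nonneg_right ?_ hN
  have h4 : PX X' ⊆ Ioo 0 (X' + 1) := by
    intro p hp
    unfold PX at hp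
    rw [mem_filter, mem_Icc] at hp
    rw [mem_Ioo]
    omega
  refine (sum_le_sum_of_subset_of_nonneg h4 fun _ _ _ => by positivity).trans ?_
  have h5 := sum_Ioo_inv_sq_le (α := ℝ) 0 (X' + 1)
  simpa using h5

lemma N2_top {b : ℕ → ℂ} {N : ℕ} (hb : ∀ n, b n ≠ 0 → 1 ≤ n ∧ n ≤ N) {M : ℕ} (hM : N ≤ M) : N2 M b = N2 N b := by
  unfold N2
  symm
  refine sum_subset (Icc_subset_Icc_right hM) fun n _ hn => ?_
  have : b n = 0 := by
    by_contra h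
    exact hn (mem_Icc.2 (hb n h))
  rw [this]
  simp

lemma N2_shift (M : ℕ) (f r : ℕ → ℂ) (a b : ℝ) :
    N2 M (fun n => f n - (a : ℂ) * r n) ≤ 2 * N2 M (fun n => f n - (b : ℂ) * r n) + 2 * (b - a) ^ 2 * N2 M r := by
  unfold N2
  rw [mul_sum, mul_sum, ← sum_add_distrib]
  refine sum_le_sum fun n _ => ?_
  have e1 : f n - (a : ℂ) * r n = (f n - (b : ℂ) * r n) + ((b - a : ℝ) : ℂ) * r n := by push_cast; ring
  have e2 : ‖f n - (a : ℂ) * r n‖ ≤ ‖f n - (b : ℂ) * r n‖ + |b - a| * ‖r n‖ := by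
    rw [e1]
    refine (norm_add_le _ _).trans (le_of_eq ?_)
    rw [norm_mul, Complex.norm_real, Real.norm_eq_abs]
  have e3 : ‖f n - (a : ℂ) * r n‖ ^ 2 ≤ 2 * ‖f n - (b : ℂ) * r n‖ ^ 2 + 2 * (b - a) ^ 2 * ‖r n‖ ^ 2 := by
    have h1 := pow_le_pow_left₀ (norm_nonneg _) e2 2
    have h2 : (|b - a| * ‖r n‖) ^ 2 = (b - a) ^ 2 * ‖r n‖ ^ 2 := by rw [mul_pow, sq_abs]
    nlinarith [sq_nonneg (‖f n - (b : ℂ) * r n‖ - |b - a| * ‖r n‖)]
  calc ‖f n - (a : ℂ) * r n‖ ^ 2 / (n : ℝ) ≤ (2 * ‖f n - (b : ℂ) * r n‖ ^ 2 + 2 * (b - a) ^ 2 * ‖r n‖ ^ 2) / (n : ℝ) :=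
        div_le_div_of_nonneg_right e3 (by positivity)
    _ = _ := by ring

theorem res_any {θ : ℝ} (hθ : 0 < θ) (hθ1 : θ ≤ 1) : ∃ c C : ℝ, 0 < c ∧ 0 ≤ C ∧ ∀ᶠ L : ℝ in atTop,
    ∀ a₀ : ℝ, 0 ≤ a₀ → a₀ ≤ c * Real.sqrt (L / Real.log L) → ∃ (N : ℕ) (r : ℕ → ℂ), (N : ℝ) ≤ Real.exp (θ * L) ∧ 1 ≤ N ∧
      (∀ n, r n ≠ 0 → 1 ≤ n ∧ n ≤ N) ∧ (∀ n, r n ≠ 0 → Squarefree n) ∧ 1 ≤ N2 N r ∧
      ∀ X : ℕ, L ^ 4 ≤ X → (X : ℝ) ≤ Real.exp L →
        N2 (X * N) (fun n => cv (pc X) r n - (a₀ : ℂ) * r n) ≤ C * Real.log L * N2 N r := by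
  obtain ⟨C₁, hC₁, hsum⟩ := ev_sum
  obtain ⟨c, hc⟩ : ∃ c, c = Real.sqrt (θ / 320) := ⟨_, rfl⟩
  have hc0 : 0 < c := by rw [hc]; exact Real.sqrt_pos.2 (by positivity)
  have hc2 : c ^ 2 = θ / 320 := by rw [hc]; exact Real.sq_sqrt (by positivity)
  refine ⟨c, 2 * (12 + 2 * C₁) + 2, hc0, by positivity, ?_⟩
  obtain ⟨X₀, hX₀⟩ := Filter.eventually_atTop.1 hsum
  have hfl : Tendsto (fun L : ℝ => ⌊L ^ 2⌋₊) atTop atTop :=
    tendsto_nat_floor_atTop.comp (tendsto_pow_atTop (by norm_num))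
  have hlogo : ∀ᶠ L : ℝ in atTop, Real.log L ≤ θ / 80 * L := by
    have h1 := Real.isLittleO_log_id_atTop.bound (c := θ / 80) (by positivity)
    filter_upwards [h1, eventually_ge_atTop 1] with L hL hL1
    rw [Real.norm_eq_abs, id, Real.norm_eq_abs, abs_of_nonneg (by linarith : (0 : ℝ) ≤ L)] at hL
    exact (le_abs_self _).trans hL
  filter_upwards [hfl.eventually ev_Py, hlogo, eventually_ge_atTop (Real.exp 1), eventually_ge_atTop 3,
    eventually_ge_atTop (X₀ : ℝ)] with L hPy hlo hLe hL3 hLX₀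
  obtain ⟨hS1, hS2⟩ := hPy
  have hL0 : 0 < L := by linarith
  have hlog1 : 1 ≤ Real.log L := by
    rw [← Real.log_exp 1]
    exact Real.log_le_log (Real.exp_pos 1) hLe
  have hlog0 : 0 < Real.log L := by linarith
  set y := ⌊L ^ 2⌋₊ with hy
  have hyL : (y : ℝ) ≤ L ^ 2 := Nat.floor_le (by positivity)
  have hyL' : L ^ 2 < y + 1 := Nat.lt_floor_add_one _
  have hy1 : 1 ≤ y := by
    rw [hy, Nat.one_le_floor_iff]
    nlinarith
  set z := θ * L / (4 * Real.log L) with hz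
  have hz20 : 20 ≤ z := by
    rw [hz, le_div_iff₀ (by positivity)]
    have := hlo
    nlinarith
  set K := ⌊z⌋₊ with hK
  have hKz : (K : ℝ) ≤ z := Nat.floor_le (by linarith)
  have hKz' : z < K + 1 := Nat.lt_floor_add_one _
  have hK10 : (10 : ℝ) ≤ K := by linarith
  have hKz2 : z / 2 ≤ K := by linarith
  have hKL : (K : ℝ) ≤ L := by
    refine hKz.trans ?_
    rw [hz, div_le_iff₀ (by positivity)]
    nlinarith [mul_le_mul_of_nonneg_right hθ1 hL0.le]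
  set P := Pool.Agent.Q241.UM.Py y with hPdef
  have hP : ∀ p ∈ P, p.Prime := fun p hp => (mem_filter.1 hp).2.1
  have hPle : ∀ p ∈ P, p ≤ y ^ 2 := fun p hp => (mem_Icc.1 (mem_filter.1 hp).1).2
  have hPgt : ∀ p ∈ P, y < p := fun p hp => (mem_filter.1 hp).2.2
  intro a₀ ha₀ ha₀c
  obtain ⟨Sg, hSg⟩ : ∃ Sg, Sg = ∑ p ∈ P, (1 : ℝ) / p := ⟨_, rfl⟩
  rw [← hSg] at hS1 hS2
  have hSg0 : 0 < Sg := by linarith
  obtain ⟨μ, hμ⟩ : ∃ μ, μ = max 1 (a₀ / Sg) := ⟨_, rfl⟩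
  have hμ1 : 1 ≤ μ := by rw [hμ]; exact le_max_left _ _
  have hμ2 : 10 * μ ^ 2 ≤ K := by
    rw [hμ]
    rcases le_total 1 (a₀ / Sg) with h | h
    · rw [max_eq_right h]
      have h1 : a₀ / Sg ≤ 2 * a₀ := by
        rw [div_le_iff₀ hSg0]
        nlinarith
      have h2 : a₀ / Sg ≤ 2 * (c * Real.sqrt (L / Real.log L)) := h1.trans (by linarith)
      have h3 := pow_le_pow_left₀ (by linarith : 0 ≤ a₀ / Sg) h2 2
      have h4 : (2 * (c * Real.sqrt (L / Real.log L))) ^ 2 = 4 * c ^ 2 * (L / Real.log L) := by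
        rw [mul_pow, mul_pow, Real.sq_sqrt (by positivity)]
        ring
      rw [h4, hc2] at h3
      have h5 : 10 * (4 * (θ / 320) * (L / Real.log L)) = z / 2 := by
        rw [hz]
        field_simp
        norm_num
      linarith
    · rw [max_eq_left h]
      linarith
  set a := μ * ∑ p ∈ P, (1 : ℝ) / p with ha
  have haa : |a - a₀| ≤ 1 := by
    rw [ha, ← hSg, hμ]
    rcases le_total 1 (a₀ / Sg) with h | h
    · rw [max_eq_right h, div_mul_cancel₀ _ hSg0.ne', sub_self, abs_zero]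
      norm_num
    · rw [max_eq_left h, one_mul]
      rw [div_le_one hSg0] at h
      rw [abs_le]
      constructor <;> linarith
  have hμK : μ ^ 2 ≤ K / 10 := by linarith
  have hx : ∀ p ∈ P, μ ^ 4 ≤ (p : ℝ) := by
    intro p hp
    have h1 : μ ^ 4 ≤ (K / 10 : ℝ) ^ 2 := by
      calc μ ^ 4 = (μ ^ 2) ^ 2 := by ring
        _ ≤ (K / 10 : ℝ) ^ 2 := pow_le_pow_left₀ (by positivity) hμK 2
    refine h1.trans ?_
    have h2 : (y : ℝ) + 1 ≤ p := by exact_mod_cast hPgt p hp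
    nlinarith [hKL, hK10]
  have hN : ∀ S ∈ P.powerset, S.card ≤ K → ∏ p ∈ S, p ≤ (y ^ 2) ^ K := by
    intro S hS hc
    have hSP := Finset.mem_powerset.1 hS
    calc ∏ p ∈ S, p ≤ (y ^ 2) ^ S.card := Finset.prod_le_pow_card _ _ _ fun p hp => hPle p (hSP hp)
      _ ≤ (y ^ 2) ^ K := Nat.pow_le_pow_right (by positivity) hc
  have hNN : 1 ≤ (y ^ 2) ^ K := Nat.one_le_pow _ _ (by positivity)
  have hsupp : ∀ n, rs P K (1 * μ) n ≠ 0 → 1 ≤ n ∧ n ≤ (y ^ 2) ^ K := by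
    intro n hn
    obtain ⟨⟨h3, h4⟩, h5⟩ := rs_ne hn
    have h6 := hN n.primeFactors (Finset.mem_powerset.2 h4) h5
    rw [Nat.prod_primeFactors_of_squarefree h3] at h6
    exact ⟨Nat.one_le_iff_ne_zero.2 h3.ne_zero, h6⟩
  refine ⟨(y ^ 2) ^ K, rs P K (1 * μ), ?_, hNN, hsupp, ?_, one_le_N2 hNN, ?_⟩
  · push_cast
    have h1 : ((y : ℝ) ^ 2) ^ K ≤ (L ^ 4) ^ K := by
      refine pow_le_pow_left₀ (by positivity) ?_ K
      calc (y : ℝ) ^ 2 ≤ (L ^ 2) ^ 2 := pow_le_pow_left₀ (Nat.cast_nonneg _) hyL 2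
        _ = L ^ 4 := by ring
    refine h1.trans ?_
    have h2 : (L ^ 4) ^ K = Real.exp ((4 * K : ℝ) * Real.log L) := by
      rw [← pow_mul, ← Real.rpow_natCast, Real.rpow_def_of_pos hL0]
      congr 1
      push_cast
      ring
    rw [h2]
    refine Real.exp_le_exp.2 ?_
    have h3 : (4 * Real.log L) * K ≤ (4 * Real.log L) * z := mul_le_mul_of_nonneg_left hKz (by positivity)
    have h4 : (4 * Real.log L) * z = θ * L := by
      rw [hz]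
      field_simp
    linarith
  · intro n hn
    exact (rs_ne hn).1.1
  · intro X hX1 hX2
    have hy2 : y ^ 2 ≤ X := by
      have h1 : ((y ^ 2 : ℕ) : ℝ) ≤ X := by
        push_cast
        calc (y : ℝ) ^ 2 ≤ (L ^ 2) ^ 2 := pow_le_pow_left₀ (Nat.cast_nonneg _) hyL 2
          _ = L ^ 4 := by ring
          _ ≤ X := hX1
      exact_mod_cast h1
    have h1 := res_core hP (K := K) (N := (y ^ 2) ^ K) (X := X) (σ := 1) (Or.inl rfl) hμ1 (by rw [← hSg]; exact hS2) ha hμ2 hx hN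
      (fun p hp => (hPle p hp).trans hy2)
    have hW : 0 ≤ N2 ((y ^ 2) ^ K) (rs P K (1 * μ)) := zero_le_one.trans (one_le_N2 hNN)
    have hXL : L ≤ X := by
      have : L ≤ L ^ 4 := by
        nlinarith [mul_pos hL0 hL0, mul_pos (mul_pos hL0 hL0) hL0, sq_nonneg (L ^ 2), pow_le_pow_right₀ (by linarith : (1:ℝ) ≤ L) (by norm_num : 1 ≤ 4)]
      linarith
    have hXX₀ : X₀ ≤ X := by
      have : (X₀ : ℝ) ≤ X := by linarith
      exact_mod_cast this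
    have h2 := hX₀ X hXX₀
    have hX1' : (1 : ℝ) < X := by linarith
    have hX1n : 1 ≤ X := by
      have : (1 : ℝ) ≤ X := hX1'.le
      exact_mod_cast this
    have h3 : Real.log (Real.log X) ≤ Real.log L := by
      refine Real.log_le_log (Real.log_pos hX1') ?_
      have h4 := Real.log_le_log (by linarith) hX2
      rwa [Real.log_exp] at h4
    have h4 : N2 (X * (y ^ 2) ^ K) (fun n => cv (pc X) (rs P K (1 * μ)) n - (a : ℂ) * rs P K (1 * μ) n) ≤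
        ((12 + 2 * C₁) * Real.log L) * N2 ((y ^ 2) ^ K) (rs P K (1 * μ)) := by
      rw [pc_prc]
      have e1 : (fun n => cv (prc X) (rs P K (1 * μ)) n - (a : ℂ) * rs P K (1 * μ) n) =
          (fun n => cv (prc X) (rs P K (1 * μ)) n - ((1 : ℝ) : ℂ) * (a : ℂ) * rs P K (1 * μ) n) := by
        funext n
        rw [Complex.ofReal_one, one_mul (a : ℂ)]
      rw [e1]
      refine h1.trans ?_
      refine mul_le_mul_of_nonneg_right ?_ hW
      nlinarith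
    have h5 := N2_shift (X * (y ^ 2) ^ K) (cv (pc X) (rs P K (1 * μ))) (rs P K (1 * μ)) a₀ a
    have h6 : N2 (X * (y ^ 2) ^ K) (rs P K (1 * μ)) = N2 ((y ^ 2) ^ K) (rs P K (1 * μ)) :=
      N2_top hsupp (Nat.le_mul_of_pos_left _ hX1n)
    rw [h6] at h5
    have h7 : (a - a₀) ^ 2 ≤ 1 := by
      rw [← sq_abs]
      exact pow_le_one₀ (abs_nonneg _) haa
    have h8 : 2 * (a - a₀) ^ 2 * N2 ((y ^ 2) ^ K) (rs P K (1 * μ)) ≤ 2 * Real.log L * N2 ((y ^ 2) ^ K) (rs P K (1 * μ)) := by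
      refine mul_le_mul_of_nonneg_right ?_ hW
      linarith
    calc _ ≤ _ := h5
      _ ≤ 2 * (((12 + 2 * C₁) * Real.log L) * N2 ((y ^ 2) ^ K) (rs P K (1 * μ))) + 2 * Real.log L * N2 ((y ^ 2) ^ K) (rs P K (1 * μ)) := by
          linarith
      _ = _ := by ring

/-- complex centres -/
theorem res_state {θ : ℝ} (hθ : 0 < θ) (hθ1 : θ ≤ 1) : ∃ c C : ℝ, 0 < c ∧ 0 ≤ C ∧ ∀ᶠ T : ℝ in atTop, ∀ z : ℂ,
    ‖z‖ ≤ c * Real.sqrt (Real.log T / Real.log (Real.log T)) → ∃ (N : ℕ) (e : ℕ → ℂ), (N : ℝ) ≤ T ^ θ ∧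
      (∀ n, e n ≠ 0 → 1 ≤ n ∧ n ≤ N) ∧ 0 < N2 N e ∧ (∀ X, SqB 2 X N e) ∧
      ∀ X : ℕ, Real.log T ^ 4 ≤ X → (X : ℝ) ≤ T →
        N2 (X * N) (fun n => cv (pc X) e n - z * e n) ≤ C * Real.log (Real.log T) * N2 N e := by
  obtain ⟨c, C, hc, hC, hev⟩ := res_any hθ hθ1
  refine ⟨c, C, hc, hC, ?_⟩
  filter_upwards [Real.tendsto_log_atTop.eventually hev, eventually_gt_atTop 0] with T hT hT0 z hz
  have h1 : Real.exp (θ * Real.log T) = T ^ θ := by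
    rw [Real.rpow_def_of_pos hT0, mul_comm]
  have h2 : Real.exp (Real.log T) = T := Real.exp_log hT0
  rw [h1, h2] at hT
  obtain ⟨N, r, hN, hN1, hr, hsf, hNr, hX⟩ := hT ‖z‖ (norm_nonneg _) hz
  obtain ⟨ω, hω, hωz⟩ : ∃ ω : ℂ, ‖ω‖ = 1 ∧ starRingEnd ℂ ω * (‖z‖ : ℂ) = z := by
    rcases eq_or_ne z 0 with h | h
    · refine ⟨1, norm_one, ?_⟩
      rw [h]
      simp
    · have hn : (‖z‖ : ℂ) ≠ 0 := by exact_mod_cast norm_ne_zero_iff.2 h
      refine ⟨starRingEnd ℂ z / (‖z‖ : ℂ), ?_, ?_⟩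
      · rw [norm_div, RCLike.norm_conj, Complex.norm_real, norm_norm, div_self (norm_ne_zero_iff.2 h)]
      · rw [map_div₀, Complex.conj_conj, Complex.conj_ofReal, div_mul_cancel₀ _ hn]
  refine ⟨N, tw ω r, hN, fun n hn => hr n (tw_ne hn), ?_, fun X => ?_, fun X hX1 hX2 => ?_⟩
  · rw [N2_tw hω]
    linarith
  · exact SqB_sf (fun n hn => hr n (tw_ne hn)) (fun n hn => hsf n (tw_ne hn)) X
  · have h3 := N2_main_tw hω X (X * N) r (‖z‖ : ℂ)
    rw [hωz] at h3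
    rw [h3, N2_tw hω]
    exact hX X hX1 hX2

end

end Pool.Agent.H313.SX
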